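import Pool.Agent.MP_1ba41f_an.S2.CV.Seg

/-! From a reversible invariant family of arcs to an attained area. -/

set_option autoImplicit false

noncomputable section
open Set Filter Topology

namespace Pool.Agent.MP_1ba41f_an.S2

/-- the parameter rectangle -/
def KK : Set (ℝ × ℝ) := Icc 0 (2 * Real.pi) ×ˢ Icc 0 1

/-- the shape image of finitely many families of arcs and of their mirror images -/
def Img {ι : Type} (m : Fin 3 → ℝ) (f : ι → ℝ × ℝ → ℂ × ℂ) : Set E3 :=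
  (⋃ j, (fun x => sh m (f j x)) '' KK) ∪ ⋃ j, (fun x => sh m (cj (f j x))) '' KK

/-- equal up to a rotation -/
def Rot (x y : St) : Prop := ∃ u : ℂ, ‖u‖ = 1 ∧ x = u • y

/-- a segment from `x` to a rotated copy of `y`, of length at least `c`, with shape image `A` -/
def SegR (a b c : ℝ) (x y : St) (A : Set E3) : Prop :=
  ∃ (y' : St) (T : ℝ) (Z : Set (ℂ × ℂ)), Rot y' y ∧ c ≤ T ∧ Seg a b x y' T Z ∧
    sh ![1, a, b] '' Z = A

variable {a b c c' : ℝ} {x y z x' y' : St} {A A' : Set E3}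

theorem mass_pos (ha : 0 < a) (hb : 0 < b) (i : Fin 3) : 0 < (![1, a, b] : Fin 3 → ℝ) i := by
  fin_cases i <;> simp [ha, hb]

theorem Rot.refl (x : St) : Rot x x := ⟨1, norm_one, (one_smul _ _).symm⟩

theorem Rot.symm (h : Rot x y) : Rot y x := by
  obtain ⟨u, hu, rfl⟩ := h
  have : u ≠ 0 := fun e => by simp [e] at hu
  exact ⟨u⁻¹, by simp [hu], by rw [smul_smul, inv_mul_cancel₀ this, one_smul]⟩

theorem Rot.trans (h : Rot x y) (h' : Rot y z) : Rot x z := by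
  obtain ⟨u, hu, rfl⟩ := h
  obtain ⟨v, hv, rfl⟩ := h'
  exact ⟨u * v, by simp [hu, hv], smul_smul _ _ _⟩

theorem Rot.mir (h : Rot x y) : Rot (mir x) (mir y) := by
  obtain ⟨u, hu, rfl⟩ := h
  exact ⟨_, by simpa using hu, mir_smul u y⟩

theorem sh_image_smul {m : Fin 3 → ℝ} (hm : ∀ i, 0 < m i) {u : ℂ} (hu : ‖u‖ = 1)
    (Z : Set (ℂ × ℂ)) : sh m '' ((fun q => u • q) '' Z) = sh m '' Z := by
  rw [image_image]
  exact image_congr fun q _ => sh_smul hm (fun e => by simp [e] at hu) q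

theorem SegR.congr (ha : 0 < a) (hb : 0 < b) (h : SegR a b c x y A) (hx : Rot x' x)
    (hy : Rot y' y) : SegR a b c x' y' A := by
  obtain ⟨w, T, Z, h1, h2, h3, rfl⟩ := h
  obtain ⟨u, hu, rfl⟩ := hx
  exact ⟨u • w, T, _, (Rot.trans ⟨u, hu, rfl⟩ h1).trans hy.symm, h2, h3.rot hu,
    sh_image_smul (mass_pos ha hb) hu Z⟩

theorem SegR.trans (ha : 0 < a) (hb : 0 < b) (h : SegR a b c x y A) (h' : SegR a b c' y z A') :
    SegR a b (c + c') x z (A ∪ A') := by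
  obtain ⟨w, T, Z, h1, h2, h3, rfl⟩ := h
  obtain ⟨w', T', Z', h1', h2', h3', rfl⟩ := h'.congr ha hb h1 (Rot.refl z)
  exact ⟨w', _, _, h1', add_le_add h2 h2', h3.trans h3', image_union _ _ _⟩

theorem SegR.mono (h : SegR a b c x y A) (hc : c' ≤ c) : SegR a b c' x y A := by
  obtain ⟨w, T, Z, h1, h2, h3, h4⟩ := h
  exact ⟨w, T, Z, h1, hc.trans h2, h3, h4⟩

/-- the reflection of the shape sphere -/
def rf (v : E3) : E3 := !₂[v 0, v 1, -v 2]

theorem sh_cj {m : Fin 3 → ℝ} (hm : ∀ i, 0 < m i) (q : ℂ × ℂ) : sh m (cj q) = rf (sh m q) := by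
  rw [Hopf.sh_eq hm, Hopf.sh_eq hm, Hopf.hp, Hopf.hp, Hopf.norm_wv, Hopf.norm_wv]
  have e1 : (Hopf.k1 m : ℂ) * (cj q).1 = starRingEnd ℂ (Hopf.k1 m * q.1) := by simp [cj]
  have e2 : (Hopf.k2 m : ℂ) * ((cj q).2 - Hopf.k3 m * (cj q).1) =
      starRingEnd ℂ (Hopf.k2 m * (q.2 - Hopf.k3 m * q.1)) := by simp [cj]
  rw [e1, e2]
  generalize (Hopf.k1 m : ℂ) * q.1 = z1
  generalize (Hopf.k2 m : ℂ) * (q.2 - Hopf.k3 m * q.1) = z2
  ext i
  fin_cases i <;> simp [rf, wv]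
  ring

theorem SegR.mir (ha : 0 < a) (hb : 0 < b) (h : SegR a b c x y A) :
    SegR a b c (mir y) (mir x) (rf '' A) := by
  obtain ⟨w, T, Z, h1, h2, h3, rfl⟩ := h
  refine SegR.congr ha hb ⟨_, T, _, Rot.refl _, h2, h3.mir, ?_⟩ h1.mir.symm (Rot.refl _)
  rw [image_image, image_image]
  exact image_congr fun q _ => sh_cj (mass_pos ha hb) q

theorem glueR (ha : 0 < a) (hb : 0 < b) (hc : 0 < c) {x : ℤ → St} {A : ℤ → Set E3}
    (h : ∀ k, SegR a b c (x k) (x (k + 1)) (A k)) :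
    ∃ q, IsSol ![1, a, b] q ∧ range (fun t => shape ![1, a, b] (q t)) = ⋃ k, A k := by
  choose y T Z h1 h2 h3 h4 using h
  choose u hu e using h1
  obtain ⟨Φ, hΦ⟩ := exists_sum fun k => (u k).arg
  have n : ∀ k, ‖Complex.exp (Φ k * Complex.I)‖ = 1 := fun k => Complex.norm_exp_ofReal_mul_I _
  obtain ⟨γ, g1, g2⟩ := glue (a := a) (b := b) (x := fun k => Complex.exp (Φ k * Complex.I) • x k)
    hc h2 fun k => by
      have := (h3 k).rot (n k)
      rwa [e k, smul_smul, show Complex.exp (Φ k * Complex.I) * u k =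
        Complex.exp (Φ (k + 1) * Complex.I) by
          rw [hΦ, Complex.ofReal_add, add_mul, Complex.exp_add]
          congr 1
          simpa [hu k] using (Complex.norm_mul_exp_arg_mul_I (u k)).symm] at this
  obtain ⟨q, q1, q2⟩ := newt ha hb g1
  refine ⟨q, q1, ?_⟩
  simp only [shape_eq_sh (mass_pos ha hb), q2]
  rw [show (fun t => sh ![1, a, b] (γ t).1) = sh ![1, a, b] ∘ fun t => (γ t).1 from rfl,
    range_comp, g2, image_iUnion]
  exact iUnion_congr fun k => by rw [sh_image_smul (mass_pos ha hb) (n k), h4]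

theorem KK_compact : IsCompact KK := isCompact_Icc.prod isCompact_Icc

theorem KK_convex : Convex ℝ KK := (convex_Icc _ _).prod (convex_Icc _ _)

/-- closure of the union of the arcs over a dense orbit -/
theorem closure_arcs {S : ℝ × ℝ → E3} (hS : ContinuousOn S (univ ×ˢ Icc 0 1))
    (hp : ∀ θ, ∀ τ ∈ Icc (0 : ℝ) 1, S (θ + 2 * Real.pi, τ) = S (θ, τ)) {φ : ℤ → ℝ}
    (hd : ∀ θ ε : ℝ, 0 < ε → ∃ k n : ℤ, |φ k - θ - n * (2 * Real.pi)| < ε) :
    closure (⋃ k, (fun τ => S (φ k, τ)) '' Icc 0 1) = S '' KK := by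
  have hpi : (0 : ℝ) < 2 * Real.pi := by positivity
  have per : ∀ τ ∈ Icc (0 : ℝ) 1, Function.Periodic (fun θ => S (θ, τ)) (2 * Real.pi) :=
    fun τ hτ θ => hp θ τ hτ
  refine Subset.antisymm ((KK_compact.image_of_continuousOn (hS.mono fun x hx =>
    ⟨mem_univ _, hx.2⟩)).isClosed.closure_subset_iff.2 (iUnion_subset fun k => ?_)) ?_
  · rintro _ ⟨τ, hτ, rfl⟩
    obtain ⟨θ, hθ, e⟩ := (per τ hτ).exists_mem_Ico₀ hpi (φ k)
    exact ⟨(θ, τ), ⟨Ico_subset_Icc_self hθ, hτ⟩, e.symm⟩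
  · rintro _ ⟨⟨θ, τ⟩, hx, rfl⟩
    have hc : ContinuousAt (fun s => S (s, τ)) θ :=
      (hS.comp_continuous (f := fun s => (s, τ)) (by fun_prop)
        fun s => ⟨mem_univ _, hx.2⟩).continuousAt
    refine Metric.mem_closure_iff.2 fun ε hε => ?_
    obtain ⟨δ, hδ, h⟩ := Metric.continuousAt_iff.1 hc ε hε
    obtain ⟨k, n, hk⟩ := hd θ δ hδ
    refine ⟨_, mem_iUnion.2 ⟨k, τ, hx.2, rfl⟩, ?_⟩
    have := h (x := φ k - n * (2 * Real.pi)) (by rw [Real.dist_eq]; convert hk using 2; ring)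
    rw [((per τ hx.2).int_mul n).sub_eq (φ k)] at this
    rw [dist_comm]; exact this

/-- END: half words over a dense rotation give a solution whose shape curve has closure `Img`. -/
theorem att_of_word {ι : Type} [Finite ι] (ha : 0 < a) (hb : 0 < b) (hc : 0 < c)
    {f : ι → ℝ × ℝ → ℂ × ℂ} (hf : ∀ j, ContinuousOn (f j) (univ ×ˢ Icc 0 1))
    (h0 : ∀ j θ, ∀ τ ∈ Icc (0 : ℝ) 1, f j (θ, τ) ≠ 0)
    (hp : ∀ j θ, ∀ τ ∈ Icc (0 : ℝ) 1, ∃ u : ℂ, u ≠ 0 ∧ f j (θ + 2 * Real.pi, τ) = u • f j (θ, τ))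
    {w : ℝ} (hw : ∀ θ0 θ ε : ℝ, 0 < ε →
      ∃ (k : ℕ) (n : ℤ), |θ0 + k * w - θ - n * (2 * Real.pi)| < ε)
    {X Y : ℝ → St} (hX : ∀ θ, Rot (mir (X θ)) (X (-θ))) (hY : ∀ θ, Rot (mir (Y θ)) (Y (-θ)))
    {B : Set ℝ} (hB : B.Countable)
    (h : ∀ θ ∉ B, SegR a b c (X θ) (Y (θ + w / 2))
      (⋃ j, (fun τ => sh ![1, a, b] (f j (θ, τ))) '' Icc 0 1)) :
    Att ![1, a, b] (area (Img ![1, a, b] f)) := by
  have hm := mass_pos ha hb
  obtain ⟨θ0, hθ⟩ : ∃ θ0, ∀ k : ℤ, θ0 + k * w ∉ B ∧ -(θ0 + k * w) - w ∉ B := by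
    have c1 : (⋃ k : ℤ, ((fun θ => θ + k * w) ⁻¹' B ∪
        (fun θ => -(θ + k * w) - w) ⁻¹' B)).Countable := countable_iUnion fun k =>
      (hB.preimage (add_left_injective _)).union
        (hB.preimage fun s t e => by simpa using e)
    obtain ⟨θ0, h1⟩ := (ne_univ_iff_exists_notMem _).1 fun e =>
      Cardinal.not_countable_real (e ▸ c1)
    simp only [mem_iUnion, not_exists, mem_union, not_or] at h1
    exact ⟨θ0, h1⟩
  obtain ⟨q, q1, q2⟩ := glueR ha hb (add_pos hc hc) (x := fun k => X (θ0 + k * w)) fun k =>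
    (h _ (hθ k).1).trans ha hb (((h _ (hθ k).2).mir ha hb).congr ha hb
      (by convert (hY _).symm using 2; ring) (by convert (hX _).symm using 2; push_cast; ring))
  refine ⟨q, q1, congrArg area ?_⟩
  have hS : ∀ j, ContinuousOn (fun x => sh ![1, a, b] (f j x)) (univ ×ˢ Icc 0 1) := fun j =>
    (sh_cont hm).comp (hf j) fun x hx => h0 j x.1 x.2 hx.2
  have hS' : ∀ j, ContinuousOn (fun x => sh ![1, a, b] (cj (f j x))) (univ ×ˢ Icc 0 1) := fun j =>
    (sh_cont hm).comp (cj_diff.continuous.comp_continuousOn (hf j))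
      fun x hx => cj_ne (h0 j x.1 x.2 hx.2)
  have hP : ∀ j θ, ∀ τ ∈ Icc (0 : ℝ) 1,
      sh ![1, a, b] (f j (θ + 2 * Real.pi, τ)) = sh ![1, a, b] (f j (θ, τ)) := fun j θ τ hτ => by
    obtain ⟨u, hu, e⟩ := hp j θ τ hτ
    rw [e, sh_smul hm hu]
  rw [q2, iUnion_union_distrib, closure_union, iUnion_comm, closure_iUnion_of_finite, Img]
  congr 1
  · exact iUnion_congr fun j => closure_arcs (hS j) (hP j) (φ := fun k => θ0 + k * w)
      fun θ ε hε => by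
        obtain ⟨k, n, hk⟩ := hw θ0 θ ε hε
        exact ⟨k, n, by simpa using hk⟩
  · simp only [image_iUnion, image_image, ← sh_cj hm]
    rw [iUnion_comm, closure_iUnion_of_finite]
    exact iUnion_congr fun j => closure_arcs (hS' j)
      (fun θ τ hτ => by simp only [sh_cj hm, hP j θ τ hτ]) (φ := fun k => -(θ0 + k * w) - w)
      fun θ ε hε => by
        obtain ⟨k, n, hk⟩ := hw (θ0 + w) (-θ) ε hε
        refine ⟨k, -n, ?_⟩
        rw [← abs_neg]
        convert hk using 2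
        push_cast
        ring

theorem Img_eq {ι : Type} (m : Fin 3 → ℝ) (f : ι → ℝ × ℝ → ℂ × ℂ) : Img m f =
    ⋃ j : ι ⊕ ι, (fun x => sh m (Sum.elim (fun j => f j x) (fun j => cj (f j x)) j)) '' KK := by
  rw [iUnion_sum]; rfl

/-- AREA: the area of the image is continuous in the parameter. -/
theorem img_cont {P ι : Type} [TopologicalSpace P] [FirstCountableTopology P] [Finite ι]
    {m : Fin 3 → ℝ} (hm : ∀ i, 0 < m i) {f : P → ι → ℝ × ℝ → ℂ × ℂ}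
    (hc : ∀ j, ContinuousOn (fun q : P × ℝ × ℝ => f q.1 j q.2) (univ ×ˢ KK))
    (hd : ∀ p j, DifferentiableOn ℝ (f p j) KK) (h0 : ∀ p j, ∀ x ∈ KK, f p j x ≠ 0) :
    Continuous fun p => area (Img m (f p)) := by
  simp only [Img_eq]
  refine area_cont (S := fun (j : ι ⊕ ι) p x =>
    sh m (Sum.elim (fun j => f p j x) (fun j => cj (f p j x)) j)) KK_compact KK_convex ?_ ?_ ?_
  · rintro (j | j)
    · exact (sh_cont hm).comp (hc j) fun q hq => h0 _ _ _ hq.2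
    · exact (sh_cont hm).comp (cj_diff.continuous.comp_continuousOn (hc j))
        fun q hq => cj_ne (h0 _ _ _ hq.2)
  · rintro (j | j) p x hx
    · exact (sh_diff hm (h0 p j x hx)).comp_differentiableWithinAt x (hd p j x hx)
    · exact DifferentiableAt.comp_differentiableWithinAt (g := sh m) (f := cj ∘ f p j) x
        (sh_diff hm (cj_ne (h0 p j x hx))) ((cj_diff _).comp_differentiableWithinAt x (hd p j x hx))
  · rintro (j | j) p x hx
    · exact norm_sh hm (h0 p j x hx)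
    · exact norm_sh hm (cj_ne (h0 p j x hx))

/-- Arcs that do not depend on the angle have area zero. -/
theorem img_zero {ι : Type} [Finite ι] {m : Fin 3 → ℝ} (hm : ∀ i, 0 < m i)
    {f : ι → ℝ × ℝ → ℂ × ℂ} (hd : ∀ j, DifferentiableOn ℝ (f j) KK)
    (h0 : ∀ j, ∀ x ∈ KK, f j x ≠ 0)
    (h : ∀ j, ∀ x ∈ KK, ∃ u : ℂ, u ≠ 0 ∧ f j x = u • f j (0, x.2)) : area (Img m f) = 0 := by
  rw [Img_eq]
  refine area_zero KK_compact ?_ ?_ 0 ?_
  · rintro (j | j) x hx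
    · exact (sh_diff hm (h0 j x hx)).comp_differentiableWithinAt x (hd j x hx)
    · exact DifferentiableAt.comp_differentiableWithinAt (g := sh m) (f := cj ∘ f j) x
        (sh_diff hm (cj_ne (h0 j x hx))) ((cj_diff _).comp_differentiableWithinAt x (hd j x hx))
  · rintro (j | j) x hx
    · exact norm_sh hm (h0 j x hx)
    · exact norm_sh hm (cj_ne (h0 j x hx))
  · rintro (j | j) x hx <;> obtain ⟨u, hu, e⟩ := h j x hx <;>
      refine ⟨⟨⟨le_rfl, by positivity⟩, hx.2⟩, ?_⟩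
    · simp only [Sum.elim_inl, e, sh_smul hm hu]
    · simp only [Sum.elim_inr, e, sh_cj hm, sh_smul hm hu]

/-- Arcs that meet every complex line up to conjugation have area `π`. -/
theorem img_full {ι : Type} {m : Fin 3 → ℝ} (hm : ∀ i, 0 < m i) {f : ι → ℝ × ℝ → ℂ × ℂ}
    (h0 : ∀ j θ, ∀ τ ∈ Icc (0 : ℝ) 1, f j (θ, τ) ≠ 0)
    (hp : ∀ j θ, ∀ τ ∈ Icc (0 : ℝ) 1, ∃ u : ℂ, u ≠ 0 ∧ f j (θ + 2 * Real.pi, τ) = u • f j (θ, τ))
    (h : ∀ w : ℂ × ℂ, w ≠ 0 → ∃ j θ, ∃ τ ∈ Icc (0 : ℝ) 1,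
      w.2 * (f j (θ, τ)).1 = w.1 * (f j (θ, τ)).2 ∨
      (cj w).2 * (f j (θ, τ)).1 = (cj w).1 * (f j (θ, τ)).2) : area (Img m f) = Real.pi := by
  refine area_full fun v hv => ?_
  obtain ⟨w, hw, rfl⟩ := sh_surj hm hv
  obtain ⟨j, θ, τ, hτ, e⟩ := h w hw
  have per : Function.Periodic (fun θ => sh m (f j (θ, τ))) (2 * Real.pi) := fun θ => by
    obtain ⟨u, hu, e⟩ := hp j θ τ hτ
    simp only [e, sh_smul hm hu]
  obtain ⟨s, hs, e'⟩ := per.exists_mem_Ico₀ (by positivity) θ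
  have hk : (s, τ) ∈ KK := ⟨Ico_subset_Icc_self hs, hτ⟩
  rcases e with e | e
  · exact Or.inl (mem_iUnion.2 ⟨j, _, hk, e'.symm.trans (sh_of_prop hm (h0 j θ τ hτ) hw e)⟩)
  · refine Or.inr (mem_iUnion.2 ⟨j, _, hk, ?_⟩)
    have := e'.symm.trans (sh_of_prop hm (h0 j θ τ hτ) (cj_ne hw) e)
    simp only [sh_cj hm] at this ⊢
    rw [this]
    ext i
    fin_cases i <;> simp [rf]

end Pool.Agent.MP_1ba41f_an.S2
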