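import Mathlib.Analysis.Calculus.Deriv.Basic
import Pool.Agent.MP_1ba41f_an.Shape

/-! Physical states, the Newton field, collision-free segments. -/

set_option autoImplicit false

noncomputable section
open Set

namespace Pool.Agent.MP_1ba41f_an.S2

/-- heliocentric positions `(q₂, q₃)` and barycentric velocities `(v₂, v₃)` -/
abbrev St : Type := (ℂ × ℂ) × (ℂ × ℂ)

/-- the Newton field for the masses `1, μ₂, μ₃` -/
def NF (μ₂ μ₃ : ℝ) (x : St) : St :=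
  ((x.2.1 + (μ₂ * x.2.1 + μ₃ * x.2.2), x.2.2 + (μ₂ * x.2.1 + μ₃ * x.2.2)),
    (-x.1.1 / (‖x.1.1‖ : ℂ) ^ 3 + μ₃ * (x.1.2 - x.1.1) / (‖x.1.2 - x.1.1‖ : ℂ) ^ 3,
      -x.1.2 / (‖x.1.2‖ : ℂ) ^ 3 - μ₂ * (x.1.2 - x.1.1) / (‖x.1.2 - x.1.1‖ : ℂ) ^ 3))

/-- no collision -/
def Free (q : ℂ × ℂ) : Prop := q.1 ≠ 0 ∧ q.2 ≠ 0 ∧ q.2 ≠ q.1

/-- a collision-free solution from `x` to `x'` in time `T`, with set of positions `Z` -/
def Seg (μ₂ μ₃ : ℝ) (x x' : St) (T : ℝ) (Z : Set (ℂ × ℂ)) : Prop :=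
  0 ≤ T ∧ ∃ γ : ℝ → St, γ 0 = x ∧ γ T = x' ∧
    (∀ t ∈ Icc 0 T, Free (γ t).1 ∧ HasDerivWithinAt γ (NF μ₂ μ₃ (γ t)) (Icc 0 T) t) ∧
    Z = (fun t => (γ t).1) '' Icc 0 T

/-- complex conjugation of positions -/
def cj (q : ℂ × ℂ) : ℂ × ℂ := (starRingEnd ℂ q.1, starRingEnd ℂ q.2)

/-- the reversor `(q, v) ↦ (conj q, - conj v)` -/
def mir (x : St) : St := (cj x.1, -cj x.2)

/-- the area `A` is attained -/
def Att (m : Fin 3 → ℝ) (A : ℝ) : Prop :=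
  ∃ q : ℝ → Fin 3 → ℂ, IsSol m q ∧ area (closure (range fun t => shape m (q t))) = A

end Pool.Agent.MP_1ba41f_an.S2
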