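import Pool.Agent.MP_1ba41f_an.S2.CV.CSpec
import Pool.Agent.MP_1ba41f_an.S2.AlgA

/-! The directions at the encounters. -/

set_option autoImplicit false

noncomputable section
open Set Complex
open scoped ComplexConjugate

namespace Pool.Agent.MP_1ba41f_an.S2.CV

namespace Dir

open AlgA

/-- a unit vector -/
def un (x y : ℝ) : ℂ := ((x : ℂ) - I * y) / ((√(x ^ 2 + y ^ 2) : ℝ) : ℂ)

lemma un_re (x y : ℝ) : (un x y).re = x / √(x ^ 2 + y ^ 2) := by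
  rw [un, div_ofReal_re]; simp

lemma un_im (x y : ℝ) : (un x y).im = -y / √(x ^ 2 + y ^ 2) := by
  rw [un, div_ofReal_im]; simp

lemma rt_pos {x : ℝ} (h : 0 < x) (y : ℝ) : 0 < √(x ^ 2 + y ^ 2) := Real.sqrt_pos.2 (by positivity)

lemma un_pos {x : ℝ} (h : 0 < x) (y : ℝ) : 0 < (un x y).re := by
  rw [un_re]; exact div_pos h (rt_pos h y)

lemma un_conj (x y : ℝ) : conj (un x y) = un x (-y) := by
  apply Complex.ext
  · rw [conj_re, un_re, un_re, neg_sq]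
  · rw [conj_im, un_im, un_im, neg_sq, neg_div, neg_div, neg_div]

lemma un_norm {x : ℝ} (h : 0 < x) (y : ℝ) : ‖un x y‖ = 1 := by
  have h1 := rt_pos h y
  have h2 : √(x ^ 2 + y ^ 2) ^ 2 = x ^ 2 + y ^ 2 := Real.sq_sqrt (by positivity)
  have h3 : ‖un x y‖ ^ 2 = 1 := by
    rw [Complex.sq_norm, normSq_apply, un_re, un_im]
    field_simp
    linarith
  nlinarith [norm_nonneg (un x y)]

lemma sq_re (z : ℂ) : 0 ≤ (sq z).re := by
  rw [sq, one_div, cpow_inv_two_re]; exact Real.sqrt_nonneg _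

lemma sq_ofReal {x : ℝ} (hx : 0 ≤ x) : sq (x : ℂ) = (√x : ℝ) := by
  rw [Real.sqrt_eq_rpow, ofReal_cpow hx]
  unfold sq
  norm_num

/-- the real value of `bK` -/
def Kr (M φ : ℝ) : ℝ := (5 * (fx M He φ).1 - 4 + 2 * (M - 3 / 5 + He * Real.cos φ)) / 8

lemma eb_eq (h0 : Fam0Stmt) {M : ℝ} (hM : M ∈ Icc (9 / 10 : ℝ) 1) (σ τ φ : ℝ) (hτ : τ ^ 2 = 1) :
    eb σ τ (fK M He) (r2c (fx M He φ)) =
      io σ * sq (un (fK M He) (fx M He φ).2) * sq (un (√(fD M He)) (τ * Kr M φ)) := by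
  obtain ⟨-, hHe, -, h1⟩ := h0
  obtain ⟨-, -, d0, -, h2⟩ := h1 M hM He ⟨hHe.le, le_rfl⟩
  obtain ⟨-, e1, e2, -⟩ := h2 φ
  have hD : 0 ≤ fD M He := by linarith
  have e4 : bK (fK M He) (r2c (fx M He φ)) = Kr M φ := by
    rw [bK, e1, Kr]
    simp only [r2c]
    push_cast
    ring
  have e5 : bs (fK M He) (r2c (fx M He φ)) = (√(fD M He) : ℝ) := by rw [bs, e2, sq_ofReal hD]
  have e6 : sq ((fD M He : ℂ) + (Kr M φ : ℂ) ^ 2) =
      (√(√(fD M He) ^ 2 + (τ * Kr M φ) ^ 2) : ℝ) := by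
    rw [← sq_ofReal (by positivity), Real.sq_sqrt hD, mul_pow, hτ, one_mul]
    push_cast
    rfl
  have e7 : sq ((fK M He : ℂ) ^ 2 + (r2c (fx M He φ)).2 ^ 2) =
      (√(fK M He ^ 2 + (fx M He φ).2 ^ 2) : ℝ) := by
    rw [← sq_ofReal (by positivity)]
    push_cast
    rfl
  unfold eb un
  rw [e4, e5, e2, e6, e7, ofReal_mul, mul_assoc I]
  rfl

lemma c_sq (k P : ℝ) : (I * sq (un k P)) ^ 2 = -un k P := by
  rw [mul_pow, sq_sq, I_sq, neg_one_mul]

lemma cp_re (k P s K : ℝ) : ((I * sq (un k P)) ^ 2 * sq (un s K) ^ 2).re =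
    (P * K - k * s) / (√(k ^ 2 + P ^ 2) * √(s ^ 2 + K ^ 2)) := by
  rw [c_sq, sq_sq, mul_re, neg_re, neg_im, un_re, un_re, un_im, un_im]
  ring

lemma cp_im (k P s K : ℝ) : ((I * sq (un k P)) ^ 2 * sq (un s K) ^ 2).im =
    (P * s + k * K) / (√(k ^ 2 + P ^ 2) * √(s ^ 2 + K ^ 2)) := by
  rw [c_sq, sq_sq, mul_im, neg_re, neg_im, un_re, un_re, un_im, un_im]
  ring

lemma lo {X n g : ℝ} (h0 : 0 < n) (h3 : n ≤ 3) (hg : 0 ≤ g) (h : 3 * g ≤ X) : g ≤ X / n := by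
  rw [le_div_iff₀ h0]; nlinarith

lemma hi {X n g : ℝ} (h0 : 0 < n) (h3 : n ≤ 3) (hg : 0 ≤ g) (h : X ≤ -(3 * g)) : X / n ≤ -g := by
  rw [div_le_iff₀ h0]; nlinarith

lemma p_eqs {s : ℝ} (hs : 0 < s) (K : ℝ) :
    (sq (un s K)).re ^ 2 + (sq (un s K)).im ^ 2 = 1 ∧
    (sq (un s K)).re ^ 2 - (sq (un s K)).im ^ 2 = s / √(s ^ 2 + K ^ 2) ∧
    2 * (sq (un s K)).re * (sq (un s K)).im = -K / √(s ^ 2 + K ^ 2) := by
  have h1 := norm_sq_one (un_norm hs K)
  have h2 := sq_sq (un s K)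
  rw [← un_re, ← un_im]
  generalize sq (un s K) = p at h1 h2
  have h3 : ‖p‖ ^ 2 = 1 := by rw [h1]; norm_num
  rw [Complex.sq_norm, normSq_apply] at h3
  rw [← h2, pow_two p, mul_re, mul_im]
  exact ⟨by linarith, by ring, by ring⟩

lemma sH {k P s K t : ℝ} (k0 : 57 / 100 ≤ k) (k1 : k ≤ 58 / 100) (s0 : 72 / 100 ≤ s)
    (s1 : s ≤ 73 / 100) (P0 : 17 / 10 ≤ P) (K0 : 53 / 100 ≤ K) (n3 : √(k ^ 2 + P ^ 2) ≤ 3)
    (N1 : √(s ^ 2 + K ^ 2) ≤ 1) (t0 : 0 ≤ t) (t1 : t ≤ 1) :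
    1 / 1000 ≤ ((I * sq (un k P)) ^ 2 *
      (t * (sq (un s K)).re + I * (sq (un s K)).im) ^ 2).re := by
  have hs : 0 < s := by linarith
  obtain ⟨a1, a2, a3⟩ := p_eqs hs K
  have N0 := rt_pos hs K
  have b1 : s / √(s ^ 2 + K ^ 2) ≤ 9 / 10 := by
    rw [div_le_iff₀ N0, ← div_le_iff₀' (by norm_num)]
    exact Real.le_sqrt_of_sq_le (by nlinarith)
  have b2 : K ≤ K / √(s ^ 2 + K ^ 2) := by
    rw [le_div_iff₀ N0]; nlinarith
  rw [neg_div] at a3
  generalize (sq (un s K)).re = p1 at *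
  generalize (sq (un s K)).im = p2 at *
  have e : ((I * sq (un k P)) ^ 2 * ((t : ℂ) * p1 + I * p2) ^ 2).re =
      (k * (p2 ^ 2 - t ^ 2 * p1 ^ 2) - t * P * (2 * p1 * p2)) / √(k ^ 2 + P ^ 2) := by
    rw [c_sq, mul_re, neg_re, neg_im, un_re, un_im, pow_two ((t : ℂ) * p1 + I * p2), mul_re, mul_im]
    simp only [add_re, add_im, mul_re, mul_im, ofReal_re, ofReal_im, I_re, I_im]
    ring
  rw [e, a3]
  refine lo (rt_pos (by linarith) P) n3 (by norm_num) ?_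
  have c1 : 1 / 20 ≤ p2 ^ 2 := by linarith
  have c2 : t ^ 2 * p1 ^ 2 ≤ t := by nlinarith [mul_nonneg t0 (sub_nonneg.2 t1), sq_nonneg p1]
  have c3 : 9 / 10 ≤ P * (K / √(s ^ 2 + K ^ 2)) := by nlinarith
  have c4 := mul_le_mul_of_nonneg_left c3 t0
  nlinarith

/-- the numerical bounds along the circle -/
lemma bnd (h0 : Fam0Stmt) {M : ℝ} (M0 : 1 - 1 / 1000 ≤ M) (M1 : M ≤ 1) :
    (57 / 100 ≤ fK M He ∧ fK M He ≤ 58 / 100) ∧ (72 / 100 ≤ √(fD M He) ∧ √(fD M He) ≤ 73 / 100) ∧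
    ∃ e : ℝ, 1 - M ≤ e ∧ e ≤ 1 / 200 ∧ fD M He = 324 / 625 + e ∧ ∀ φ,
      Kr M φ = 5 / 16 * (He ^ 2 - (He * Real.cos φ - (1 - M)) ^ 2 - e) ∧
      (2 * M + He * Real.cos φ) ^ 2 + 35 / 100 ≤ fq M He (Real.cos φ) ∧
      fq M He (Real.cos φ) ≤ (2 * M + He * Real.cos φ) ^ 2 + 37 / 100 := by
  obtain ⟨-, hHe, h2, h1⟩ := h0
  obtain ⟨k0, k2, -⟩ := h1 M ⟨by linarith, M1⟩ He ⟨hHe.le, le_rfl⟩
  have hM : 0 < M := by linarith
  have m0 : 1 ≤ 1 / M := by rw [le_div_iff₀ hM]; linarith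
  have m1 : 1 / M ≤ 1002 / 1000 := by rw [div_le_iff₀ hM]; linarith
  have eD : fD M He = 324 / 625 + (1 - M ^ 2 + 6 / 5 * (1 / M - 1)) := by
    rw [fD, h2]; field_simp; ring
  have eN : fN M He = 12 / 5 * (1 / M) + M ^ 2 - 1276 / 625 := by
    rw [fN, h2]; field_simp
  have q0 : 998 / 1000 ≤ M ^ 2 := by nlinarith
  have q1 : M ^ 2 ≤ M := by nlinarith
  have D0 : 324 / 625 ≤ fD M He := by linarith
  have D1 : fD M He ≤ 324 / 625 + 1 / 200 := by linarith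
  have N0 : 1356 / 1000 ≤ fN M He := by linarith
  have N1 : fN M He ≤ 1364 / 1000 := by linarith
  rw [h2] at k2
  refine ⟨⟨?_, ?_⟩, ⟨Real.le_sqrt_of_sq_le (by linarith), Real.sqrt_le_iff.2 ⟨by norm_num,
    by linarith⟩⟩, _, by linarith, by linarith, eD, fun φ => ⟨?_, ?_, ?_⟩⟩
  · refine abs_le_of_sq_le_sq' (a := 57 / 100) ?_ k0.le |>.2
    nlinarith
  · refine abs_le_of_sq_le_sq' (b := 58 / 100) ?_ (by norm_num) |>.2
    nlinarith
  · simp only [Kr, fx]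
    rw [eD, h2]; ring
  · rw [fq, eN]; nlinarith
  · rw [fq, eN]; nlinarith

lemma cos_jun {φ : ℝ} (hHe : 0 < He) (h1 : 14 / 10 ≤ He) (hφ : φ ∈ Icc Real.pi pB) :
    He * Real.cos φ ≤ -(13 / 10) ∧ Real.sin φ ≤ 0 := by
  have a0 : -1 ≤ -(13 / 10) / He := by rw [le_div_iff₀ hHe]; linarith
  have a1 : -(13 / 10) / He ≤ 1 := by rw [div_le_iff₀ hHe]; linarith
  have b0 := Real.arccos_nonneg (-(13 / 10) / He)
  have b1 : Real.arccos (-(13 / 10) / He) ≤ 2 * Real.pi - φ := by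
    have := hφ.2; unfold pB at this; linarith
  have b2 : 2 * Real.pi - φ ≤ Real.pi := by linarith [hφ.1]
  have c1 := Real.cos_le_cos_of_nonneg_of_le_pi b0 b2 b1
  have c2 := Real.sin_nonneg_of_nonneg_of_le_pi (b0.trans b1) b2
  rw [Real.cos_arccos a0 a1, Real.cos_two_pi_sub, le_div_iff₀ hHe] at c1
  rw [Real.sin_two_pi_sub] at c2
  exact ⟨by linarith, by linarith⟩

end Dir

open Dir AlgA in
theorem dirS (h0 : Fam0Stmt) : DirStmt := by
  refine ⟨1 / 1000, 1 / 1000, by norm_num, by norm_num, fun Mb hMb =>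
    ⟨(1 - Mb) / 100, by linarith, fun M hM => ?_⟩⟩
  have M0 := hM.1
  have M1 : M ≤ 1 := hM.2.trans hMb.le
  have Mb1 := hM.2
  obtain ⟨⟨k0, k1⟩, ⟨s0, s1⟩, e, e0, e1, eD, hφ⟩ := bnd h0 M0 M1
  have hE := eb_eq h0 (M := M) ⟨by linarith, M1⟩
  obtain ⟨-, hHe, h2, -⟩ := h0
  have H0 : 142 / 100 ≤ He := by nlinarith only [hHe, h2]
  have H1 : He ≤ 143 / 100 := by nlinarith only [hHe, h2]
  have hk : 0 < fK M He := by linarith
  have hs : 0 < √(fD M He) := by linarith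
  have u0 : ∀ φ, -He ≤ He * Real.cos φ := fun φ => by nlinarith only [hHe, Real.neg_one_le_cos φ]
  have u1 : ∀ φ, He * Real.cos φ ≤ He := fun φ => by nlinarith only [hHe, Real.cos_le_one φ]
  have w2 : ∀ φ, (He * Real.sin φ) ^ 2 = He ^ 2 - (He * Real.cos φ) ^ 2 := fun φ => by
    rw [mul_pow, Real.sin_sq]; ring
  have eP : ∀ φ, (fx M He φ).2 = He * Real.sin φ * √(fq M He (Real.cos φ)) / 2 := fun φ => rfl
  have q0 : ∀ φ, 64 / 100 ≤ fq M He (Real.cos φ) := fun φ => by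
    nlinarith only [(hφ φ).2.1, u0 φ, H1, M0]
  have P2 : ∀ φ, (fx M He φ).2 ^ 2 =
      (He ^ 2 - (He * Real.cos φ) ^ 2) * fq M He (Real.cos φ) / 4 := fun φ => by
    rw [eP, div_pow, mul_pow, w2, Real.sq_sqrt (by linarith [q0 φ])]; ring
  have P3 : ∀ φ, (fx M He φ).2 ^ 2 ≤ 25 / 4 := fun φ => by
    have a1 : fq M He (Real.cos φ) ≤ 122 / 10 := by
      nlinarith only [(hφ φ).2.2, u0 φ, u1 φ, H1, M0, M1]
    rw [P2, h2]
    nlinarith only [a1, q0 φ, sq_nonneg (He * Real.cos φ)]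
  have K0 : ∀ φ, -(1 / 100) ≤ Kr M φ := fun φ => by
    rw [(hφ φ).1]; nlinarith only [u0 φ, u1 φ, H1, M0, M1, e1, hHe]
  have K1 : ∀ φ, Kr M φ ≤ 64 / 100 := fun φ => by
    rw [(hφ φ).1]; linarith only [sq_nonneg (He * Real.cos φ - (1 - M)), h2, e0, M1]
  have n3 : ∀ φ, √(fK M He ^ 2 + (fx M He φ).2 ^ 2) ≤ 3 := fun φ =>
    Real.sqrt_le_iff.2 ⟨by norm_num, by nlinarith only [P3 φ, k0, k1]⟩
  have N1 : ∀ φ, √(√(fD M He) ^ 2 + Kr M φ ^ 2) ≤ 1 := fun φ =>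
    Real.sqrt_le_one.2 (by nlinarith only [K0 φ, K1 φ, s0, s1])
  have d0 : ∀ φ, 0 < √(fK M He ^ 2 + (fx M He φ).2 ^ 2) * √(√(fD M He) ^ 2 + Kr M φ ^ 2) :=
    fun φ => mul_pos (rt_pos hk _) (rt_pos hs _)
  have d3 : ∀ φ, √(fK M He ^ 2 + (fx M He φ).2 ^ 2) * √(√(fD M He) ^ 2 + Kr M φ ^ 2) ≤ 3 :=
    fun φ => (mul_le_of_le_one_right (Real.sqrt_nonneg _) (N1 φ)).trans (n3 φ)
  have cH : He * Real.cos pH = 14 / 25 := by
    rw [pH, Real.cos_arccos (by rw [le_div_iff₀ hHe]; linarith)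
      (by rw [div_le_iff₀ hHe]; linarith)]
    field_simp
  have jun : ∀ φ ∈ Icc Real.pi pB, (fx M He φ).2 ≤ 0 ∧
      (fx M He φ).2 * √(fD M He) + fK M He * Kr M φ ≤ He * Real.sin φ / 10 - (1 - M) / 10 := by
    intro φ h
    obtain ⟨a1, a2⟩ := cos_jun hHe (by linarith) h
    have a3 : He * Real.sin φ ≤ 0 := mul_nonpos_of_nonneg_of_nonpos hHe.le a2
    have a4 : 8 / 10 ≤ √(fq M He (Real.cos φ)) := Real.le_sqrt_of_sq_le (by linarith [q0 φ])
    have a5 : (fx M He φ).2 ≤ 4 / 10 * (He * Real.sin φ) := by rw [eP]; nlinarith only [a3, a4]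
    have a6 : -(6 / 10) ≤ He * Real.sin φ := by nlinarith only [w2 φ, a1, a3, h2]
    have a7 : Kr M φ ≤ 5 / 16 * ((He * Real.sin φ) ^ 2 - (1 - M)) := by
      rw [(hφ φ).1, w2]; nlinarith only [a1, M1, e0]
    have a8 : (He * Real.sin φ) ^ 2 ≤ -(6 / 10) * (He * Real.sin φ) := by nlinarith only [a3, a6]
    have a9 := mul_le_mul_of_nonneg_left a7 hk.le
    refine ⟨by linarith, ?_⟩
    generalize He * Real.sin φ = w at *
    nlinarith only [sq_nonneg w, a3, a5, a8, a9, k0, k1, s0, M1]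
  have hB : pB ∈ Icc Real.pi pB := by
    refine ⟨?_, le_rfl⟩
    unfold pB; linarith [Real.arccos_le_pi (-(13 / 10) / He)]
  have cB : He * Real.cos pB = -(13 / 10) := by
    rw [pB, Real.cos_two_pi_sub, Real.cos_arccos (by rw [le_div_iff₀ hHe]; linarith)
      (by rw [div_le_iff₀ hHe]; linarith)]
    field_simp
  refine ⟨fun φ => I * sq (un (fK M He) (fx M He φ).2), fun φ => sq (un (√(fD M He)) (Kr M φ)),
    ⟨fun φ => ⟨?_, norm_sq_one (un_norm hs _), sq_re _⟩, fun φ => ?_, ?_, ?_, fun φ h => ?_, ?_,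
      fun φ => ?_⟩, fun φ => ?_⟩
  · rw [norm_mul, norm_I, one_mul, norm_sq_one (un_norm hk _)]
  · rw [c_sq, neg_re, un_re, neg_le_neg_iff]
    exact lo (rt_pos hk _) (n3 φ) (by norm_num) (by linarith)
  · have a1 : 0 ≤ (fx M He pH).2 := by
      have := Real.sin_nonneg_of_nonneg_of_le_pi (Real.arccos_nonneg (14 / 25 / He))
        (Real.arccos_le_pi _)
      rw [eP]
      change 0 ≤ Real.sin pH at this
      positivity
    have a2 : 17 / 10 ≤ (fx M He pH).2 := by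
      refine abs_le_of_sq_le_sq' (a := 17 / 10) ?_ a1 |>.2
      have := (hφ pH).2.1
      rw [P2, h2]
      rw [cH] at this ⊢
      nlinarith only [this, M0]
    have a3 : 53 / 100 ≤ Kr M pH := by rw [(hφ pH).1, cH, h2]; nlinarith only [M0, M1, e1]
    refine ⟨fun t ht => sH k0 k1 s0 s1 a2 a3 (n3 _) (N1 _) ht.1 ht.2, ?_⟩
    rw [cp_im]
    exact lo (d0 _) (d3 _) (by norm_num) (by nlinarith only [a2, a3, k0, s0])
  · have a1 : (fx M He Real.pi).2 = 0 := by rw [eP, Real.sin_pi]; ring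
    constructor
    · rw [c_sq, a1]
      apply Complex.ext
      · rw [neg_re, un_re, zero_pow two_ne_zero, add_zero, Real.sqrt_sq hk.le, div_self hk.ne']
        simp
      · rw [neg_im, un_im]; simp
    · obtain ⟨b1, -, b3⟩ := p_eqs hs (Kr M Real.pi)
      have b4 := sq_re (un (√(fD M He)) (Kr M Real.pi))
      have b5 : 5 / 16 * (1 - M) ≤ -Kr M Real.pi := by
        rw [(hφ Real.pi).1, Real.cos_pi]; nlinarith only [hHe, M1, e0]
      have b6 : -Kr M Real.pi ≤ -Kr M Real.pi / √(√(fD M He) ^ 2 + Kr M Real.pi ^ 2) := by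
        rw [le_div_iff₀ (rt_pos hs _)]
        exact mul_le_of_le_one_right (by linarith) (N1 _)
      rw [← b3] at b6
      generalize (sq (un (√(fD M He)) (Kr M Real.pi))).re = p1 at *
      generalize (sq (un (√(fD M He)) (Kr M Real.pi))).im = p2 at *
      have b7 : p1 ≤ 1 := by nlinarith only [sq_nonneg p2, b1, b4]
      have b8 : 0 ≤ p2 := by
        by_contra hn
        nlinarith only [mul_nonneg b4 (neg_nonneg.2 (not_le.1 hn).le), b5, b6, Mb1, hMb]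
      linarith only [mul_le_of_le_one_left b8 b7, b5, b6, Mb1, hMb]
  · rw [cp_im]
    have a3 : He * Real.sin φ ≤ 0 :=
      mul_nonpos_of_nonneg_of_nonpos hHe.le (cos_jun hHe (by linarith) h).2
    exact hi (d0 _) (d3 _) (by linarith) (by linarith [(jun φ h).2])
  · obtain ⟨a1, a2⟩ := jun pB hB
    have a3 : He * Real.sin pB ≤ 0 :=
      mul_nonpos_of_nonneg_of_nonpos hHe.le (cos_jun hHe (by linarith) hB).2
    have a4 : He * Real.sin pB ≤ -(1 / 2) := by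
      have := w2 pB
      rw [cB, h2] at this
      nlinarith only [this, a3]
    have a5 : 0 ≤ Kr M pB := by rw [(hφ pB).1, cB, h2]; nlinarith only [M0, M1, e1]
    rw [cp_re, cp_im]
    exact ⟨hi (d0 _) (d3 _) (by norm_num)
        (by nlinarith only [mul_nonneg (neg_nonneg.2 a1) a5, k0, s0]),
      hi (d0 _) (d3 _) (by norm_num) (by linarith)⟩
  · rw [cp_re, cp_im]
    have a1 : -(5 / 2) ≤ (fx M He φ).2 := by nlinarith only [P3 φ]
    have a2 := K0 φ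
    have a3 := K1 φ
    rcases le_total (fx M He φ).2 (3 / 10) with h | h
    · refine Or.inl (hi (d0 _) (d3 _) (by norm_num) ?_)
      have : (fx M He φ).2 * Kr M φ ≤ 1 / 4 := by
        rcases le_total 0 (Kr M φ) with h' | h' <;> nlinarith only [h', h, a1, a2, a3]
      nlinarith only [this, k0, s0]
    · exact Or.inr (lo (d0 _) (d3 _) (by norm_num) (by nlinarith only [h, s0, a2, k0, k1]))
  · have m1 : (fx M He (-φ)).2 = -(fx M He φ).2 := by
      rw [eP, eP, Real.sin_neg, Real.cos_neg]; ring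
    have m2 : Kr M (-φ) = Kr M φ := by rw [(hφ _).1, (hφ _).1, Real.cos_neg]
    have i1 : io 1 = I := if_pos rfl
    have i2 : io (-1) = 1 := if_neg (by norm_num)
    have c1 : ∀ y, sq (un (fK M He) (-y)) = conj (sq (un (fK M He) y)) := fun y => by
      rw [sq_conj (un_pos hk y), un_conj]
    have c2 : ∀ y, sq (un (√(fD M He)) (-y)) = conj (sq (un (√(fD M He)) y)) := fun y => by
      rw [sq_conj (un_pos hs y), un_conj]
    refine ⟨?_, ?_, ?_, ?_, fun h => ?_⟩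
    · rw [hE 1 1 φ (by norm_num), i1, one_mul]
    · rw [hE 1 (-1) φ (by norm_num), i1, neg_one_mul, c2]
    · rw [hE (-1) (-1) (-φ) (by norm_num), i2, neg_one_mul, m1, m2, c1, c2, map_mul, map_mul,
        conj_I]
      linear_combination (conj (sq (un (fK M He) (fx M He φ).2)) *
        conj (sq (un (√(fD M He)) (Kr M φ)))) * I_mul_I
    · rw [hE (-1) 1 (-φ) (by norm_num), i2, one_mul (Kr M _), m1, m2, c1, map_mul, map_mul,
        conj_I, conj_conj]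
      linear_combination (conj (sq (un (fK M He) (fx M He φ).2)) *
        sq (un (√(fD M He)) (Kr M φ))) * I_mul_I
    · have a1 : He * Real.cos φ ≤ 14 / 25 := by
        rcases le_total φ Real.pi with h' | h'
        · rw [← cH]
          exact mul_le_mul_of_nonneg_left (Real.cos_le_cos_of_nonneg_of_le_pi
            (Real.arccos_nonneg _) h' h.1) hHe.le
        · linarith [(cos_jun hHe (by linarith) ⟨h', h.2⟩).1]
      have a2 := u0 φ
      have a3 : (fx M He φ).1 = (4 - fD M He - (M - 3 / 5 + He * Real.cos φ) ^ 2) / 2 := rfl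
      rw [a3, eD]
      constructor <;>
        nlinarith only [sq_nonneg (M - 3 / 5 + He * Real.cos φ), a1, a2, H1, M0, M1, e0, e1]

end Pool.Agent.MP_1ba41f_an.S2.CV
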