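import Pool.Agent.MP_1ba41f_an.S2.CV.CSpec

/-! Special points of the largest circle and the two chains. -/

set_option autoImplicit false

noncomputable section
open Set Real

namespace Pool.Agent.MP_1ba41f_an.S2.CV

namespace G3

theorem He_sq : He ^ 2 = 1276 / 625 := Real.sq_sqrt (by norm_num)

theorem He_pos : 0 < He := Real.sqrt_pos.2 (by norm_num)

theorem He_lo : 71 / 50 < He := by nlinarith [He_sq, He_pos]

theorem He_hi : He < 143 / 100 := by nlinarith [He_sq, He_pos]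

theorem hR (φ : ℝ) : gR φ = (4 - 324 / 625 - gE φ ^ 2) / 2 := by
  simp only [gR, fx, fD, gE, He_sq]; ring

theorem hq (φ : ℝ) : fq 1 He (cos φ) = (He * cos φ + 2) ^ 2 + 224 / 625 := by
  simp only [fq, fN, He_sq]; ring

theorem hP (φ : ℝ) : gP φ ^ 2 = (gE φ + 6 / 5) ^ 2 -
    (((gE φ + 6 / 5) ^ 2 + (18 / 25) ^ 2) / 2 - 3 / 5 * (gE φ + 6 / 5)) ^ 2 := by
  have h1 : √(fq 1 He (cos φ)) ^ 2 = (He * cos φ + 2) ^ 2 + 224 / 625 := by
    rw [Real.sq_sqrt (by rw [hq]; positivity), hq]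
  have h2 : (He * sin φ) ^ 2 = 1276 / 625 - (He * cos φ) ^ 2 := by
    rw [mul_pow, mul_pow, sin_sq, He_sq]; ring
  simp only [gP, fx, gE]
  rw [div_pow, mul_pow, h1, h2]
  ring

theorem P_nonneg {φ : ℝ} (h : 0 ≤ sin φ) : 0 ≤ gP φ := by
  have := He_pos
  simp only [gP, fx]; positivity

theorem P_nonpos {φ : ℝ} (h : sin φ ≤ 0) : gP φ ≤ 0 :=
  div_nonpos_of_nonpos_of_nonneg (mul_nonpos_of_nonpos_of_nonneg
    (mul_nonpos_of_nonneg_of_nonpos He_pos.le h) (Real.sqrt_nonneg _)) (by norm_num)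

theorem hL (φ : ℝ) : 0 < (gE φ + 6 / 5) ^ 2 + (18 / 25) ^ 2 := by positivity

theorem hG (φ : ℝ) : gG 1 φ = 2 * (72 / 125 * (gE φ + 6 / 5) + 18 / 25 * gP φ) /
    ((gE φ + 6 / 5) ^ 2 + (18 / 25) ^ 2) := by rw [gG, one_mul]

theorem hS (φ : ℝ) : gS 1 φ = 25 / 18 * ((gE φ + 6 / 5) * gG 1 φ) - 8 / 5 := by
  simp only [gS, gG2]; ring

theorem hS2 (φ : ℝ) : gS2 1 φ = (gE φ * gS 1 φ + 18 / 25 * gG 1 φ) / 2 := by rw [gS2, one_mul]

theorem E_arccos {c : ℝ} (h1 : -(71 / 50) ≤ c) (h2 : c ≤ 71 / 50) :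
    He * cos (arccos (c / He)) = c := by
  have := He_lo
  have := He_pos
  rw [cos_arccos (by rw [le_div_iff₀ He_pos]; linarith) (by rw [div_le_one He_pos]; linarith)]
  field_simp

theorem E_pH : gE pH = 24 / 25 := by
  rw [gE, pH, E_arccos (by norm_num) (by norm_num)]; norm_num

theorem E_pK : gE pK = -(24 / 25) := by
  rw [gE, pK, E_arccos (by norm_num) (by norm_num)]; norm_num

theorem E_pB : gE pB = -(9 / 10) := by
  rw [gE, pB, cos_two_pi_sub, E_arccos (by norm_num) (by norm_num)]; norm_num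

theorem E_anti {a b : ℝ} (ha : 0 ≤ a) (hb : b ≤ π) (h : a ≤ b) : gE b ≤ gE a := by
  have := mul_le_mul_of_nonneg_left (cos_le_cos_of_nonneg_of_le_pi ha hb h) He_pos.le
  simp only [gE]; linarith

theorem E_lo (φ : ℝ) : -(103 / 100) ≤ gE φ := by
  have := mul_le_mul_of_nonneg_left (neg_one_le_cos φ) He_pos.le
  have := He_hi
  simp only [gE]; linarith

theorem lt_pi {c : ℝ} (h : -(71 / 50) ≤ c) : arccos (c / He) < π := by
  have := He_lo
  refine lt_of_le_of_ne (arccos_le_pi _) fun e => ?_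
  have h1 := arccos_eq_pi.1 e
  rw [div_le_iff₀ He_pos] at h1
  linarith

theorem eq_of_sq {P c : ℝ} (h0 : 0 ≤ P) (hc : 0 ≤ c) (h : P ^ 2 = c ^ 2) : P = c :=
  (pow_left_inj₀ h0 hc two_ne_zero).1 h

end G3

open G3 in
theorem g3S (_h0 : Fam0Stmt) (h2 : G2Stmt) : G3Stmt := by
  have hK : pK < π := lt_pi (by norm_num)
  have hB : arccos (-(13 / 10) / He) < π := lt_pi (by norm_num)
  have hPS : ∀ φ, gP φ = gS2 1 φ + 3 / 5 * gS 1 φ := fun φ => (h2.2.2 φ).1
  refine ⟨⟨arccos_lt_pi_div_two.2 (div_pos (by norm_num) He_pos), ?_, hK, by rw [pB]; linarith⟩,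
    ?_, ?_, ?_, ?_, fun φ hφ => ?_, fun φ hφ => ?_⟩
  · exact lt_of_not_ge fun h => absurd (arccos_le_pi_div_two.1 h)
      (not_le.2 (div_neg_of_neg_of_pos (by norm_num) He_pos))
  · have h1 : gP pH = 216 / 125 :=
      eq_of_sq (P_nonneg (sin_nonneg_of_nonneg_of_le_pi (arccos_nonneg _) (arccos_le_pi _)))
        (by norm_num) (by rw [hP, E_pH]; norm_num)
    have h3 : gG 1 pH = 24 / 25 := by rw [hG, h1, E_pH]; norm_num
    have h4 : gS 1 pH = 32 / 25 := by rw [hS, h3, E_pH]; norm_num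
    exact ⟨by rw [hR, E_pH]; norm_num, h4, h3, by rw [hS2, h3, h4, E_pH]; norm_num,
      by rw [gG2, h3]; norm_num⟩
  · have h1 : gP pK = 24 / 125 :=
      eq_of_sq (P_nonneg (sin_nonneg_of_nonneg_of_le_pi (arccos_nonneg _) (arccos_le_pi _)))
        (by norm_num) (by rw [hP, E_pK]; norm_num)
    have h3 : gG 1 pK = 24 / 25 := by rw [hG, h1, E_pK]; norm_num
    have h4 : gS 1 pK = -(32 / 25) := by rw [hS, h3, E_pK]; norm_num
    exact ⟨by rw [hR, E_pK]; norm_num, h4, h3, by rw [hS2, h3, h4, E_pK]; norm_num,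
      by rw [gG2, h3]; norm_num⟩
  · have hE : gE (π / 2) = 2 / 5 := by simp [gE]
    have h0 : 0 ≤ gP (π / 2) := P_nonneg (by simp)
    have h1 := hP (π / 2)
    have h3 := hG (π / 2)
    have h4 := hS (π / 2)
    have h5 := hPS (π / 2)
    rw [hE] at h1 h3 h4
    rw [eq_div_iff (by norm_num)] at h3
    have h6 : 14914 / 10000 ≤ gP (π / 2) := by nlinarith
    have h7 : gP (π / 2) ≤ 14915 / 10000 := by nlinarith
    refine ⟨by rw [hR, hE]; norm_num, ?_, ?_, ?_, ?_, ?_, ?_⟩ <;> try rw [gG2]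
    all_goals linarith
  · have h0 : gP pB ≤ 0 := P_nonpos (by
      rw [pB, sin_two_pi_sub]
      exact neg_nonpos.2 (sin_nonneg_of_nonneg_of_le_pi (arccos_nonneg _) (arccos_le_pi _)))
    have h1 := hP pB
    rw [E_pB] at h1
    have h3 : gP pB < -(6 / 25) := by nlinarith
    rw [hG, E_pB]
    exact div_neg_of_neg_of_pos (by linarith) (by norm_num)
  · have h0 : 0 ≤ φ := (arccos_nonneg _).trans hφ.1
    have h1 : gE φ ≤ 24 / 25 := E_pH ▸ E_anti (arccos_nonneg _) (hφ.2.trans hK.le) hφ.1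
    have h3 : -(24 / 25) ≤ gE φ := E_pK ▸ E_anti h0 hK.le hφ.2
    have h4 := P_nonneg (sin_nonneg_of_nonneg_of_le_pi h0 (hφ.2.trans hK.le))
    have h5 := hP φ
    have h6 : gE φ ^ 2 ≤ (24 / 25) ^ 2 := by nlinarith
    have h7 : 24 / 25 ≤ gG 1 φ := by
      rw [hG, le_div_iff₀ (hL φ)]
      obtain ⟨y, hy⟩ : ∃ y, y = ((gE φ + 6 / 5) ^ 2 + (18 / 25) ^ 2) / 2 -
        3 / 5 * (gE φ + 6 / 5) := ⟨_, rfl⟩
      rw [← hy] at h5
      have h8 : y ≤ 3 / 5 * (gE φ + 6 / 5) := by nlinarith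
      have h9 : 4 / 3 * y ≤ gP φ := by
        by_contra hc
        have := not_le.1 hc
        nlinarith
      linarith
    exact ⟨h7, by rw [gG2]; linarith, by rw [hR]; linarith⟩
  · have h0 : 0 ≤ φ := (arccos_nonneg _).trans hφ.1
    have h3 := E_lo φ
    have h5 := hP φ
    obtain ⟨y, hy⟩ : ∃ y, y = ((gE φ + 6 / 5) ^ 2 + (18 / 25) ^ 2) / 2 -
      3 / 5 * (gE φ + 6 / 5) := ⟨_, rfl⟩
    rw [← hy] at h5
    have h1 : gE φ ≤ -(9 / 10) ∧ gP φ ≤ 4 / 3 * y := by
      rcases le_total φ π with h | h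
      · have h1 : gE φ ≤ -(24 / 25) := E_pK ▸ E_anti (arccos_nonneg _) h hφ.1
        have h8 : 3 / 5 * (gE φ + 6 / 5) ≤ y := by nlinarith
        refine ⟨by linarith, ?_⟩
        by_contra hc
        have := not_le.1 hc
        nlinarith
      · have h6 : arccos (-(13 / 10) / He) ≤ 2 * π - φ := by
          have := hφ.2
          rw [pB] at this
          linarith
        have h7 := E_anti (arccos_nonneg _) (by linarith) h6
        have h8 : gE (2 * π - φ) = gE φ := by simp only [gE, cos_two_pi_sub]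
        have h9 : gE (arccos (-(13 / 10) / He)) = -(9 / 10) := by
          rw [gE, E_arccos (by norm_num) (by norm_num)]; norm_num
        have h10 : gP φ ≤ 0 := P_nonpos (by
          have := sin_nonneg_of_nonneg_of_le_pi ((arccos_nonneg _).trans h6) (by linarith)
          rw [sin_two_pi_sub] at this
          linarith)
        refine ⟨by linarith, ?_⟩
        nlinarith
    obtain ⟨h1, h4⟩ := h1
    have h7 : gG 1 φ ≤ 24 / 25 := by
      rw [hG, div_le_iff₀ (hL φ)]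
      linarith
    have h8 : -(gE φ + 6 / 5) ≤ gP φ := by
      by_contra hc
      have := not_le.1 hc
      nlinarith
    have h9 : -1 ≤ gG 1 φ := by
      rw [hG, le_div_iff₀ (hL φ)]
      nlinarith [sq_nonneg (gE φ + 6 / 5 - 18 / 25)]
    have h10 : gS 1 φ ≤ -(59 / 50) := by rw [hS]; nlinarith
    have h11 := hPS φ
    exact ⟨by rw [gG2]; linarith, h10, h1, by linarith, by rw [hR]; nlinarith,
      by rw [hR]; nlinarith, by nlinarith⟩

end Pool.Agent.MP_1ba41f_an.S2.CV
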