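import Pool.Agent.MP_1ba41f_an.S2.CV.CSpec

/-! The covering: three estimates on synchronous pairs of times. -/

set_option autoImplicit false

noncomputable section
open Set Complex
open scoped ComplexConjugate

namespace Pool.Agent.MP_1ba41f_an.S2.CV

namespace K123

theorem br {p q m : ℝ} (h : p ^ 2 + q ^ 2 ≤ 1) : |p * Real.cos m + q * Real.sin m| ≤ 1 := by
  rw [← sq_le_one_iff_abs_le_one]
  nlinarith [Real.sin_sq_add_cos_sq m, sq_nonneg (p * Real.sin m - q * Real.cos m)]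

theorem T2_sub (r S2 a b : ℝ) : T2 r S2 b - T2 r S2 a = (b - a) + 2 * Real.sin ((b - a) / 2) *
    ((r - 1) * Real.cos ((b + a) / 2) + S2 * Real.sin ((b + a) / 2)) := by
  have h1 := Real.sin_sub_sin b a
  have h2 := Real.cos_sub_cos b a
  unfold T2
  linear_combination (r - 1) * h1 - S2 * h2

theorem T2_zero (r S2 : ℝ) : T2 r S2 0 = 0 := by simp [T2]

theorem T3_zero (r S : ℝ) : T3 r S 0 = 0 := by simp [T3]

theorem T2_mono {r S2 : ℝ} (h : (r - 1) ^ 2 + S2 ^ 2 ≤ 1) : StrictMono (T2 r S2) := by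
  intro a b hab
  have h1 := T2_sub r S2 a b
  have h2 := br (m := (b + a) / 2) h
  have h3 : |Real.sin ((b - a) / 2)| < |(b - a) / 2| := Real.abs_sin_lt_abs (by linarith)
  rw [abs_of_pos (show 0 < (b - a) / 2 by linarith)] at h3
  generalize (r - 1) * Real.cos ((b + a) / 2) + S2 * Real.sin ((b + a) / 2) = x at h1 h2
  have h4 : |Real.sin ((b - a) / 2) * x| ≤ |Real.sin ((b - a) / 2)| := by
    rw [abs_mul]
    exact mul_le_of_le_one_right (abs_nonneg _) h2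
  linarith [neg_abs_le (Real.sin ((b - a) / 2) * x)]

theorem T2_le {r S2 : ℝ} (h : (r - 1) ^ 2 + S2 ^ 2 ≤ 1) (b : ℝ) : T2 r S2 b ≤ b + 2 := by
  have h1 := T2_sub r S2 0 b
  have h2 := br (m := (b + 0) / 2) h
  rw [T2_zero] at h1
  generalize (r - 1) * Real.cos ((b + 0) / 2) + S2 * Real.sin ((b + 0) / 2) = x at h1 h2
  have h4 : |Real.sin ((b - 0) / 2) * x| ≤ 1 := by
    rw [abs_mul]
    exact mul_le_one₀ (Real.abs_sin_le_one _) (abs_nonneg _) h2
  linarith [le_abs_self (Real.sin ((b - 0) / 2) * x)]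

theorem T3_mono {r S : ℝ} (h : S ^ 2 ≤ 2 * r) : StrictMono (T3 r S) := by
  intro a b hab
  have e : T3 r S b - T3 r S a = (b - a) * ((3 * (a + b + 2 * S) ^ 2 + (b - a) ^ 2) / 24 +
      (2 * r - S ^ 2) / 2) := by
    unfold T3; ring
  have h1 : 0 < (b - a) ^ 2 := pow_pos (by linarith) 2
  have h2 : 0 < (b - a) * ((3 * (a + b + 2 * S) ^ 2 + (b - a) ^ 2) / 24 + (2 * r - S ^ 2) / 2) :=
    mul_pos (by linarith) (by linarith [sq_nonneg (a + b + 2 * S)])
  linarith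

theorem d2 {r S G S2 G2 η : ℝ} (h : Dat r S G S2 G2 η) : (r - 1) ^ 2 + S2 ^ 2 ≤ 1 := by
  nlinarith [h.e2, sq_nonneg G2]

theorem d3 {r S G S2 G2 η : ℝ} (h : Dat r S G S2 G2 η) : S ^ 2 ≤ 2 * r := by
  linarith [h.e3, sq_nonneg G]

theorem win {r S G S2 G2 η τ2 τ3 : ℝ} (h : Dat r S G S2 G2 η) (hs : Syn r S S2 τ2 τ3)
    (ht : τ2 + τ3 ≤ 83 / 10 - S) : τ2 < 2 * Real.pi := by
  by_contra hc
  have hc := not_lt.1 hc
  have hp := Real.pi_gt_d4
  have h1 := (T2_mono (d2 h)).monotone hc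
  have h2 : T2 r S2 (2 * Real.pi) = 2 * Real.pi := by simp [T2]
  have h3 := (T3_mono (d3 h)).monotone (show τ3 ≤ 2017 / 1000 - S by linarith)
  have h4 : 0 ≤ 2017 / 1000 - S := by linarith [hs.2.1]
  have h5 : r * (2017 / 1000 - S) ≤ 1088 / 625 * (2017 / 1000 - S) :=
    mul_le_mul_of_nonneg_right h.r1 h4
  have h6 : T3 r S (2017 / 1000 - S) ≤ 6 := by
    unfold T3
    rcases le_total S 0 with h0 | h0
    · nlinarith [mul_nonneg (sq_nonneg S) (neg_nonneg.2 h0), sq_nonneg (S + 1)]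
    · nlinarith [mul_nonneg (sq_nonneg S) h4, sq_nonneg S]
  linarith [hs.2.2]

theorem late {r S G S2 G2 η τ2 τ3 : ℝ} (h : Dat r S G S2 G2 η) (hs : Syn r S S2 τ2 τ3)
    (ht : τ2 + τ3 = 83 / 10 - S) : 23 / 5 < τ2 := by
  by_contra hc
  have hc := not_lt.1 hc
  have h1 := T2_le (d2 h) τ2
  have h3 := (T3_mono (d3 h)).monotone (show 37 / 10 - S ≤ τ3 by linarith)
  have h7 := d3 h
  have h4 : S ≤ 187 / 100 := by nlinarith [h.r1]
  have h5 : S ^ 2 * (37 / 10 - S) ≤ 2 * r * (37 / 10 - S) :=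
    mul_le_mul_of_nonneg_right h7 (by linarith)
  have h8 : S ^ 3 ≤ (187 / 100) ^ 3 := (Odd.strictMono_pow (by decide)).monotone h4
  have h6 : 7 ≤ T3 r S (37 / 10 - S) := by
    unfold T3
    nlinarith
  linarith [hs.2.2]

theorem neg2 {c s A B : ℝ} (hc : 0 ≤ c) (hs : 0 ≤ s) (h : s ^ 2 + c ^ 2 = 1) (hA : A < 0)
    (hB : B < 0) : c * A + s * B < 0 := by
  rcases hc.eq_or_lt with rfl | hc'
  · have : 0 < s := lt_of_le_of_ne hs (by rintro rfl; norm_num at h)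
    nlinarith
  · nlinarith [mul_nonneg hs (neg_nonneg.2 hB.le)]

end K123

open K123

theorem k1S : K1Stmt := by
  intro r S G S2 G2 η τ2 τ3 h hs
  refine ⟨⟨fun h0 => ?_, fun h0 => ?_⟩, win h hs, fun ht hr => ?_⟩
  · apply (T3_mono (d3 h)).injective
    rw [← hs.2.2, h0, T2_zero, T3_zero]
  · apply (T2_mono (d2 h)).injective
    rw [hs.2.2, h0, T2_zero, T3_zero]
  have h1 := win h hs ht.le
  have h2 := late h hs ht
  have hp := Real.pi_lt_d4
  refine ⟨by linarith, ?_⟩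
  show Real.cos (τ2 / 2) + S2 / r * Real.sin (τ2 / 2) < 0
  have h3 := Real.one_sub_sq_div_two_le_cos (x := Real.pi - τ2 / 2)
  rw [Real.cos_pi_sub] at h3
  have h4 : (Real.pi - τ2 / 2) ^ 2 ≤ (842 / 1000) ^ 2 :=
    pow_le_pow_left₀ (by linarith) (by linarith) 2
  have h5 : 645 / 1000 ≤ -Real.cos (τ2 / 2) := by linarith
  have h6 : (S2 / r) ^ 2 ≤ 2 / 3 := by
    rw [div_pow, div_le_iff₀ (pow_pos h.r0 2)]
    nlinarith [h.e2, sq_nonneg G2, h.r0]
  have h7 := Real.sin_sq_add_cos_sq (τ2 / 2)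
  have h8 : (S2 / r * Real.sin (τ2 / 2)) ^ 2 < (-Real.cos (τ2 / 2)) ^ 2 := by
    have := mul_le_mul_of_nonneg_right h6 (sq_nonneg (Real.sin (τ2 / 2)))
    rw [mul_pow]
    nlinarith
  have := lt_of_pow_lt_pow_left₀ 2 (by linarith) h8
  linarith

theorem k2S : K2Stmt := by
  intro r S G S2 G2 η τ2 τ3 h hs hS hη h2 hr _
  have a : τ2 + τ3 ≤ 11 / 2 → τ2 ≤ Real.pi := by
    intro ht
    by_contra hc
    have hc := (not_le.1 hc).le
    have hp := Real.pi_gt_d4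
    have h1 := (T2_mono (d2 h)).monotone hc
    have h4 : T2 r S2 Real.pi = Real.pi + 2 * S2 := by simp [T2]; ring
    have h3 := (T3_mono (d3 h)).monotone (show τ3 ≤ 59 / 25 by linarith)
    have h6 : T3 r S (59 / 25) ≤ 3 := by
      unfold T3
      linarith
    linarith [hs.2.2]
  refine ⟨a, fun ht => ?_⟩
  have h1 := a ht.le
  have hp := Real.pi_lt_d4
  have h3 : 2358 / 1000 ≤ τ3 := by linarith
  have r0 := h.r0
  have hA : 1 + S / r * τ3 / 2 < 0 := by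
    have : 1 + S / r * τ3 / 2 = (2 * r + S * τ3) / (2 * r) := by field_simp
    rw [this]
    exact div_neg_of_neg_of_pos (by nlinarith) (by linarith)
  have s1 : S2 ≤ 1 := by nlinarith [d2 h, sq_nonneg (r - 1)]
  have hB : (2 * S2 + η * τ3) / (2 * r) < 0 := div_neg_of_neg_of_pos (by nlinarith) (by linarith)
  refine ⟨hA, ?_⟩
  have e : (U3 r S G τ3 * conj (U2 r S2 G2 τ2)).re = Real.cos (τ2 / 2) * (1 + S / r * τ3 / 2) +
      Real.sin (τ2 / 2) * ((2 * S2 + η * τ3) / (2 * r)) := by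
    have hη' : η = (S * S2 + G * G2) / r := by rw [h.dot]; field_simp
    rw [mul_re, conj_re, conj_im, hη']
    simp only [U2, U3]
    field_simp
    ring
  rw [e]
  exact neg2 (Real.cos_nonneg_of_mem_Icc ⟨by linarith [hs.1, Real.pi_pos], by linarith⟩)
    (Real.sin_nonneg_of_nonneg_of_le_pi (by linarith [hs.1]) (by linarith [Real.pi_pos]))
    (Real.sin_sq_add_cos_sq _) hA hB

theorem k3S : K3Stmt := by
  intro τ2 τ3 hs ht
  by_contra hc
  have hc := not_lt.1 hc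
  have h3 := (T3_mono (r := 32 / 25) (S := -(32 / 25)) (by norm_num)).monotone hc
  have h6 : T3 (32 / 25) (-(32 / 25)) 2 ≤ 2 := by
    unfold T3
    norm_num
  have h7 : τ2 - 1 ≤ T2 (32 / 25) (24 / 25) τ2 := by
    unfold T2
    linarith [Real.neg_one_le_sin τ2, Real.cos_le_one τ2]
  linarith [hs.2.2]

end Pool.Agent.MP_1ba41f_an.S2.CV
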