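import Pool.Agent.MP_1ba41f_an.S2.CV.CSpec

/-! The covering, rows K4 and K5: two sides on which the quotient avoids the region. -/

set_option autoImplicit false

noncomputable section
open Set Complex

namespace Pool.Agent.MP_1ba41f_an.S2.CV

namespace K45

theorem mono {r S2 : ℝ} (h : (r - 1) ^ 2 + S2 ^ 2 ≤ 1) : Monotone (T2 r S2) := by
  have hd : ∀ τ, HasDerivAt (T2 r S2) (1 - Real.cos τ + r * Real.cos τ + S2 * Real.sin τ) τ := by
    intro τ
    have h1 := (((hasDerivAt_id τ).fun_sub (Real.hasDerivAt_sin τ)).fun_add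
      ((Real.hasDerivAt_sin τ).const_mul r)).fun_add
      (((Real.hasDerivAt_cos τ).const_sub 1).const_mul S2)
    exact HasDerivAt.congr_deriv h1 (by ring)
  refine monotone_of_deriv_nonneg (fun τ => (hd τ).differentiableAt) fun τ => ?_
  rw [(hd τ).deriv]
  nlinarith [Real.sin_sq_add_cos_sq τ, sq_nonneg (r - 1 + Real.cos τ), sq_nonneg (S2 + Real.sin τ)]

end K45

open K45

theorem k4S : K4Stmt := by
  intro τ2 τ3 ζ ⟨h2, h3, hT⟩ hs ⟨hx, hy⟩ hc he
  have hm : Monotone (T2 (32 / 25) (24 / 25)) := mono (by norm_num)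
  have e1 := congrArg re he
  have e2 := congrArg im he
  simp only [U2, U3, mul_re, mul_im] at e1 e2
  set x := ζ.re with hxd
  set y := ζ.im with hyd
  set c := Real.cos (τ2 / 2) with hcd
  set s := Real.sin (τ2 / 2) with hsd
  have f1 : 1 + τ3 / 2 = x * (c + 3 / 4 * s) := by linarith
  have f2 : 3 / 8 * τ3 = y * (c + 3 / 4 * s) := by linarith
  have ha : 0 < c + 3 / 4 * s := by
    by_contra hn
    nlinarith [mul_nonneg hx (neg_nonneg.2 (not_lt.1 hn))]
  have hcs : s ^ 2 + c ^ 2 = 1 := Real.sin_sq_add_cos_sq _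
  have hT' := hT
  unfold T2 T3 at hT'
  rcases hc with hc | hc
  · have g1 : 1 + τ3 / 2 ≤ c + 3 / 4 * s := by nlinarith
    have g2 : c + 3 / 4 * s ≤ 5 / 4 := by nlinarith [sq_nonneg (c - 4 / 5), sq_nonneg (s - 3 / 5)]
    rcases h3.eq_or_lt with h0 | h0
    · have g3 : τ2 = 0 := by
        have a1 := Real.neg_one_le_cos τ2
        have a2 := Real.cos_le_one τ2
        have a3 : -τ2 ≤ Real.sin τ2 := by
          have := Real.abs_sin_le_abs (x := τ2)
          rw [abs_of_nonneg h2] at this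
          exact (abs_le.1 this).1
        rw [← h0] at hT'
        linarith
      have g4 : c = 1 := by rw [hcd, g3]; simp
      have g5 : s = 0 := by rw [hsd, g3]; simp
      rw [g4, g5, ← h0] at f1 f2
      exact Complex.ext (by rw [one_re]; linarith) (by rw [one_im]; linarith)
    · exfalso
      have g3 : τ3 ≤ 1 / 2 := by linarith
      have g4 : τ2 ≤ 4 / 3 * τ3 := by
        by_contra hn
        have a1 := hm (not_le.1 hn).le
        have a2 := Real.sin_ge_sub_cube (x := 4 / 3 * τ3) (by linarith)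
        have a3 := Real.cos_le_one (4 / 3 * τ3)
        rw [hT] at a1
        unfold T2 T3 at a1
        have a4 : τ3 ^ 2 ≤ τ3 / 2 := by nlinarith
        have a5 : τ3 ^ 3 ≤ τ3 / 4 := by nlinarith
        nlinarith
      have g5 : c ≤ 1 := Real.cos_le_one _
      rcases h2.eq_or_lt with h4 | h4
      · have g6 : s = 0 := by rw [hsd, ← h4]; simp
        linarith
      · have g6 : s < τ2 / 2 := Real.sin_lt (by linarith)
        linarith
  · exfalso
    have g1 : 4 ≤ τ3 := by nlinarith
    have a1 := Real.neg_one_le_cos τ2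
    have a2 := Real.sin_le_one τ2
    have a4 : 16 ≤ τ3 ^ 2 := by nlinarith
    have a5 : 0 ≤ τ3 ^ 3 := by positivity
    linarith

theorem k5S : K5Stmt := by
  intro S G S2 G2 η τ2 τ3 l hD ⟨h2, h3, hT⟩ s1 s2 s3 s4 hG hG2 hπ l1 l2 l3 he
  have hm : Monotone (T2 (1038 / 625) S2) := mono (by nlinarith [hD.e2, sq_nonneg G2])
  have key : ∀ t : ℝ, 0 < t → t ≤ 429 / 500 → T3 (1038 / 625) S t < T2 (1038 / 625) S2 t := by
    intro t t0 t1
    have a1 := Real.sin_ge_sub_cube t0.le
    have a2 := Real.one_sub_sq_div_two_le_cos (x := t)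
    have a3 : S2 * (t ^ 2 / 2) ≤ S2 * (1 - Real.cos t) :=
      mul_le_mul_of_nonpos_left (by linarith) (by linarith)
    have a4 : 0 < t ^ 2 := by positivity
    have a5 : t ^ 3 ≤ 429 / 500 * t ^ 2 := by nlinarith
    have a6 : S * t ^ 2 ≤ -(32 / 25) * t ^ 2 := by nlinarith
    have a7 : -(181 / 250) * t ^ 2 ≤ S2 * t ^ 2 := by nlinarith
    unfold T2 T3
    linarith
  have pos : ∀ t : ℝ, 0 < t → 0 < T3 (1038 / 625) S t := by
    intro t t0
    have a1 : 0 < 1038 / 625 + S * t / 2 + t ^ 2 / 6 := by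
      nlinarith [sq_nonneg (t - 2), mul_le_mul_of_nonneg_right s1 t0.le]
    have a2 := mul_pos t0 a1
    unfold T3
    nlinarith
  have e1 := congrArg re he
  have e2 := congrArg im he
  simp only [U2, U3, mul_re, mul_im] at e1 e2
  rcases h3.eq_or_lt with h0 | h0
  · have g3 : τ2 = 0 := by
      by_contra hn
      have a0 : 0 < τ2 := lt_of_le_of_ne h2 (Ne.symm hn)
      have a1 : 0 < min τ2 (429 / 500) := lt_min a0 (by norm_num)
      have a2 := hm (min_le_left τ2 (429 / 500))
      have a3 := key _ a1 (min_le_right _ _)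
      have a4 := pos _ a1
      rw [hT, ← h0] at a2
      have a5 : T3 (1038 / 625) S 0 = 0 := by simp [T3]
      linarith
    rw [g3, ← h0] at e1 e2
    simp only [zero_div, Real.cos_zero, Real.sin_zero, mul_zero, add_zero, mul_one, sub_zero,
      zero_add] at e1 e2
    exact Complex.ext (by rw [one_re]; exact e1.symm) (by rw [one_im]; exact e2.symm)
  exfalso
  have g0 : 0 < τ2 := by
    rcases h2.eq_or_lt with h4 | h4
    · have a1 := pos _ h0
      rw [← hT, ← h4] at a1
      simp [T2] at a1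
    · exact h4
  have hs : 0 < Real.sin (τ2 / 2) := Real.sin_pos_of_pos_of_lt_pi (by linarith) (by linarith)
  rw [Complex.sq_norm, normSq_apply] at l3
  set p := l.re with hp
  set q := -l.im with hq
  have hq' : l.im = -q := by rw [hq, neg_neg]
  rw [hq'] at e1 e2 l1 l2 l3
  set a3 := 1 + S / (1038 / 625) * τ3 / 2 with ha3
  set b3 := G / (1038 / 625) * τ3 / 2 with hb3
  set a2 := Real.cos (τ2 / 2) + S2 / (1038 / 625) * Real.sin (τ2 / 2) with ha2
  have q0 : 0 ≤ q := by linarith
  have q1 : 2 * q ≤ p := by linarith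
  have b0 : 0 < b3 := by
    have : 0 < G := by linarith
    positivity
  have b1 : G2 / (1038 / 625) * Real.sin (τ2 / 2) < 0 :=
    mul_neg_of_neg_of_pos (by linarith) hs
  have b2 : p * b3 < q * a3 := by linarith
  have b4 : 2 * q * b3 ≤ p * b3 := mul_le_mul_of_nonneg_right q1 b0.le
  have q2 : 0 < q := by
    rcases q0.eq_or_lt with h | h
    · rw [← h] at b2 b4
      linarith
    · exact h
  have b5 : 2 * b3 < a3 := by
    by_contra hn
    nlinarith [mul_le_mul_of_nonneg_left (not_lt.1 hn) q0]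
  have p0 : 0 < p := by linarith
  have b6 : a2 < a3 := by
    by_contra hn
    have c1 : p * a3 ≤ p * a2 := mul_le_mul_of_nonneg_left (not_lt.1 hn) p0.le
    have c2 : p * a2 = p * p * a3 + q * (p * b3) := by rw [e1]; ring
    have c3 : q * (p * b3) < q * (q * a3) := mul_lt_mul_of_pos_left b2 q2
    have c4 : (p * p + q * q) * a3 ≤ p * a3 :=
      mul_le_mul_of_nonneg_right (by linarith) (by linarith)
    nlinarith
  have c1 : S * τ3 ≤ -(32 / 25) * τ3 := mul_le_mul_of_nonneg_right s2 h3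
  have c2 : 162 / 125 * τ3 ≤ G * τ3 := mul_le_mul_of_nonneg_right hG h3
  have c3 : a3 = 1 + 625 / 2076 * (S * τ3) := by rw [ha3]; ring
  have c4 : b3 = 625 / 2076 * (G * τ3) := by rw [hb3]; ring
  have t1 : τ3 ≤ 429 / 500 := by linarith
  have t2 : τ2 < τ3 := by
    by_contra hn
    have a1 := hm (not_lt.1 hn)
    have a2 := key _ h0 t1
    linarith
  have d1 := Real.one_sub_sq_div_two_le_cos (x := τ2 / 2)
  have d2 : Real.sin (τ2 / 2) ≤ τ2 / 2 := Real.sin_le (by linarith)
  have d3 : -(181 / 250) * Real.sin (τ2 / 2) ≤ S2 * Real.sin (τ2 / 2) :=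
    mul_le_mul_of_nonneg_right s3 hs.le
  have d4 : a2 = Real.cos (τ2 / 2) + 625 / 1038 * (S2 * Real.sin (τ2 / 2)) := by rw [ha2]; ring
  have d5 : τ2 ^ 2 ≤ 429 / 500 * τ3 := by nlinarith
  nlinarith

end Pool.Agent.MP_1ba41f_an.S2.CV
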