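import Pool.Agent.MP_1ba41f_an.S2.CV.Rou

/-! The covering: the region around infinity. -/

set_option autoImplicit false

noncomputable section
open Set Complex

namespace Pool.Agent.MP_1ba41f_an.S2.CV

open Rou in
theorem minusS (g2 : G2Stmt) (g3 : G3Stmt) (k1 : K1Stmt) (k5 : K5Stmt) : MinusStmt := by
  intro P hP hQ
  obtain ⟨c1, c2, c3, c4, c5⟩ := cont g2 (Or.inr rfl)
  obtain ⟨d, cS, -⟩ := g2.1 (-1) (Or.inr rfl)
  have eR := fun ψ => (g2.2.2 ψ).2.1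
  have eG := fun ψ => (g2.2.2 ψ).2.2.2.1
  have eG2 := fun ψ => (g2.2.2 ψ).2.2.2.2.1
  have eS := fun ψ => (g2.2.2 ψ).2.2.2.2.2.1
  have eS2 := fun ψ => (g2.2.2 ψ).2.2.2.2.2.2
  obtain ⟨⟨o1, o2, o3, o4⟩, -, -, vP, vB, ch1, ch2⟩ := g3
  set a := -pB with ha
  set b := -(Real.pi / 2) with hb
  have ab : a ≤ b := by linarith
  have cg : Continuous fun φ => (φ, 83 / 10 - gS (-1) φ) := by fun_prop
  have ta := top_mem (d a)
  have tb := top_mem (d b)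
  have K1 := fun φ τ2 τ3 sy => k1 _ _ _ _ _ _ τ2 τ3 (d φ) sy
  have imn : ∀ {φ τ : ℝ}, gG2 (-1) φ < 0 → 0 < τ → τ < 2 * Real.pi →
      (U2 (gR φ) (gS2 (-1) φ) (gG2 (-1) φ) τ).im < 0 := fun {φ τ} h h' h'' =>
    mul_neg_of_neg_of_pos (div_neg_of_neg_of_pos h (d φ).r0) (sin_half_pos h' h'')
  have imp : ∀ {φ τ : ℝ}, gG (-1) φ < 0 → 0 < τ → τ < 2 * Real.pi →
      0 < (U2 (gR φ) (gS2 (-1) φ) (gG2 (-1) φ) τ).im := fun {φ τ} h h' h'' =>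
    mul_pos (div_pos (by unfold gG2; linarith) (d φ).r0) (sin_half_pos h' h'')
  have rep : ∀ {φ τ : ℝ}, 0 ≤ gS (-1) φ → 0 ≤ τ → 0 < (U3 (gR φ) (gS (-1) φ) (gG (-1) φ) τ).re :=
    fun {φ τ} h h' => by
      have := (d φ).r0
      simp only [U3]
      positivity
  have i3n : ∀ {φ τ : ℝ}, gG (-1) φ < 0 → 0 ≤ τ → (U3 (gR φ) (gS (-1) φ) (gG (-1) φ) τ).im ≤ 0 :=
    fun {φ τ} h h' => by
      have := mul_nonpos_of_nonpos_of_nonneg (div_neg_of_neg_of_pos h (d φ).r0).le h'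
      show gG (-1) φ / gR φ * τ / 2 ≤ 0
      linarith
  have Ga : gG (-1) a < 0 := (eG pB).trans_lt vB
  have Sa : 0 ≤ gS (-1) a := by
    rw [ha, eS]
    linarith [(ch2 pB ⟨by linarith, le_rfl⟩).2.1]
  have Gb : gG2 (-1) b < 0 := (eG2 _).trans_lt vP.2.2.2.2.2.2
  have rr : ∀ φ ∈ Icc a b, 6 / 5 ≤ gR φ := fun φ h => by
    rw [← eR]
    rcases le_total (-φ) pK with h' | h'
    · linarith [(ch1 (-φ) ⟨by linarith [h.2], h'⟩).2.2]
    · exact (ch2 (-φ) ⟨h', by linarith [h.1]⟩).2.2.2.2.1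
  obtain ⟨δ, δ0, h⟩ := gen c1 c2 c3 c4 c5 (a := a) (b := b)
    (A := ({a} ×ˢ Icc 0 (83 / 10 - gS (-1) a) ∪ Icc a b ×ˢ {0}) ∪
      {b} ×ˢ Icc 0 (83 / 10 - gS (-1) b))
    (B := (fun φ => (φ, 83 / 10 - gS (-1) φ)) '' Icc a b)
    (((isCompact_singleton.prod isCompact_Icc).union (isCompact_Icc.prod isCompact_singleton)).union
      (isCompact_singleton.prod isCompact_Icc)) (isCompact_Icc.image cg)
    (.union (b, 0) (Or.inr ⟨⟨ab, le_rfl⟩, rfl⟩) ⟨rfl, le_rfl, tb.1⟩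
      (.union (a, 0) ⟨rfl, le_rfl, ta.1⟩ ⟨⟨le_rfl, ab⟩, rfl⟩
        (isPreconnected_singleton.prod isPreconnected_Icc)
        (isPreconnected_Icc.prod isPreconnected_singleton))
      (isPreconnected_singleton.prod isPreconnected_Icc))
    (isPreconnected_Icc.image _ cg.continuousOn)
    (by
      rintro ⟨φ, s⟩ ((⟨rfl, h⟩ | ⟨h, rfl⟩) | ⟨rfl, h⟩)
      exacts [⟨⟨le_rfl, ab⟩, h.1, h.2.trans ta.2⟩, ⟨h, by norm_num⟩,
        ⟨⟨ab, le_rfl⟩, h.1, h.2.trans tb.2⟩])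
    (by
      rintro _ ⟨ψ, h, rfl⟩
      exact ⟨h, top_mem (d ψ)⟩)
    (x := (b, 83 / 10 - gS (-1) b)) (y := (a, 83 / 10 - gS (-1) a)) (Or.inr ⟨rfl, tb.1, le_rfl⟩)
    ⟨b, ⟨ab, le_rfl⟩, rfl⟩ (Or.inl (Or.inl ⟨rfl, ta.1, le_rfl⟩)) ⟨a, ⟨le_rfl, ab⟩, rfl⟩ hP
    (fun φ τ2 τ3 hm h2 h3 h0 l hl => by
      have sy : Syn (gR φ) (gS (-1) φ) (gS2 (-1) φ) τ2 τ3 := ⟨h2, h3, sub_eq_zero.1 h0⟩
      obtain ⟨q1, q2, q3, q4⟩ := hQ l hl
      obtain ⟨a1, a2, -⟩ := K1 φ τ2 τ3 sy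
      rcases h2.eq_or_lt with rfl | p2
      · rw [a1.1 rfl, U2_zero, U3_zero, mul_one]
        exact ⟨one_mem_slitPlane, q4.symm⟩
      rcases hm with (⟨rfl, h⟩ | ⟨-, h⟩) | ⟨rfl, h⟩
      · have i2 := imp Ga p2 (a2 h.2)
        refine ⟨Or.inr i2.ne', fun e => i2.not_ge ?_⟩
        rw [e, mul_im]
        nlinarith [rep Sa h3, i3n Ga h3]
      · exact absurd (show τ2 + τ3 = 0 from h) (by linarith)
      · refine ⟨Or.inr (imn Gb p2 (a2 h.2)).ne, fun e => q4 ?_⟩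
        obtain ⟨v1, v2, v3, v4, v5, v6, -⟩ := vP
        have v0 : gR b = 1038 / 625 := (eR _).trans v1
        have db := d b
        rw [v0] at e sy db
        refine k5 _ _ _ _ _ _ _ l db sy ?_ ?_ ?_ ?_ ?_ Gb (a2 h.2) q1 q2 q3 e <;>
          simp only [hb, eS, eS2, eG] <;> linarith)
    (fun φ τ2 τ3 hm h2 h3 h0 l hl => by
      have sy : Syn (gR φ) (gS (-1) φ) (gS2 (-1) φ) τ2 τ3 := ⟨h2, h3, sub_eq_zero.1 h0⟩
      obtain ⟨q1, q2, -, -⟩ := hQ l hl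
      obtain ⟨ψ, h, e⟩ := hm
      obtain ⟨rfl, e⟩ := Prod.ext_iff.1 e
      obtain ⟨a1, a2, a3⟩ := K1 ψ τ2 τ3 sy
      obtain ⟨a4, a5⟩ := a3 e.symm (rr ψ h)
      have a6 := a2 e.ge
      have p3 : 0 < τ3 := h3.lt_of_ne' fun e => a4.ne' (a1.2 e)
      have r0 := (d ψ).r0
      refine ⟨Or.inl (by simpa using a5), fun e' => ?_⟩
      rcases le_total (-ψ) pK with h' | h'
      · obtain ⟨b1, b2, -⟩ := ch1 (-ψ) ⟨by linarith [h.2], h'⟩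
        rw [← eG, neg_neg] at b1
        rw [← eG2, neg_neg] at b2
        have i2 : (U2 (gR ψ) (gS2 (-1) ψ) (gG2 (-1) ψ) τ2).im ≤ 0 :=
          mul_nonpos_of_nonpos_of_nonneg (div_nonpos_of_nonpos_of_nonneg b2 r0.le)
            (sin_half_pos a4 a6).le
        have i3 : 0 < (U3 (gR ψ) (gS (-1) ψ) (gG (-1) ψ) τ3).im :=
          half_pos (mul_pos (div_pos (by linarith) r0) p3)
        rw [e', mul_re] at a5
        rw [e', mul_im] at i2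
        generalize U3 (gR ψ) (gS (-1) ψ) (gG (-1) ψ) τ3 = u at a5 i2 i3
        have m1 : l.re * u.re < 0 := by nlinarith
        have m2 : 0 < l.re := lt_of_le_of_ne (by linarith) fun e => by simp [← e] at m1
        have m3 : u.re < 0 := neg_of_mul_neg_right m1 m2.le
        nlinarith [mul_pos m2 i3]
      · have b1 := (ch2 (-ψ) ⟨h', by linarith [h.1]⟩).2.1
        have b2 := eS (-ψ)
        rw [neg_neg] at b2
        have r3 := rep (φ := ψ) (by linarith) h3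
        rcases lt_or_ge (gG (-1) ψ) 0 with hG | hG
        · have i2 := imp hG a4 a6
          rw [e', mul_im] at i2
          nlinarith [i3n hG h3]
        · have i3 : 0 ≤ (U3 (gR ψ) (gS (-1) ψ) (gG (-1) ψ) τ3).im := by
            simp only [U3]
            positivity
          rw [e', mul_re] at a5
          nlinarith)
    (fun τ2 τ3 e h2 h3 h0 => by
      obtain ⟨-, a2, a3⟩ := K1 b τ2 τ3 ⟨h2, h3, sub_eq_zero.1 h0⟩
      exact imn Gb (a3 e (rr b ⟨ab, le_rfl⟩)).1 (a2 e.le))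
    (fun τ2 τ3 e h2 h3 h0 => by
      obtain ⟨-, a2, a3⟩ := K1 a τ2 τ3 ⟨h2, h3, sub_eq_zero.1 h0⟩
      exact imp Ga (a3 e (rr a ⟨le_rfl, ab⟩)).1 (a2 e.le))
  exact ⟨δ, δ0, fun w2 w3 h2 h3 hN l hl => h w2 w3 h2 h3 hN l hl⟩

end Pool.Agent.MP_1ba41f_an.S2.CV
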