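import Pool.Agent.MP_1ba41f_an.S2.CV.Rou

/-! The covering: the region around zero. -/

set_option autoImplicit false

noncomputable section
open Set Complex
open scoped ComplexConjugate

namespace Pool.Agent.MP_1ba41f_an.S2.CV

open Rou in
theorem plusS (g2 : G2Stmt) (g3 : G3Stmt) (k1 : K1Stmt) (k2 : K2Stmt) (k3 : K3Stmt) (k4 : K4Stmt) :
    PlusStmt := by
  intro P hP hQ
  obtain ⟨c1, c2, c3, c4, c5⟩ := cont g2 (Or.inl rfl)
  obtain ⟨d, cS, -⟩ := g2.1 1 (Or.inl rfl)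
  obtain ⟨⟨o1, o2, o3, o4⟩, vH, vK, -, vB, ch1, ch2⟩ := g3
  have HK : pH ≤ pK := by linarith
  have KB : pK ≤ pB := by linarith
  have HB : pH ≤ pB := by linarith
  have cg : Continuous fun φ => (φ, 83 / 10 - gS 1 φ) := by fun_prop
  have K2 := fun φ (h : φ ∈ Icc pK pB) τ2 τ3 sy => k2 _ _ _ _ _ _ τ2 τ3 (d φ) sy (ch2 φ h).2.1
    (ch2 φ h).2.2.1 (ch2 φ h).2.2.2.1 (ch2 φ h).2.2.2.2.2.1 (ch2 φ h).2.2.2.2.2.2
  have imn : ∀ {φ τ : ℝ}, gG 1 φ < 0 → 0 < τ → (U3 (gR φ) (gS 1 φ) (gG 1 φ) τ).im < 0 :=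
    fun {φ τ} h h' => by
      have := mul_neg_of_neg_of_pos (div_neg_of_neg_of_pos h (d φ).r0) h'
      show gG 1 φ / gR φ * τ / 2 < 0
      linarith
  have imp : ∀ {φ τ : ℝ}, 0 < gG 1 φ → 0 < τ → 0 < (U3 (gR φ) (gS 1 φ) (gG 1 φ) τ).im :=
    fun {φ τ} h h' => half_pos (mul_pos (div_pos h (d φ).r0) h')
  have pos3 : ∀ {φ τ2 τ3 : ℝ}, Syn (gR φ) (gS 1 φ) (gS2 1 φ) τ2 τ3 → τ2 + τ3 ≠ 0 → 0 < τ3 :=
    fun {φ τ2 τ3} sy h => sy.2.1.lt_of_ne' fun h3 =>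
      h (by rw [(k1 _ _ _ _ _ _ _ _ (d φ) sy).1.2 h3, h3, add_zero])
  obtain ⟨δ, δ0, h⟩ := gen c1 c2 c3 c5 c4 (a := pH) (b := pB)
    (A := ({pH} ×ˢ Icc 0 (351 / 50) ∪ Icc pH pB ×ˢ {0}) ∪ {pB} ×ˢ Icc 0 (11 / 2))
    (B := ((fun φ => (φ, 83 / 10 - gS 1 φ)) '' Icc pH pK ∪ {pK} ×ˢ Icc (11 / 2) (479 / 50)) ∪
      Icc pK pB ×ˢ {11 / 2})
    (((isCompact_singleton.prod isCompact_Icc).union (isCompact_Icc.prod isCompact_singleton)).union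
      (isCompact_singleton.prod isCompact_Icc))
    (((isCompact_Icc.image cg).union (isCompact_singleton.prod isCompact_Icc)).union
      (isCompact_Icc.prod isCompact_singleton))
    (.union (pB, 0) (Or.inr ⟨⟨HB, le_rfl⟩, rfl⟩) ⟨rfl, le_rfl, by norm_num⟩
      (.union (pH, 0) ⟨rfl, le_rfl, by norm_num⟩ ⟨⟨le_rfl, HB⟩, rfl⟩
        (isPreconnected_singleton.prod isPreconnected_Icc)
        (isPreconnected_Icc.prod isPreconnected_singleton))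
      (isPreconnected_singleton.prod isPreconnected_Icc))
    (.union (pK, 11 / 2) (Or.inr ⟨rfl, le_rfl, by norm_num⟩) ⟨⟨le_rfl, KB⟩, rfl⟩
      (.union (pK, 479 / 50) ⟨pK, ⟨HK, le_rfl⟩, by norm_num [vK.2.1]⟩ ⟨rfl, by norm_num, le_rfl⟩
        (isPreconnected_Icc.image _ cg.continuousOn)
        (isPreconnected_singleton.prod isPreconnected_Icc))
      (isPreconnected_Icc.prod isPreconnected_singleton))
    (by
      rintro ⟨φ, s⟩ ((⟨rfl, h⟩ | ⟨h, rfl⟩) | ⟨rfl, h⟩)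
      exacts [⟨⟨le_rfl, HB⟩, h.1, h.2.trans (by norm_num)⟩, ⟨h, by norm_num⟩,
        ⟨⟨HB, le_rfl⟩, h.1, h.2.trans (by norm_num)⟩])
    (by
      rintro ⟨φ, s⟩ ((⟨ψ, h, e⟩ | ⟨rfl, h⟩) | ⟨h, rfl⟩)
      · rw [← e]
        exact ⟨⟨h.1, h.2.trans KB⟩, top_mem (d ψ)⟩
      exacts [⟨⟨HK, KB⟩, le_trans (by norm_num) h.1, h.2.trans (by norm_num)⟩,
        ⟨⟨HK.trans h.1, h.2⟩, by norm_num⟩])
    (x := (pB, 11 / 2)) (y := (pH, 351 / 50)) (Or.inr ⟨rfl, by norm_num, le_rfl⟩)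
    (Or.inr ⟨⟨KB, le_rfl⟩, rfl⟩) (Or.inl (Or.inl ⟨rfl, by norm_num, le_rfl⟩))
    (Or.inl (Or.inl ⟨pH, ⟨le_rfl, HK⟩, by norm_num [vH.2.1]⟩)) hP
    (fun φ τ2 τ3 hm h2 h3 h0 ζ hζ => by
      have sy : Syn (gR φ) (gS 1 φ) (gS2 1 φ) τ2 τ3 := ⟨h2, h3, sub_eq_zero.1 h0⟩
      obtain ⟨q1, q2, q3⟩ := hQ ζ hζ
      have zero : τ2 + τ3 = 0 → U3 (gR φ) (gS 1 φ) (gG 1 φ) τ3 ∈ slitPlane ∧
          U3 (gR φ) (gS 1 φ) (gG 1 φ) τ3 ≠ ζ * U2 (gR φ) (gS2 1 φ) (gG2 1 φ) τ2 := fun e => by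
        rw [show τ2 = 0 by linarith, show τ3 = 0 by linarith, U2_zero, U3_zero, mul_one]
        exact ⟨one_mem_slitPlane, q3.symm⟩
      rcases hm with (⟨rfl, h⟩ | ⟨-, h⟩) | ⟨rfl, h⟩
      · simp only [vH.1, vH.2.1, vH.2.2.1, vH.2.2.2.1, vH.2.2.2.2] at sy ⊢
        exact ⟨Or.inl (by simp only [U3]; positivity), fun e => q3 (k4 _ _ ζ sy h.2 q1 q2 e)⟩
      · exact zero h
      · by_cases e : τ2 + τ3 = 0
        · exact zero e
        have i3 := imn vB (pos3 sy e)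
        refine ⟨Or.inr i3.ne, fun e' => i3.not_ge ?_⟩
        have b := ch2 pB ⟨KB, le_rfl⟩
        have t := (K2 pB ⟨KB, le_rfl⟩ τ2 τ3 sy).1 h.2
        have r0 := (d pB).r0
        have s0 : 0 ≤ Real.sin (τ2 / 2) :=
          Real.sin_nonneg_of_nonneg_of_le_pi (by linarith) (by linarith)
        have s1 : 0 ≤ Real.cos (τ2 / 2) :=
          Real.cos_nonneg_of_neg_pi_div_two_le_of_le (by linarith) (by linarith)
        have b1 := b.1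
        have b2 := b.2.2.2.1
        have := q1.1
        have := q1.2
        rw [e', mul_im]
        simp only [U2]
        positivity)
    (fun φ τ2 τ3 hm h2 h3 h0 ζ hζ => by
      have sy : Syn (gR φ) (gS 1 φ) (gS2 1 φ) τ2 τ3 := ⟨h2, h3, sub_eq_zero.1 h0⟩
      obtain ⟨q1, -, -⟩ := hQ ζ hζ
      rcases hm with (⟨ψ, h, e⟩ | ⟨rfl, h⟩) | ⟨h, e⟩
      · obtain ⟨rfl, e⟩ := Prod.ext_iff.1 e
        obtain ⟨b1, b2, b3⟩ := ch1 ψ h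
        obtain ⟨a1, a2, a3⟩ := k1 _ _ _ _ _ _ _ _ (d ψ) sy
        obtain ⟨a4, a5⟩ := a3 e.symm (by linarith)
        have i3 := imp (φ := ψ) (by linarith) (pos3 sy (by linarith))
        refine ⟨Or.inr (by simpa using i3.ne'), fun e' => i3.not_ge ?_⟩
        have : (U2 (gR ψ) (gS2 1 ψ) (gG2 1 ψ) τ2).im ≤ 0 :=
          mul_nonpos_of_nonpos_of_nonneg (div_nonpos_of_nonpos_of_nonneg b2 (d ψ).r0.le)
            (sin_half_pos a4 (a2 e.ge)).le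
        rw [e', mul_im]
        nlinarith [q1.1, q1.2]
      · simp only [vK.1, vK.2.1, vK.2.2.1, vK.2.2.2.1, vK.2.2.2.2] at sy ⊢
        have t := k3 _ _ sy h.1
        refine ⟨Or.inl (by simp [U3]; linarith), fun e' => ?_⟩
        have e1 := congrArg re e'
        have e2 := congrArg im e'
        simp only [U2, U3, mul_re, mul_im, zero_div, zero_mul, mul_zero] at e1 e2
        generalize Real.cos (τ2 / 2) + 24 / 25 / (32 / 25) * Real.sin (τ2 / 2) = u at e1 e2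
        rcases le_total 0 u with hu | hu <;> nlinarith [q1.1, q1.2]
      · obtain ⟨a1, a2⟩ := (K2 φ h τ2 τ3 sy).2 e
        refine ⟨Or.inl (by simpa using a1), fun e' => a2.not_ge ?_⟩
        rw [e', mul_assoc, mul_conj, re_mul_ofReal]
        exact mul_nonneg q1.1 (normSq_nonneg _))
    (fun τ2 τ3 e h2 h3 h0 => imn vB (pos3 ⟨h2, h3, sub_eq_zero.1 h0⟩ (by rw [e]; norm_num)))
    (fun τ2 τ3 e h2 h3 h0 => imp (by rw [vH.2.2.1]; norm_num)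
      (pos3 ⟨h2, h3, sub_eq_zero.1 h0⟩ (by rw [e]; norm_num)))
  refine ⟨δ, δ0, fun w2 w3 h2 h3 hN ζ hζ => h w3 w2 h3 h2 (fun φ s hs => ?_) ζ
    fun t ht => ⟨_, hζ t ht, by simpa using δ0.le⟩⟩
  obtain ⟨τ2, τ3, a, b, c, e, f, g⟩ := hN φ s hs
  exact ⟨τ2, τ3, a, b, c, e, g, f⟩

end Pool.Agent.MP_1ba41f_an.S2.CV
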