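import Mathlib.Analysis.Convex.Contractible
import Mathlib.Analysis.Convex.PathConnected
import Mathlib.Analysis.Complex.CoveringMap
import Mathlib.Topology.Homotopy.Lifting
import Mathlib.Analysis.SpecialFunctions.Complex.Log

/-! A zero from two connected sets on which a function avoids opposite half lines. -/

set_option autoImplicit false

noncomputable section
open Set Filter Topology

namespace Pool.Agent.MP_1ba41f_an.S2

/-- a continuous logarithm on a convex set -/
theorem exists_log {E : Type} [NormedAddCommGroup E] [NormedSpace ℝ E] {R : Set E}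
    (hR : Convex ℝ R) {h : E → ℂ} (hc : ContinuousOn h R) (h0 : ∀ x ∈ R, h x ≠ 0) :
    ∃ L : E → ℂ, ContinuousOn L R ∧ ∀ x ∈ R, Complex.exp (L x) = h x := by
  classical
  rcases R.eq_empty_or_nonempty with rfl | ⟨x₀, hx₀⟩
  · exact ⟨0, continuousOn_empty _, by simp⟩
  have := hR.contractibleSpace ⟨x₀, hx₀⟩
  have := hR.locallyPathConnectedSpace
  obtain ⟨F, ⟨-, hF⟩, -⟩ := Complex.isCoveringMap_exp.existsUnique_continuousMap_lifts
    (⟨fun x : R => (⟨h x, h0 x x.2⟩ : {z : ℂ // z ≠ 0}), hc.domRestrict.subtype_mk _⟩ : C(R, _))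
    ⟨x₀, hx₀⟩ (Complex.log (h x₀)) (Subtype.ext (Complex.exp_log (h0 x₀ hx₀)))
  refine ⟨fun x => if hx : x ∈ R then F ⟨x, hx⟩ else 0, ?_, fun x hx => ?_⟩
  · rw [continuousOn_iff_continuous_domRestrict]
    convert F.continuous using 1
    ext x
    simp [x.2]
  · simp only [dif_pos hx]
    exact congrArg Subtype.val (congrFun hF ⟨x, hx⟩)

/-- two continuous logarithms of the same function differ by a constant on a connected set -/
theorem log_sub_const {X : Type} [TopologicalSpace X] {A : Set X} (hA : IsPreconnected A)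
    {L M : X → ℂ} (hL : ContinuousOn L A) (hM : ContinuousOn M A)
    (h : ∀ x ∈ A, Complex.exp (L x) = Complex.exp (M x)) {x y : X} (hx : x ∈ A) (hy : y ∈ A) :
    L x - M x = L y - M y := by
  have hd : IsDiscrete (AddSubgroup.zmultiples (2 * Real.pi * Complex.I : ℂ) : Set ℂ) :=
    ⟨NormedSpace.discreteTopology_zmultiples _⟩
  refine hA.constant_of_mapsTo hd (hL.sub hM) (fun z hz => ?_) hx hy
  obtain ⟨n, hn⟩ := Complex.exp_eq_exp_iff_exists_int.1 (h z hz)
  exact ⟨n, by simp [hn]⟩

/-- TB: if `h` avoids the negative half line on `A` and the positive half line on `B`, and both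
sets join a point with `Im h < 0` to a point with `Im h > 0`, then `h` has a zero. -/
theorem tb {E : Type} [NormedAddCommGroup E] [NormedSpace ℝ E] {R A B : Set E} (hR : Convex ℝ R)
    {h : E → ℂ} (hc : ContinuousOn h R) (hA : IsPreconnected A) (hB : IsPreconnected B)
    (hAR : A ⊆ R) (hBR : B ⊆ R) (sA : ∀ x ∈ A, h x ∈ Complex.slitPlane)
    (sB : ∀ x ∈ B, -h x ∈ Complex.slitPlane) {x y : E} (xA : x ∈ A) (xB : x ∈ B) (yA : y ∈ A)
    (yB : y ∈ B) (hx : (h x).im < 0) (hy : 0 < (h y).im) : ∃ z ∈ R, h z = 0 := by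
  by_contra h0
  push Not at h0
  obtain ⟨L, hL, e⟩ := exists_log hR hc h0
  have e1 := log_sub_const hA (hL.mono hAR) ((hc.mono hAR).clog sA)
    (fun z hz => by rw [e z (hAR hz), Complex.exp_log (h0 z (hAR hz))]) xA yA
  have e2 := log_sub_const hB (M := fun z => Complex.log (-h z) + Real.pi * Complex.I)
    (hL.mono hBR) (((hc.mono hBR).neg.clog sB).add continuousOn_const) (fun z hz => by
      rw [e z (hBR hz), Complex.exp_add, Complex.exp_log (neg_ne_zero.2 (h0 z (hBR hz))),
        Complex.exp_pi_mul_I]; ring) xB yB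
  have i1 := congrArg Complex.im e1
  have i2 := congrArg Complex.im e2
  simp only [Complex.sub_im, Complex.add_im, Complex.log_im] at i1 i2
  have a1 := Complex.arg_neg_iff.2 hx
  have a2 := Complex.arg_nonneg_iff.2 hy.le
  have a3 : (-h y).arg < 0 := Complex.arg_neg_iff.2 (by simpa using hy)
  have a4 : 0 ≤ (-h x).arg := Complex.arg_nonneg_iff.2 (by simpa using hx.le)
  linarith

end Pool.Agent.MP_1ba41f_an.S2
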