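import Pool.Agent.MP_1ba41f_an.S2.SpecK
import Pool.Agent.MP_1ba41f_an.S2.CV.TB

/-! The covering: data of the largest circle and the statements of the parts. -/

set_option autoImplicit false

noncomputable section
open Set Complex
open scoped ComplexConjugate

namespace Pool.Agent.MP_1ba41f_an.S2.CV

def gE (φ : ℝ) : ℝ := 2 / 5 + He * Real.cos φ
def gR (φ : ℝ) : ℝ := (fx 1 He φ).1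
def gP (φ : ℝ) : ℝ := (fx 1 He φ).2
def gG (σ φ : ℝ) : ℝ :=
  2 * (72 / 125 * (gE φ + 6 / 5) + σ * (18 / 25) * gP φ) / ((gE φ + 6 / 5) ^ 2 + (18 / 25) ^ 2)
def gG2 (σ φ : ℝ) : ℝ := 72 / 125 - 3 / 5 * gG σ φ
def gS (σ φ : ℝ) : ℝ := σ * (gE φ * gG σ φ - 2 * gG2 σ φ) / (18 / 25)
def gS2 (σ φ : ℝ) : ℝ := (gE φ * gS σ φ + σ * (18 / 25) * gG σ φ) / 2

def T2 (r S2 τ : ℝ) : ℝ := τ - Real.sin τ + r * Real.sin τ + S2 * (1 - Real.cos τ)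
def T3 (r S τ : ℝ) : ℝ := r * τ + S * τ ^ 2 / 2 + τ ^ 3 / 6
def U2 (r S2 G2 τ : ℝ) : ℂ :=
  ⟨Real.cos (τ / 2) + S2 / r * Real.sin (τ / 2), G2 / r * Real.sin (τ / 2)⟩
def U3 (r S G τ : ℝ) : ℂ := ⟨1 + S / r * τ / 2, G / r * τ / 2⟩

/-- the relations between the data of a collision state -/
structure Dat (r S G S2 G2 η : ℝ) : Prop where
  r0 : 0 < r
  r1 : r ≤ 1088 / 625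
  e3 : S ^ 2 + G ^ 2 = 2 * r
  e2 : S2 ^ 2 + G2 ^ 2 = r * (2 - r)
  dot : S * S2 + G * G2 = η * r

/-- equal times -/
def Syn (r S S2 τ2 τ3 : ℝ) : Prop := 0 ≤ τ2 ∧ 0 ≤ τ3 ∧ T2 r S2 τ2 = T3 r S τ3

/-- the closed first quadrant -/
def Q1 (z : ℂ) : Prop := 0 ≤ z.re ∧ 0 ≤ z.im

def pH : ℝ := Real.arccos (14 / 25 / He)
def pK : ℝ := Real.arccos (-(34 / 25) / He)
def pB : ℝ := 2 * Real.pi - Real.arccos (-(13 / 10) / He)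

/-- G1: closed forms. -/
def G1Stmt : Prop :=
  ∀ σ : ℝ, σ = 1 ∨ σ = -1 → ∀ φ τ : ℝ,
    w2b σ (fK 1 He) (r2c (fx 1 He φ)) τ = √(gR φ) * U2 (gR φ) (gS2 σ φ) (gG2 σ φ) τ ∧
    w3b σ (fK 1 He) (r2c (fx 1 He φ)) τ = √(gR φ) * U3 (gR φ) (gS σ φ) (gG σ φ) τ ∧
    t2b σ (fK 1 He) (r2c (fx 1 He φ)) τ = T2 (gR φ) (gS2 σ φ) τ ∧
    t3b σ (fK 1 He) (r2c (fx 1 He φ)) τ = T3 (gR φ) (gS σ φ) τ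

/-- G2: identities, continuity, symmetry. -/
def G2Stmt : Prop :=
  (∀ σ : ℝ, σ = 1 ∨ σ = -1 → (∀ φ, Dat (gR φ) (gS σ φ) (gG σ φ) (gS2 σ φ) (gG2 σ φ) (gE φ)) ∧
    Continuous (gS σ) ∧ Continuous (gG σ) ∧ Continuous (gS2 σ) ∧ Continuous (gG2 σ)) ∧
  Continuous gR ∧ ∀ φ, gP φ = gS2 1 φ + 3 / 5 * gS 1 φ ∧ gR (-φ) = gR φ ∧ gE (-φ) = gE φ ∧
    gG (-1) (-φ) = gG 1 φ ∧ gG2 (-1) (-φ) = gG2 1 φ ∧ gS (-1) (-φ) = -gS 1 φ ∧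
    gS2 (-1) (-φ) = -gS2 1 φ

/-- G3: special points and the two chains. -/
def G3Stmt : Prop :=
  (pH < Real.pi / 2 ∧ Real.pi / 2 < pK ∧ pK < Real.pi ∧ Real.pi < pB) ∧
  (gR pH = 32 / 25 ∧ gS 1 pH = 32 / 25 ∧ gG 1 pH = 24 / 25 ∧ gS2 1 pH = 24 / 25 ∧ gG2 1 pH = 0) ∧
  (gR pK = 32 / 25 ∧ gS 1 pK = -(32 / 25) ∧ gG 1 pK = 24 / 25 ∧ gS2 1 pK = 24 / 25 ∧
    gG2 1 pK = 0) ∧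
  (gR (Real.pi / 2) = 1038 / 625 ∧ 32 / 25 ≤ gS 1 (Real.pi / 2) ∧ gS 1 (Real.pi / 2) ≤ 641 / 500 ∧
    361 / 500 ≤ gS2 1 (Real.pi / 2) ∧ gS2 1 (Real.pi / 2) ≤ 181 / 250 ∧
    162 / 125 ≤ gG 1 (Real.pi / 2) ∧ gG2 1 (Real.pi / 2) < 0) ∧
  gG 1 pB < 0 ∧
  (∀ φ ∈ Icc pH pK, 24 / 25 ≤ gG 1 φ ∧ gG2 1 φ ≤ 0 ∧ 32 / 25 ≤ gR φ) ∧
  ∀ φ ∈ Icc pK pB, 0 ≤ gG2 1 φ ∧ gS 1 φ ≤ -(59 / 50) ∧ gE φ ≤ -(9 / 10) ∧ 0 ≤ gS2 1 φ ∧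
    6 / 5 ≤ gR φ ∧ gR φ ≤ 27 / 20 ∧ gG 1 φ ^ 2 ≤ 1

/-- K1: the window before the first return of the second body. -/
def K1Stmt : Prop :=
  ∀ r S G S2 G2 η τ2 τ3 : ℝ, Dat r S G S2 G2 η → Syn r S S2 τ2 τ3 →
    (τ2 = 0 ↔ τ3 = 0) ∧ (τ2 + τ3 ≤ 83 / 10 - S → τ2 < 2 * Real.pi) ∧
    (τ2 + τ3 = 83 / 10 - S → 6 / 5 ≤ r → 0 < τ2 ∧ (U2 r S2 G2 τ2).re < 0)

/-- K2: the second chain. -/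
def K2Stmt : Prop :=
  ∀ r S G S2 G2 η τ2 τ3 : ℝ, Dat r S G S2 G2 η → Syn r S S2 τ2 τ3 → S ≤ -(59 / 50) →
    η ≤ -(9 / 10) → 0 ≤ S2 → r ≤ 27 / 20 → G ^ 2 ≤ 1 → (τ2 + τ3 ≤ 11 / 2 → τ2 ≤ Real.pi) ∧
    (τ2 + τ3 = 11 / 2 → (U3 r S G τ3).re < 0 ∧ (U3 r S G τ3 * conj (U2 r S2 G2 τ2)).re < 0)

/-- K3: the vertical part. -/
def K3Stmt : Prop :=
  ∀ τ2 τ3 : ℝ, Syn (32 / 25) (-(32 / 25)) (24 / 25) τ2 τ3 → 11 / 2 ≤ τ2 + τ3 → 2 < τ3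

/-- K4: the side with a radial second body. -/
def K4Stmt : Prop :=
  ∀ (τ2 τ3 : ℝ) (ζ : ℂ), Syn (32 / 25) (32 / 25) (24 / 25) τ2 τ3 → τ2 + τ3 ≤ 351 / 50 → Q1 ζ →
    ζ.re ≤ 1 ∨ ζ.re ≤ 2 * ζ.im →
    U3 (32 / 25) (32 / 25) (24 / 25) τ3 = ζ * U2 (32 / 25) (24 / 25) 0 τ2 → ζ = 1

/-- K5: the side with a retrograde second body. -/
def K5Stmt : Prop :=
  ∀ (S G S2 G2 η τ2 τ3 : ℝ) (l : ℂ), Dat (1038 / 625) S G S2 G2 η → Syn (1038 / 625) S S2 τ2 τ3 →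
    -(641 / 500) ≤ S → S ≤ -(32 / 25) → -(181 / 250) ≤ S2 → S2 ≤ -(361 / 500) → 162 / 125 ≤ G →
    G2 < 0 → τ2 < 2 * Real.pi → l.im ≤ 0 → -2 * l.im ≤ l.re → ‖l‖ ^ 2 ≤ l.re →
    U2 (1038 / 625) S2 G2 τ2 = l * U3 (1038 / 625) S G τ3 → l = 1

/-- closeness to the limit family -/
def Near (σ δ sa : ℝ) (w2 w3 : ℝ × ℝ → ℂ) : Prop :=
  ∀ φ, ∀ s ∈ Icc 0 sa, ∃ τ2 τ3 : ℝ, 0 ≤ τ2 ∧ 0 ≤ τ3 ∧ τ2 + τ3 = s ∧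
    |T2 (gR φ) (gS2 σ φ) τ2 - T3 (gR φ) (gS σ φ) τ3| ≤ δ ∧
    ‖w2 (φ, s) - √(gR φ) * U2 (gR φ) (gS2 σ φ) (gG2 σ φ) τ2‖ ≤ δ ∧
    ‖w3 (φ, s) - √(gR φ) * U3 (gR φ) (gS σ φ) (gG σ φ) τ3‖ ≤ δ

/-- PLUS: the region around `0`. -/
def PlusStmt : Prop :=
  ∀ P : Set ℂ, IsCompact P → (∀ ζ ∈ P, Q1 ζ ∧ (ζ.re ≤ 1 ∨ ζ.re ≤ 2 * ζ.im) ∧ ζ ≠ 1) →
    ∃ δ : ℝ, 0 < δ ∧ ∀ w2 w3 : ℝ × ℝ → ℂ, ContinuousOn w2 (univ ×ˢ Icc 0 11) →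
      ContinuousOn w3 (univ ×ˢ Icc 0 11) → Near 1 δ 11 w2 w3 →
      ∀ ζ : ℂ, (∀ t ∈ Icc (0 : ℝ) 1, t * ζ ∈ P) →
        ∃ φ, ∃ s ∈ Icc (0 : ℝ) 11, w3 (φ, s) = ζ * w2 (φ, s)

/-- MINUS: the region around infinity. -/
def MinusStmt : Prop :=
  ∀ P : Set ℂ, IsCompact P → (∀ l ∈ P, l.im ≤ 0 ∧ -2 * l.im ≤ l.re ∧ ‖l‖ ^ 2 ≤ l.re ∧ l ≠ 1) →
    ∃ δ : ℝ, 0 < δ ∧ ∀ w2 w3 : ℝ × ℝ → ℂ, ContinuousOn w2 (univ ×ˢ Icc 0 11) →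
      ContinuousOn w3 (univ ×ˢ Icc 0 11) → Near (-1) δ 11 w2 w3 →
      ∀ l : ℂ, (∀ t ∈ Icc (0 : ℝ) 1, ∃ l' ∈ P, ‖t * l - l'‖ ≤ δ) →
        ∃ φ, ∃ s ∈ Icc (0 : ℝ) 11, w2 (φ, s) = l * w3 (φ, s)

/-- the directions at the encounters -/
structure Dirs (γ β a b : ℝ) (c p : ℝ → ℂ) : Prop where
  unit : ∀ φ, ‖c φ‖ = 1 ∧ ‖p φ‖ = 1 ∧ 0 ≤ (p φ).re
  bot : ∀ φ, (c φ ^ 2).re ≤ -γ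
  sH : (∀ t ∈ Icc (0 : ℝ) 1, γ ≤ (c a ^ 2 * (t * (p a).re + I * (p a).im) ^ 2).re) ∧
    γ ≤ (c a ^ 2 * p a ^ 2).im
  sP : c Real.pi ^ 2 = -1 ∧ β ≤ (p Real.pi).im
  jun : ∀ φ ∈ Icc Real.pi b, (c φ ^ 2 * p φ ^ 2).im ≤ -β
  sB : (c b ^ 2 * p b ^ 2).re ≤ -γ ∧ (c b ^ 2 * p b ^ 2).im ≤ -γ
  top : ∀ φ, (c φ ^ 2 * p φ ^ 2).re ≤ -γ ∨ γ ≤ (c φ ^ 2 * p φ ^ 2).im

/-- DIR: the directions for `M < 1`. -/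
def DirStmt : Prop :=
  ∃ δ γ : ℝ, 0 < δ ∧ 0 < γ ∧ ∀ Mb : ℝ, Mb < 1 → ∃ β : ℝ, 0 < β ∧ ∀ M ∈ Icc (1 - δ) Mb,
    ∃ c p : ℝ → ℂ, Dirs γ β pH pB c p ∧ ∀ φ,
      eb 1 1 (fK M He) (r2c (fx M He φ)) = c φ * p φ ∧
      eb 1 (-1) (fK M He) (r2c (fx M He φ)) = c φ * conj (p φ) ∧
      eb (-1) (-1) (fK M He) (r2c (fx M He (-φ))) = I * conj (c φ * p φ) ∧
      eb (-1) 1 (fK M He) (r2c (fx M He (-φ))) = I * conj (c φ * conj (p φ)) ∧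
      (φ ∈ Icc pH pB → 1 ≤ (fx M He φ).1 ∧ (fx M He φ).1 ≤ 2)

end Pool.Agent.MP_1ba41f_an.S2.CV
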