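import Pool.Agent.MP_1ba41f_an.S2.CV.CSpec

/-! The covering near the collision of the small bodies. -/

set_option autoImplicit false

noncomputable section
open Set Complex Filter Topology
open scoped ComplexConjugate

namespace Pool.Agent.MP_1ba41f_an.S2.CV

/-- outside the second quadrant -/
def Good (z : ℂ) : Prop := z = 0 ∨ 0 < z.re ∨ z.im < 0

theorem real_of_not_slit {d z : ℂ} (hd : d ≠ 0) (h : (z / d).im = 0) :
    z.re = (z / d).re * d.re ∧ z.im = (z / d).re * d.im ∧ ‖z‖ = |(z / d).re| * ‖d‖ := by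
  have e : z = ((z / d).re : ℂ) * d := by
    rw [show (((z / d).re : ℝ) : ℂ) = z / d from Complex.ext (by simp) (by simp [h]),
      div_mul_cancel₀ _ hd]
  refine ⟨?_, ?_, ?_⟩
  · simpa using congrArg re e
  · simpa using congrArg im e
  · simpa using congrArg norm e

theorem Good.slit {d z : ℂ} (hd : d ≠ 0) (h1 : d.re ≤ 0) (h2 : 0 ≤ d.im) (h : Good z) :
    1 - z / d ∈ slitPlane := by
  by_contra hn
  simp only [mem_slitPlane_iff, not_or, not_lt, not_not, sub_re, one_re, sub_im, one_im, ne_eq,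
    zero_sub, neg_eq_zero] at hn
  obtain ⟨a1, a2, -⟩ := real_of_not_slit hd hn.2
  rcases h with rfl | h | h
  · norm_num at hn
  · nlinarith [hn.1]
  · nlinarith [hn.1]

theorem top_slit {d z : ℂ} (hd : d ≠ 0) (h1 : d.re ≤ 0) (h2 : 0 ≤ d.im) (h3 : ‖d‖ < ‖z‖)
    (h : z.re < 0 ∨ 0 < z.im) : -(1 - z / d) ∈ slitPlane := by
  by_contra hn
  simp only [mem_slitPlane_iff, not_or, not_lt, not_not, neg_sub, sub_re, one_re, sub_im, one_im,
    ne_eq, sub_zero] at hn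
  obtain ⟨a1, a2, a3⟩ := real_of_not_slit hd hn.2
  have a4 : 1 < |(z / d).re| := by
    by_contra a
    nlinarith [norm_nonneg d, not_lt.1 a]
  have a5 : (z / d).re < 0 := by
    rcases lt_abs.1 a4 with a | a <;> linarith [hn.1]
  rcases h with h | h <;> nlinarith

theorem im_quot {d z : ℂ} (hd : d ≠ 0) (h1 : d.re ≤ 0) (h2 : 0 ≤ d.im) (h3 : 0 < z.re)
    (h4 : 0 < z.im) : (z / d).im < 0 := by
  rw [div_im, ← sub_div]
  refine div_neg_of_neg_of_pos ?_ (normSq_pos.2 hd)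
  have : d.re < 0 ∨ 0 < d.im := by
    by_contra h
    push Not at h
    exact hd (Complex.ext (le_antisymm h1 h.1) (le_antisymm h.2 h2))
  rcases this with h | h <;> nlinarith [mul_nonneg h3.le h2, mul_nonneg h4.le (neg_nonneg.2 h1)]

theorem core_top {a m b S st ρ : ℝ} (am : a ≤ m) (mb : m ≤ b) (hS : 0 ≤ S) (ht : 0 ≤ st)
    (hρ : 0 < ρ) {Z1 Z2 : ℝ × ℝ → ℂ} (c1 : ContinuousOn Z1 (Icc a b ×ˢ Icc 0 S))
    (c2 : ContinuousOn Z2 (Icc a b ×ˢ Icc 0 st)) (hj : ∀ φ, Z1 (φ, S) = Z2 (φ, 0))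
    (g1 : ∀ φ ∈ Icc a m, Good (Z1 (φ, 0)))
    (g2 : ∀ s ∈ Icc 0 S, Good (Z1 (a, s)) ∧ Good (Z1 (m, s)))
    (g3 : ∀ φ ∈ Icc m b, Good (Z2 (φ, 0)))
    (g4 : ∀ s ∈ Icc 0 st, (0 < (Z2 (a, s)).re ∧ 0 < (Z2 (a, s)).im) ∧
      (Z2 (b, s)).re < 0 ∧ (Z2 (b, s)).im < 0)
    (g5 : ∀ φ ∈ Icc a b, ρ < ‖Z2 (φ, st)‖ ∧ ((Z2 (φ, st)).re < 0 ∨ 0 < (Z2 (φ, st)).im))
    {d : ℂ} (h1 : d.re ≤ 0) (h2 : 0 ≤ d.im) (h3 : ‖d‖ ≤ ρ) :
    ∃ φ ∈ Icc a b, (∃ s ∈ Icc 0 S, Z1 (φ, s) = d) ∨ ∃ s ∈ Icc 0 st, Z2 (φ, s) = d := by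
  let Z : ℝ × ℝ → ℂ := fun x => Z1 (x.1, min x.2 S) + Z2 (x.1, max x.2 S - S) - Z2 (x.1, 0)
  have e1 : ∀ φ v, v ≤ S → Z (φ, v) = Z1 (φ, v) := fun φ v h => by
    simp [Z, min_eq_left h, max_eq_right h]
  have e2 : ∀ φ v, S ≤ v → Z (φ, v) = Z2 (φ, v - S) := fun φ v h => by
    simp [Z, min_eq_right h, max_eq_left h, hj]
  have ab := am.trans mb
  have cZ : ContinuousOn Z (Icc a b ×ˢ Icc 0 (S + st)) := by
    refine ((c1.comp (Continuous.continuousOn (by fun_prop)) fun x hx => ⟨hx.1, ?_, ?_⟩).add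
      (c2.comp (Continuous.continuousOn (by fun_prop)) fun x hx => ⟨hx.1, ?_, ?_⟩)).sub
      (c2.comp (Continuous.continuousOn (by fun_prop)) fun x hx => ⟨hx.1, le_rfl, ht⟩)
    · exact le_min hx.2.1 hS
    · exact min_le_right _ _
    · exact sub_nonneg.2 (le_max_right _ _)
    · exact sub_le_iff_le_add'.2 (max_le hx.2.2 (le_add_of_nonneg_right ht))
  have key : ∀ d : ℂ, d ≠ 0 → d.re ≤ 0 → 0 ≤ d.im → ‖d‖ ≤ ρ →
      d ∈ Z '' (Icc a b ×ˢ Icc 0 (S + st)) := fun d hd h1 h2 h3 => by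
    have pc : ∀ u v u' v' : ℝ, IsPreconnected (Icc u v ×ˢ Icc u' v') := fun _ _ _ _ =>
      isPreconnected_Icc.prod isPreconnected_Icc
    have St : S ≤ S + st := le_add_of_nonneg_right ht
    have S0 : 0 ≤ S + st := hS.trans St
    suffices h : ∃ z ∈ Icc a b ×ˢ Icc 0 (S + st), 1 - Z z / d = 0 from
      h.imp fun z ⟨hz, e⟩ => ⟨hz, by rwa [sub_eq_zero, eq_div_iff hd, one_mul, eq_comm] at e⟩
    refine tb (R := Icc a b ×ˢ Icc 0 (S + st)) (h := fun x => 1 - Z x / d)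
      (A := Icc a a ×ˢ Icc 0 (S + st) ∪ Icc a m ×ˢ Icc 0 0 ∪ Icc m m ×ˢ Icc 0 S ∪
        Icc m b ×ˢ Icc S S ∪ Icc b b ×ˢ Icc S (S + st))
      (B := Icc a b ×ˢ Icc (S + st) (S + st)) ((convex_Icc _ _).prod (convex_Icc _ _))
      (continuousOn_const.sub (cZ.div_const d))
      (((((pc _ _ _ _).union (a, 0) (by simp [S0]) (by simp [am]) (pc _ _ _ _)).union (m, 0)
        (by simp [am]) (by simp [hS]) (pc _ _ _ _)).union (m, S) (by simp [hS]) (by simp [mb])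
        (pc _ _ _ _)).union (b, S) (by simp [mb]) (by simp [ht]) (pc _ _ _ _)) (pc _ _ _ _)
      (by
        simp only [union_subset_iff]
        refine ⟨⟨⟨⟨?_, ?_⟩, ?_⟩, ?_⟩, ?_⟩ <;> refine prod_mono ?_ ?_ <;>
          refine Icc_subset_Icc ?_ ?_ <;> first | assumption | rfl)
      (prod_mono Subset.rfl (Icc_subset_Icc S0 le_rfl)) (fun x hx => Good.slit hd h1 h2 ?_)
      (fun x hx => ?_) (x := (b, S + st)) (y := (a, S + st)) (by simp [ht]) (by simp [ab])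
      (by simp [S0]) (by simp [ab]) ?_ ?_
    · obtain ⟨φ, v⟩ := x
      simp only [mem_union, Icc_self, mem_prod, mem_singleton_iff] at hx
      rcases hx with (((⟨rfl, h⟩ | ⟨h, rfl⟩) | ⟨rfl, h⟩) | ⟨h, rfl⟩) | ⟨rfl, h⟩
      · rcases le_total v S with h' | h'
        · rw [e1 _ _ h']; exact (g2 v ⟨h.1, h'⟩).1
        · rw [e2 _ _ h']
          exact Or.inr (Or.inl (g4 _ ⟨sub_nonneg.2 h', sub_le_iff_le_add'.2 h.2⟩).1.1)
      · rw [e1 _ _ hS]; exact g1 φ h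
      · rw [e1 _ _ h.2]; exact (g2 v h).2
      · rw [e2 _ _ le_rfl, sub_self]; exact g3 φ h
      · rw [e2 _ _ h.1]
        exact Or.inr (Or.inr (g4 _ ⟨sub_nonneg.2 h.1, sub_le_iff_le_add'.2 h.2⟩).2.2)
    · obtain ⟨φ, v⟩ := x
      simp only [Icc_self, mem_prod, mem_singleton_iff] at hx
      obtain ⟨h, rfl⟩ := hx
      rw [e2 _ _ St, add_sub_cancel_left]
      exact top_slit hd h1 h2 (h3.trans_lt (g5 φ h).1) (g5 φ h).2
    · obtain ⟨-, u1, u2⟩ := g4 st (right_mem_Icc.2 ht)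
      have := im_quot hd h1 h2 (z := -Z2 (b, st)) (by simpa using u1) (by simpa using u2)
      rw [e2 _ _ St, add_sub_cancel_left]
      simpa [neg_div] using this
    · obtain ⟨⟨u1, u2⟩, -⟩ := g4 st (right_mem_Icc.2 ht)
      rw [e2 _ _ St, add_sub_cancel_left]
      simpa using im_quot hd h1 h2 u1 u2
  have key' : d ∈ Z '' (Icc a b ×ˢ Icc 0 (S + st)) := by
    by_cases hd : d = 0
    · have cl := ((isCompact_Icc.prod isCompact_Icc).image_of_continuousOn cZ).isClosed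
      have t : Tendsto (fun x : ℝ => -(x : ℂ)) (𝓝[>] 0) (𝓝 d) := by
        have : Continuous fun x : ℝ => -(x : ℂ) := by fun_prop
        simpa [hd] using (this.tendsto 0).mono_left nhdsWithin_le_nhds
      refine cl.mem_of_tendsto t ?_
      filter_upwards [Ioc_mem_nhdsGT hρ] with x hx
      exact key _ (by simpa using hx.1.ne') (by simpa using hx.1.le) (by simp)
        (by simpa [abs_of_pos hx.1] using hx.2)
    · exact key d hd h1 h2 h3
  obtain ⟨⟨φ, v⟩, hx, e⟩ := key'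
  refine ⟨φ, hx.1, ?_⟩
  rcases le_total v S with h | h
  · exact Or.inl ⟨v, ⟨hx.2.1, h⟩, (e1 _ _ h).symm.trans e⟩
  · exact Or.inr ⟨v - S, ⟨sub_nonneg.2 h, sub_le_iff_le_add'.2 hx.2.2⟩, (e2 _ _ h).symm.trans e⟩

end Pool.Agent.MP_1ba41f_an.S2.CV
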