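import Pool.Agent.MP_1ba41f_an.S2.CV.Core

/-! The covering near the collision: the estimates. -/

set_option autoImplicit false

noncomputable section
open Set Complex
open scoped ComplexConjugate

namespace Pool.Agent.MP_1ba41f_an.S2.CV

/-- `z` has nearly the direction of `P` -/
def Dn (z P : ℂ) (η : ℝ) : Prop := ∃ a : ℝ, 0 < a ∧ ‖z - a * P‖ ≤ a * η

section
variable {z P : ℂ} {η : ℝ}

theorem Dn.re_pos (h : Dn z P η) (h' : η < P.re) : 0 < z.re := by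
  obtain ⟨a, ha, h⟩ := h
  have := (abs_le.1 ((abs_re_le_norm _).trans h)).1
  simp only [sub_re, re_ofReal_mul] at this
  nlinarith

theorem Dn.re_neg (h : Dn z P η) (h' : P.re < -η) : z.re < 0 := by
  obtain ⟨a, ha, h⟩ := h
  have := (abs_le.1 ((abs_re_le_norm _).trans h)).2
  simp only [sub_re, re_ofReal_mul] at this
  nlinarith

theorem Dn.im_pos (h : Dn z P η) (h' : η < P.im) : 0 < z.im := by
  obtain ⟨a, ha, h⟩ := h
  have := (abs_le.1 ((abs_im_le_norm _).trans h)).1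
  simp only [sub_im, im_ofReal_mul] at this
  nlinarith

theorem Dn.im_neg (h : Dn z P η) (h' : P.im < -η) : z.im < 0 := by
  obtain ⟨a, ha, h⟩ := h
  have := (abs_le.1 ((abs_im_le_norm _).trans h)).2
  simp only [sub_im, im_ofReal_mul] at this
  nlinarith

end

theorem ne_of_near {Q : ℂ} {r ε : ℝ} (hr : 0 < r) (hε : ε ≤ 1 / 2) (hQ : ‖Q - r‖ ≤ r * ε) :
    r / 2 ≤ ‖Q‖ := by
  have := norm_sub_norm_le (r : ℂ) Q
  rw [norm_sub_rev, norm_real, Real.norm_eq_abs, abs_of_pos hr] at this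
  nlinarith

theorem dirL {D Q P : ℂ} {a r ε B : ℝ} (ha : 0 < a) (hr : 0 < r) (hε : ε ≤ 1 / 2)
    (hD : ‖D - a * P‖ ≤ a * ε) (hQ : ‖Q - r‖ ≤ r * ε) (hP : ‖P‖ ≤ B) :
    ‖D / Q - (a / r : ℝ) * P‖ ≤ a / r * (2 * (1 + B) * ε) := by
  have h1 := ne_of_near hr hε hQ
  have h2 : 0 < ‖Q‖ := by linarith
  have h3 : Q ≠ 0 := norm_pos_iff.1 h2
  have h4 : (r : ℂ) ≠ 0 := by exact_mod_cast hr.ne'
  have h0 : 0 ≤ ε := nonneg_of_mul_nonneg_right ((norm_nonneg _).trans hQ) hr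
  have hB := (norm_nonneg _).trans hP
  have e : D / Q - (a / r : ℝ) * P = ((D - a * P) - (a / r : ℝ) * P * (Q - r)) / Q := by
    push_cast
    field_simp
    ring
  have h5 : ‖((a / r : ℝ) : ℂ) * P * (Q - r)‖ ≤ a / r * B * (r * ε) := by
    rw [norm_mul, norm_mul, norm_real, Real.norm_eq_abs, abs_of_pos (div_pos ha hr)]
    gcongr
  rw [e, norm_div, div_le_iff₀ h2]
  calc _ ≤ a * ε + a / r * B * (r * ε) := (norm_sub_le _ _).trans (add_le_add hD h5)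
    _ = a / r * (2 * (1 + B) * ε) * (r / 2) := by field_simp
    _ ≤ _ := by gcongr

theorem sq_unit {x y : ℂ} {μ : ℝ} (hx : ‖x‖ = 1) (hy : ‖y‖ = 1) (h : ‖x - y‖ ≤ μ) :
    ‖x ^ 2 - y ^ 2‖ ≤ 2 * μ := by
  rw [sq_sub_sq, norm_mul]
  exact mul_le_mul ((norm_add_le _ _).trans (by rw [hx, hy]; norm_num)) h (norm_nonneg _)
    zero_le_two

theorem encD {w ep em c p : ℂ} {A μ s : ℝ} (hA : 0 < A) (hs : 0 ≤ s) (hμ : μ ≤ 1) (hc : ‖c‖ = 1)
    (hp : ‖p‖ = 1) (h1 : ‖ep - c * p‖ ≤ μ) (h2 : ‖em - c * conj p‖ ≤ μ)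
    (h : ‖w - A * (ep * Real.exp s - em * Real.exp (-s))‖ ≤ μ * A * Real.sinh s) :
    ∃ t ∈ Icc (0 : ℝ) 1, ∃ a : ℝ, 0 < a ∧ ‖4 * (c ^ 2 * (t * p.re + I * p.im) ^ 2)‖ ≤ 4 ∧
      ‖w ^ 2 - a * (4 * (c ^ 2 * (t * p.re + I * p.im) ^ 2))‖ ≤ a * (21 * μ) := by
  have ch := Real.cosh_pos s
  have sc := (Real.sinh_lt_cosh s).le
  have h0 := (norm_nonneg _).trans h1
  have t0 : 0 ≤ Real.sinh s / Real.cosh s := div_nonneg (Real.sinh_nonneg_iff.2 hs) ch.le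
  have t1 : Real.sinh s / Real.cosh s ≤ 1 := (div_le_one ch).2 sc
  set t := Real.sinh s / Real.cosh s with ht
  set E : ℂ := 2 * c * (t * p.re + I * p.im) with hE
  have nE : ‖E‖ ≤ 2 := by
    have : ‖(t * p.re + I * p.im : ℂ)‖ ≤ ‖p‖ := by
      refine (sq_le_sq₀ (norm_nonneg _) (norm_nonneg _)).1 ?_
      rw [Complex.sq_norm, Complex.sq_norm, normSq_apply, normSq_apply]
      simp only [add_re, add_im, mul_re, mul_im, ofReal_re, ofReal_im, I_re, I_im]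
      nlinarith [mul_nonneg (mul_nonneg (sub_nonneg.2 t1) (add_nonneg zero_le_one t0))
        (sq_nonneg p.re)]
    rw [hE, norm_mul, norm_mul, hc]
    simp only [Complex.norm_ofNat]
    linarith
  have e : w - (A * Real.cosh s : ℝ) * E = (w - A * (ep * Real.exp s - em * Real.exp (-s))) +
      A * ((ep - c * p) * Real.exp s - (em - c * conj p) * Real.exp (-s)) := by
    have p1 : p = p.re + p.im * I := (re_add_im p).symm
    have p2 : conj p = p.re - p.im * I := Complex.ext (by simp) (by simp)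
    have a1 : ((Real.cosh s : ℝ) : ℂ) * t = (Real.sinh s : ℝ) := by
      rw [← ofReal_mul, ht, mul_div_cancel₀ _ ch.ne']
    rw [p2, ← Real.cosh_add_sinh, ← Real.cosh_sub_sinh, hE, ofReal_mul, ofReal_add, ofReal_sub]
    linear_combination (A * c * (((Real.cosh s : ℝ) : ℂ) + (Real.sinh s : ℝ))) * p1 -
      2 * A * c * p.re * a1
  have n1 : ‖w - (A * Real.cosh s : ℝ) * E‖ ≤ A * Real.cosh s * (3 * μ) := by
    rw [e]
    refine (norm_add_le _ _).trans ((add_le_add h (?_ : _ ≤ A * (μ * Real.exp s +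
      μ * Real.exp (-s)))).trans ?_)
    · rw [norm_mul, norm_real, Real.norm_eq_abs, abs_of_pos hA]
      gcongr
      refine (norm_sub_le _ _).trans ?_
      rw [norm_mul, norm_mul, norm_real, norm_real, Real.norm_eq_abs, Real.norm_eq_abs,
        abs_of_pos (Real.exp_pos _), abs_of_pos (Real.exp_pos _)]
      gcongr
    · rw [← Real.cosh_add_sinh, ← Real.cosh_sub_sinh]
      nlinarith [mul_le_mul_of_nonneg_left sc (mul_nonneg h0 hA.le)]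
  have a0 := mul_pos hA ch
  set a := A * Real.cosh s
  have e2 : 4 * (c ^ 2 * (t * p.re + I * p.im) ^ 2) = E ^ 2 := by rw [hE]; ring
  refine ⟨t, ⟨t0, t1⟩, a ^ 2, by positivity, ?_, ?_⟩
  · rw [e2, norm_pow]
    nlinarith [norm_nonneg E]
  · have n2 : ‖w + a * E‖ ≤ a * (3 * μ) + 2 * (a * 2) := by
      rw [show w + a * E = (w - a * E) + 2 * (a * E) by ring]
      refine (norm_add_le _ _).trans (add_le_add n1 ?_)
      rw [norm_mul, norm_mul, norm_real, Real.norm_eq_abs, abs_of_pos a0, Complex.norm_ofNat]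
      gcongr
    rw [e2, show w ^ 2 - ((a ^ 2 : ℝ) : ℂ) * E ^ 2 = (w + a * E) * (w - a * E) by push_cast; ring,
      norm_mul]
    refine (mul_le_mul n2 n1 (norm_nonneg _) (by positivity)).trans ?_
    nlinarith [mul_nonneg (mul_nonneg (sq_nonneg a) h0) (sub_nonneg.2 hμ)]

theorem sq_diff {x y : ℂ} (hx : ‖x‖ = 1) (hy : ‖y‖ = 1) :
    (x - y) ^ 2 = (‖x - y‖ ^ 2 : ℝ) * -(x * y) := by
  have a : x * conj x = 1 := by rw [mul_conj', hx]; simp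
  have b : y * conj y = 1 := by rw [mul_conj', hy]; simp
  rw [ofReal_pow, ← mul_conj', map_sub]
  linear_combination (x - y) * y * a - (x - y) * x * b

/-- the data near the collision -/
structure CF (μ ε c0 st S : ℝ) (J : Set ℝ) (s1 : ℝ → ℝ) (u v : ℝ → ℂ) (q w Q D : ℝ × ℝ → ℂ) :
    Prop where
  spos : 0 < S
  ce : ContinuousOn q (univ ×ˢ Icc 0 S) ∧ ContinuousOn w (univ ×ˢ Icc 0 S)
  ca : ContinuousOn Q (univ ×ˢ Icc 0 st) ∧ ContinuousOn D (univ ×ˢ Icc 0 st)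
  join : ∀ φ, q (φ, S) = Q (φ, 0) ∧ w (φ, S) ^ 2 = D (φ, 0)
  enc : ∀ φ ∈ J, ∃ (A R ρ r r' : ℝ) (ep em : ℂ), 0 < A ∧ ‖ep‖ = 1 ∧ ‖em‖ = 1 ∧
    ‖ep - u φ‖ ≤ μ ∧ ‖em - v φ‖ ≤ μ ∧ 1 ≤ r ∧ 1 ≤ r' ∧ r' ≤ 2 ∧
    (∀ s ∈ Icc 0 S, ‖q (φ, s) - r‖ ≤ μ ∧
      ‖w (φ, s) - A * (ep * Real.exp s - em * Real.exp (-s))‖ ≤ μ * A * Real.sinh s) ∧
    0 < R ∧ c0 ≤ ρ ∧ (∀ e, 0 < e → ∀ s ∈ Icc 0 st, s ≤ s1 e →
      ‖D (φ, s) - (R + s * ρ) * ep ^ 2‖ ≤ μ * (R + s) + e * s) ∧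
    ∀ s ∈ Icc 0 st, ‖Q (φ, s) - r'‖ ≤ r' * ε

theorem CF.mir {μ ε c0 st S : ℝ} {J J' : Set ℝ} {s1 : ℝ → ℝ} {u v u' v' : ℝ → ℂ}
    {q w Q D : ℝ × ℝ → ℂ} (h : CF μ ε c0 st S J s1 u v q w Q D)
    (hJ : ∀ φ ∈ J', -φ ∈ J ∧ u (-φ) = I * conj (u' φ) ∧ v (-φ) = I * conj (v' φ)) :
    CF μ ε c0 st S J' s1 u' v' (fun x => conj (q (-x.1, x.2))) (fun x => I * conj (w (-x.1, x.2)))
      (fun x => conj (Q (-x.1, x.2))) fun x => -conj (D (-x.1, x.2)) := by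
  have c : ∀ {f : ℝ × ℝ → ℂ} {T : ℝ}, ContinuousOn f (univ ×ˢ Icc 0 T) →
      ContinuousOn (fun x : ℝ × ℝ => conj (f (-x.1, x.2))) (univ ×ˢ Icc 0 T) := fun hf =>
    continuous_conj.comp_continuousOn (hf.comp (Continuous.continuousOn (by fun_prop))
      fun x hx => ⟨mem_univ _, hx.2⟩)
  have n : ∀ {x y : ℂ} {t : ℝ} (k : ℂ), ‖k‖ = 1 → ‖x‖ ≤ t → y = k * conj x → ‖y‖ ≤ t := by
    rintro x y t k hk hx rfl
    rwa [norm_mul, hk, one_mul, norm_conj]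
  refine ⟨h.spos, ⟨c h.ce.1, continuousOn_const.mul (c h.ce.2)⟩, ⟨c h.ca.1, (c h.ca.2).neg⟩,
    fun φ => ⟨by rw [(h.join _).1], by rw [← (h.join _).2, mul_pow, I_sq, map_pow, neg_one_mul]⟩,
    fun φ hφ => ?_⟩
  obtain ⟨j1, j2, j3⟩ := hJ φ hφ
  obtain ⟨A, R, ρ, r, r', ep, em, hA, n1, n2, e1, e2, r1, r2, r3, hq, hR, hρ, hd, hQ⟩ :=
    h.enc _ j1
  refine ⟨A, R, ρ, r, r', I * conj ep, I * conj em, hA, by simp [n1], by simp [n2],
    n I norm_I e1 ?_, n I norm_I e2 ?_, r1, r2, r3,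
    fun s hs => ⟨n 1 norm_one (hq s hs).1 (by simp), n I norm_I (hq s hs).2 ?_⟩, hR, hρ,
    fun e he s hs h1 => n (-1) (by simp) (hd e he s hs h1) ?_,
    fun s hs => n 1 norm_one (hQ s hs) (by simp)⟩
  · simp only [j2, map_sub, map_mul, conj_I, conj_conj]
    linear_combination (-u' φ) * I_mul_I
  · simp only [j3, map_sub, map_mul, conj_I, conj_conj]
    linear_combination (-v' φ) * I_mul_I
  · simp only [map_sub, map_mul, conj_ofReal]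
    ring
  · simp only [map_sub, map_mul, map_add, map_pow, conj_ofReal, mul_pow, I_sq]
    ring

theorem core {γ c0 : ℝ} (hγ : 0 < γ) (hc : 0 < c0) {s1 : ℝ → ℝ} {st : ℝ} (ht : 0 < st)
    (hs1 : st ≤ s1 (c0 * γ / 16)) {β : ℝ} (hβ : 0 < β) : ∃ μ0 : ℝ, 0 < μ0 ∧
    ∀ (μ S a b : ℝ) (c p : ℝ → ℂ) (q w Q D : ℝ × ℝ → ℂ), μ ≤ μ0 → a ≤ Real.pi → Real.pi ≤ b →
      Dirs γ β a b c p → CF μ (γ / 8) c0 st S (Icc a b) s1 (fun φ => c φ * p φ)
        (fun φ => c φ * conj (p φ)) q w Q D →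
      ∀ d : ℂ, d.re ≤ 0 → 0 ≤ d.im → ‖d‖ ≤ st * c0 / 8 →
        ∃ φ, (∃ s ∈ Icc 0 S, w (φ, s) ^ 2 = d * q (φ, s)) ∨
          ∃ s ∈ Icc 0 st, D (φ, s) = d * Q (φ, s) := by
  refine ⟨min (min (γ / 1000) (γ / (16 * (3 + 1 / c0)))) (min (β / 1000) (β ^ 2 / 1000)),
    by positivity, fun μ S a b c p q w Q D hμ am mb hD hF d d1 d2 d3 => ?_⟩
  simp only [le_min_iff] at hμ
  obtain ⟨⟨m1, m2⟩, m3, m4⟩ := hμ
  have γ1 : γ ≤ 1 := by
    have := (abs_le.1 (abs_re_le_norm (c 0 ^ 2))).1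
    rw [norm_pow, (hD.unit 0).1] at this
    linarith [hD.bot 0]
  have nP : ∀ φ, ‖c φ * p φ‖ = 1 := fun φ => by rw [norm_mul, (hD.unit φ).1, (hD.unit φ).2.1, mul_one]
  have nP2 : ∀ φ, ‖c φ ^ 2 * p φ ^ 2‖ = 1 := fun φ => by rw [← mul_pow, norm_pow, nP, one_pow]
  have hS := hF.spos.le
  have ab := am.trans mb
  have F : ∀ φ ∈ Icc a b, (∀ s ∈ Icc 0 S, q (φ, s) ≠ 0 ∧ ∃ t ∈ Icc (0 : ℝ) 1,
      Dn (w (φ, s) ^ 2 / q (φ, s)) (4 * (c φ ^ 2 * (t * (p φ).re + I * (p φ).im) ^ 2)) (210 * μ)) ∧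
      (w (φ, 0) ^ 2 / q (φ, 0) = 0 ∨ Dn (w (φ, 0) ^ 2 / q (φ, 0)) (-(c φ ^ 2)) (8 * μ)) ∧
      Dn (D (φ, 0) / Q (φ, 0)) (c φ ^ 2 * p φ ^ 2) (12 * μ) ∧
      (∀ s ∈ Icc 0 st, Q (φ, s) ≠ 0 ∧ Dn (D (φ, s) / Q (φ, s)) (c φ ^ 2 * p φ ^ 2) (γ / 2)) ∧
      st * c0 / 8 < ‖D (φ, st) / Q (φ, st)‖ := fun φ hφ => by
    obtain ⟨A, R, ρ, r, r', ep, em, hA, n1, n2, e1, e2, r1, r2, r3, hq, hR, hρ, hd, hQ⟩ :=
      hF.enc φ hφ
    obtain ⟨u1, u2, -⟩ := hD.unit φ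
    have μ0 := (norm_nonneg _).trans e1
    have r0 : 0 < r := by linarith
    have r0' : 0 < r' := by linarith
    have sP : ‖ep ^ 2 - c φ ^ 2 * p φ ^ 2‖ ≤ 2 * μ := by rw [← mul_pow]; exact sq_unit n1 (nP φ) e1
    have hq' : ∀ k : ℝ, 1 ≤ k → ∀ s ∈ Icc 0 S, ‖q (φ, s) - r‖ ≤ r * (k * μ) := fun k hk s hs =>
      (hq s hs).1.trans (by nlinarith [mul_nonneg μ0 (sub_nonneg.2 (one_le_mul_of_one_le_of_one_le r1 hk))])
    have arc : ∀ s ∈ Icc 0 st, ∀ x : ℝ, μ * (R + s) + c0 * γ / 16 * s ≤ (R + s * ρ) * x →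
        ‖D (φ, s) - (R + s * ρ : ℝ) * (c φ ^ 2 * p φ ^ 2)‖ ≤ (R + s * ρ) * (x + 2 * μ) :=
      fun s hs x hx => by
        have a0 : 0 ≤ R + s * ρ := add_nonneg hR.le (mul_nonneg hs.1 (hc.le.trans hρ))
        rw [show D (φ, s) - (R + s * ρ : ℝ) * (c φ ^ 2 * p φ ^ 2) = (D (φ, s) - (R + s * ρ) * ep ^ 2)
          + (R + s * ρ : ℝ) * (ep ^ 2 - c φ ^ 2 * p φ ^ 2) by push_cast; ring, mul_add]
        refine (norm_add_le _ _).trans (add_le_add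
          ((hd _ (by positivity) s hs (hs.2.trans hs1)).trans hx) ?_)
        rw [norm_mul, norm_real, Real.norm_eq_abs, abs_of_nonneg a0]
        gcongr
    have arc2 : ∀ s ∈ Icc 0 st, ‖D (φ, s) / Q (φ, s) - ((R + s * ρ) / r' : ℝ) *
        (c φ ^ 2 * p φ ^ 2)‖ ≤ (R + s * ρ) / r' * (2 * (1 + 1) * (γ / 8)) := fun s hs => by
      have s0 := mul_le_mul_of_nonneg_left hρ hs.1
      have s0' := mul_nonneg hs.1 hc.le
      refine dirL (by linarith) r0' (by linarith) ?_ (hQ s hs) (nP2 φ).le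
      have := arc s hs (γ / 8 - 2 * μ) (by
        have b1 : μ * (3 + 1 / c0) ≤ γ / 16 := by
          rw [le_div_iff₀ (by positivity)] at m2
          linarith
        have b2 : s ≤ (R + s * ρ) * (1 / c0) := by
          rw [mul_one_div, le_div_iff₀ hc]
          linarith
        have b3 := mul_le_mul_of_nonneg_left b1 (by linarith : 0 ≤ R + s * ρ)
        nlinarith [mul_le_mul_of_nonneg_left b2 μ0, mul_nonneg μ0 (s0'.trans s0),
          mul_le_mul_of_nonneg_left s0 hγ.le, mul_pos hR hγ])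
      rwa [sub_add_cancel] at this
    refine ⟨fun s hs => ⟨fun e => ?_, ?_⟩, ?_, ⟨R / r, div_pos hR r0, ?_⟩, fun s hs => ⟨fun e => ?_,
      _, div_pos (by nlinarith [mul_nonneg hs.1 (hc.le.trans hρ)]) r0', (arc2 s hs).trans_eq (by ring)⟩, ?_⟩
    · have := ne_of_near r0 (by linarith) (hq' 1 le_rfl s hs)
      rw [e, norm_zero] at this
      linarith
    · obtain ⟨t, t1, x, x0, x1, x2⟩ := encD hA hs.1 (by linarith) u1 u2 e1 e2 (hq s hs).2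
      exact ⟨t, t1, _, div_pos x0 r0,
        (dirL x0 r0 (by linarith) x2 (hq' 21 (by norm_num) s hs) x1).trans_eq (by ring)⟩
    · have w0 : w (φ, 0) = A * (ep - em) := by
        simpa [sub_eq_zero] using (hq 0 (left_mem_Icc.2 hS)).2
      by_cases h : ep = em
      · exact Or.inl (by simp [w0, h])
      have x0 : 0 < A ^ 2 * ‖ep - em‖ ^ 2 := mul_pos (by positivity)
        (pow_pos (norm_pos_iff.2 (sub_ne_zero.2 h)) 2)
      refine Or.inr ⟨_, div_pos x0 r0, (dirL (ε := 2 * μ) (B := 1) x0 r0 (by linarith) ?_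
        (hq' 2 one_le_two 0 (left_mem_Icc.2 hS)) (by simp [u1])).trans_eq (by ring)⟩
      have a1 : p φ * conj (p φ) = 1 := by rw [mul_conj', u2]; simp
      rw [w0, mul_pow, sq_diff n1 n2, show (A : ℂ) ^ 2 * (((‖ep - em‖ ^ 2 : ℝ) : ℂ) * -(ep * em)) -
        ((A ^ 2 * ‖ep - em‖ ^ 2 : ℝ) : ℂ) * -(c φ ^ 2) = ((A ^ 2 * ‖ep - em‖ ^ 2 : ℝ) : ℂ) *
        -((ep - c φ * p φ) * em + c φ * p φ * (em - c φ * conj (p φ))) by
          push_cast
          linear_combination (-(A : ℂ) ^ 2 * (‖ep - em‖ : ℂ) ^ 2 * c φ ^ 2) * a1,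
        norm_mul, norm_real, Real.norm_eq_abs, abs_of_pos x0, norm_neg]
      gcongr
      refine (norm_add_le _ _).trans ?_
      rw [norm_mul, norm_mul, n2, nP]
      linarith
    · have := arc 0 (left_mem_Icc.2 ht.le) μ (by simp [mul_comm])
      simp only [zero_mul, add_zero] at this
      refine (dirL (ε := 3 * μ) hR r0 (by linarith) (this.trans_eq (by ring)) ?_ (nP2 φ).le).trans_eq
        (by ring)
      rw [← (hF.join φ).1]
      exact hq' 3 (by norm_num) S (right_mem_Icc.2 hS)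
    · have := ne_of_near r0' (by linarith) (hQ s hs)
      rw [e, norm_zero] at this
      linarith
    · have h1 := arc2 st (right_mem_Icc.2 ht.le)
      have s0 := mul_le_mul_of_nonneg_left hρ ht.le
      have s2 := mul_pos ht hc
      have x0 : st * c0 / 2 ≤ (R + st * ρ) / r' := by
        rw [le_div_iff₀ r0']
        nlinarith
      have := norm_sub_norm_le (((R + st * ρ) / r' : ℝ) * (c φ ^ 2 * p φ ^ 2)) (D (φ, st) / Q (φ, st))
      rw [norm_sub_rev, norm_mul, nP2, norm_real, Real.norm_eq_abs, abs_of_pos (by linarith)] at this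
      nlinarith [mul_le_mul_of_nonneg_left γ1 (by linarith : 0 ≤ (R + st * ρ) / r')]
  have ma : a ∈ Icc a b := left_mem_Icc.2 ab
  have mm : Real.pi ∈ Icc a b := ⟨am, mb⟩
  have mb' : b ∈ Icc a b := right_mem_Icc.2 ab
  have sub : ∀ T : ℝ, Icc a b ×ˢ Icc 0 T ⊆ univ ×ˢ Icc 0 T := fun T =>
    prod_mono (subset_univ _) Subset.rfl
  obtain ⟨φ, hφ, h⟩ := core_top (Z1 := fun x => w x ^ 2 / q x) (Z2 := fun x => D x / Q x) am mb hS
    ht.le (by positivity : 0 < st * c0 / 8)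
    (((hF.ce.2.mono (sub _)).pow 2).div (hF.ce.1.mono (sub _)) fun x hx => ((F _ hx.1).1 _ hx.2).1)
    ((hF.ca.2.mono (sub _)).div (hF.ca.1.mono (sub _)) fun x hx => ((F _ hx.1).2.2.2.1 _ hx.2).1)
    (fun φ => by simp only [(hF.join φ).1, (hF.join φ).2])
    (fun φ hφ => (F φ ⟨hφ.1, hφ.2.trans mb⟩).2.1.imp_right fun h =>
      Or.inl (h.re_pos (by rw [neg_re]; linarith [hD.bot φ])))
    (fun s hs => ⟨by
      obtain ⟨-, t, t1, h⟩ := (F a ma).1 s hs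
      refine Or.inr (Or.inl (h.re_pos ?_))
      rw [show (4 : ℂ) = (4 : ℝ) by simp, re_ofReal_mul]
      linarith [hD.sH.1 t t1], by
      obtain ⟨-, t, t1, h⟩ := (F _ mm).1 s hs
      obtain ⟨y1, y2⟩ := hD.sP
      have y3 := mul_nonneg t1.1 (hD.unit Real.pi).2.2
      have y4 := pow_le_pow_left₀ hβ.le y2 2
      have y5 := pow_pos hβ 2
      rw [y1] at h
      rcases le_total (t * (p Real.pi).re) ((p Real.pi).im / 2) with y | y
      · refine Or.inr (Or.inl (h.re_pos ?_))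
        simp [pow_two]
        nlinarith
      · refine Or.inr (Or.inr (h.im_neg ?_))
        simp [pow_two]
        nlinarith⟩)
    (fun φ hφ => Or.inr (Or.inr ((F φ ⟨am.trans hφ.1, hφ.2⟩).2.2.1.im_neg
      (by linarith [hD.jun φ hφ]))))
    (fun s hs => ⟨⟨((F a ma).2.2.2.1 s hs).2.re_pos (by
        have := hD.sH.1 1 (right_mem_Icc.2 zero_le_one)
        rw [ofReal_one, one_mul, mul_comm I, re_add_im] at this
        linarith), ((F a ma).2.2.2.1 s hs).2.im_pos (by linarith [hD.sH.2])⟩,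
      ((F b mb').2.2.2.1 s hs).2.re_neg (by linarith [hD.sB.1]),
      ((F b mb').2.2.2.1 s hs).2.im_neg (by linarith [hD.sB.2])⟩)
    (fun φ hφ => ⟨(F φ hφ).2.2.2.2, (hD.top φ).imp
      (fun h => ((F φ hφ).2.2.2.1 st (right_mem_Icc.2 ht.le)).2.re_neg (by linarith))
      fun h => ((F φ hφ).2.2.2.1 st (right_mem_Icc.2 ht.le)).2.im_pos (by linarith)⟩) d1 d2 d3
  exact ⟨φ, h.imp (fun ⟨s, hs, e⟩ => ⟨s, hs, (div_eq_iff ((F φ hφ).1 s hs).1).1 e⟩)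
    fun ⟨s, hs, e⟩ => ⟨s, hs, (div_eq_iff ((F φ hφ).2.2.2.1 s hs).1).1 e⟩⟩

end Pool.Agent.MP_1ba41f_an.S2.CV
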