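import Pool.Agent.MP_1ba41f_an.S2.CV.Core2

/-! The covering: assembly. -/

set_option autoImplicit false

noncomputable section
open Set Complex
open scoped ComplexConjugate

namespace Pool.Agent.MP_1ba41f_an.S2.CV

variable {σ M μ δ δ' c0 S : ℝ} {s1 : ℝ → ℝ} {q w w2 w3 : ℝ × ℝ → ℂ}

theorem near_of (h1 : G1Stmt) (hσ : σ = 1 ∨ σ = -1) (h : CovFam σ M μ δ c0 11 S s1 q w w2 w3)
    (hδ : δ ≤ δ') : Near σ δ' 11 w2 w3 := fun φ s hs => by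
  obtain ⟨τ2, τ3, a1, a2, a3, a4, a5, a6⟩ := h.near φ s hs
  rw [(h1 σ hσ φ τ2).2.2.1, (h1 σ hσ φ τ3).2.2.2, ← ofReal_sub, norm_real, Real.norm_eq_abs] at a4
  rw [(h1 σ hσ φ τ2).1] at a5
  rw [(h1 σ hσ φ τ3).2.1] at a6
  exact ⟨τ2, τ3, a1, a2, a3, a4.trans hδ, a5.trans hδ, a6.trans hδ⟩

theorem sq_near {r S G S2 G2 η τ ε : ℝ} {z : ℂ} (hd : Dat r S G S2 G2 η) (hr : 1 ≤ r) (h0 : 0 ≤ τ)
    (h1 : τ ≤ ε / 9) (hε : ε ≤ 1) (h : ‖z - √r * U2 r S2 G2 τ‖ ≤ ε / 9) : ‖z ^ 2 - r‖ ≤ r * ε := by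
  have r0 := hd.r0
  have b : ∀ x : ℝ, x ^ 2 ≤ r * (2 - r) → |x / r * Real.sin (τ / 2)| ≤ τ / 2 := fun x hx => by
    have : |x / r| ≤ 1 := by
      rw [abs_div, abs_of_pos r0, div_le_one r0]
      exact abs_le_of_sq_le_sq (by nlinarith) r0.le
    rw [abs_mul]
    exact (mul_le_of_le_one_left (abs_nonneg _) this).trans
      (Real.abs_sin_le_abs.trans_eq (abs_of_nonneg (by linarith)))
  have b1 := abs_le.1 (b S2 (by nlinarith [hd.e2]))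
  have b2 := b G2 (by nlinarith [hd.e2])
  have b3 := Real.one_sub_sq_div_two_le_cos (x := τ / 2)
  have b4 := Real.cos_le_one (τ / 2)
  have u : ‖U2 r S2 G2 τ - 1‖ ≤ 2 * τ := (norm_le_abs_re_add_abs_im _).trans (by
    have : |(U2 r S2 G2 τ - 1).re| ≤ τ := by
      simp only [U2, sub_re, one_re]
      exact abs_le.2 ⟨by nlinarith, by linarith⟩
    simp only [U2, sub_im, one_im, sub_zero] at this ⊢
    linarith)
  have s1 : 1 ≤ √r := Real.one_le_sqrt.2 hr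
  have s2 : ‖((√r : ℝ) : ℂ)‖ = √r := by rw [norm_real, Real.norm_eq_abs, abs_of_nonneg (by linarith)]
  have v : ‖z - √r‖ ≤ √r * (ε / 3) := by
    rw [show z - √r = (z - √r * U2 r S2 G2 τ) + √r * (U2 r S2 G2 τ - 1) by ring]
    refine (norm_add_le _ _).trans ?_
    rw [norm_mul, s2]
    nlinarith [mul_le_mul_of_nonneg_left u (zero_le_one.trans s1)]
  have v' : ‖z + √r‖ ≤ √r * 3 := by
    rw [show z + √r = (z - √r) + 2 * √r by ring]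
    refine (norm_add_le _ _).trans ?_
    rw [norm_mul, s2, Complex.norm_ofNat]
    nlinarith
  have e : (r : ℂ) = ((√r : ℝ) : ℂ) ^ 2 := by rw [← ofReal_pow, Real.sq_sqrt r0.le]
  rw [e, sq_sub_sq, norm_mul]
  refine (mul_le_mul v' v (norm_nonneg _) (by linarith)).trans_eq ?_
  linear_combination ε * Real.mul_self_sqrt r0.le

theorem cf_of (h1 : G1Stmt) (h2 : G2Stmt) (hσ : σ = 1 ∨ σ = -1)
    (h : CovFam σ M μ δ c0 11 S s1 q w w2 w3) {ε st : ℝ} (hε : ε ≤ 1) (hδ : δ ≤ ε / 9)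
    (ht : st ≤ ε / 9) {J : Set ℝ} (hJ : ∀ φ ∈ J, 1 ≤ (fx M He φ).1 ∧ 1 ≤ gR φ) :
    CF μ ε c0 st S J s1 (fun φ => eb σ σ (fK M He) (r2c (fx M He φ)))
      (fun φ => eb σ (-σ) (fK M He) (r2c (fx M He φ))) q w (fun x => w2 x ^ 2)
      fun x => w3 x ^ 2 - w2 x ^ 2 := by
  have sub : Icc 0 st ⊆ Icc (0 : ℝ) 11 := Icc_subset_Icc_right (by linarith)
  have c2 := (h.ca.1.mono (prod_mono Subset.rfl sub)).pow 2
  have c3 := (h.ca.2.mono (prod_mono Subset.rfl sub)).pow 2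
  refine ⟨h.spos, h.ce, ⟨c2, c3.sub c2⟩, fun φ => ⟨(h.join φ).1, ?_⟩, fun φ hφ => ?_⟩
  · linear_combination (h.join φ).2 - (h.join φ).1
  obtain ⟨A, R, ρ, ep, em, hA, n1, n2, e1, e2, hq, hR, -, hρ, -, hd⟩ := h.enc φ
  have d := (h2.1 σ hσ).1 φ
  refine ⟨A, R, ρ, _, gR φ, ep, em, hA, n1, n2, e1, e2, (hJ φ hφ).1, (hJ φ hφ).2,
    by linarith [d.r1], fun s hs => ⟨(hq s hs).1, (hq s hs).2.2⟩, hR, hρ,
    fun e he s hs => hd e he s (sub hs), fun s hs => ?_⟩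
  obtain ⟨τ2, τ3, a1, a2, a3, -, a5, -⟩ := near_of h1 hσ h hδ φ s (sub hs)
  exact sq_near d (hJ φ hφ).2 a1 (by linarith [hs.2]) hε a5

theorem exists_root {z : ℂ} (h : 0 ≤ z.im) : ∃ ζ : ℂ, ζ ^ 2 = z ∧ Q1 ζ := by
  obtain ⟨ζ, rfl⟩ := IsAlgClosed.exists_pow_nat_eq z zero_lt_two
  have e : (ζ ^ 2).im = 2 * (ζ.re * ζ.im) := by simp [pow_two]; ring
  rw [e] at h
  rcases lt_trichotomy ζ.re 0 with a | a | a
  · exact ⟨-ζ, by ring, by simpa using a.le, by simp; nlinarith⟩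
  · rcases le_total 0 ζ.im with b | b
    · exact ⟨ζ, rfl, a.ge, b⟩
    · exact ⟨-ζ, by ring, by simp [a], by simpa using b⟩
  · exact ⟨ζ, rfl, a.le, by nlinarith⟩

theorem near_one {ζ : ℂ} {ρ : ℝ} (h1 : ζ.re ≤ 1) (h2 : 1 - ρ < ζ.re - |ζ.im|) (h : ρ ≤ 1 / 2) :
    ‖ζ ^ 2 - 1‖ ≤ 3 * ρ ∧ 1 / 2 ≤ ‖ζ‖ := by
  have a : ‖ζ - 1‖ ≤ ρ := (norm_le_abs_re_add_abs_im _).trans (by
    simp only [sub_re, one_re, sub_im, one_im, sub_zero]
    rw [abs_of_nonpos (by linarith)]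
    linarith)
  have b : ‖ζ + 1‖ ≤ 3 := by
    rw [show ζ + 1 = (ζ - 1) + 2 by ring]
    exact (norm_add_le _ _).trans (by rw [Complex.norm_ofNat]; linarith)
  refine ⟨?_, by linarith [re_le_norm ζ, abs_nonneg ζ.im]⟩
  rw [show ζ ^ 2 - 1 = (ζ + 1) * (ζ - 1) by ring, norm_mul]
  exact mul_le_mul b a (norm_nonneg _) (by norm_num)

theorem coverS (h1 : G1Stmt) (h2 : G2Stmt) (h3 : G3Stmt) (hD : DirStmt) (hP : PlusStmt)
    (hM : MinusStmt) : CoverStmt := by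
  intro s1 c0 hs hc
  obtain ⟨δD, γ, δ0, γ0, hD⟩ := hD
  have hs' := hs (c0 * γ / 16) (by positivity)
  obtain ⟨st, t0, t1, t2⟩ : ∃ st : ℝ, 0 < st ∧ st ≤ s1 (c0 * γ / 16) ∧ st ≤ γ / 8 / 9 :=
    ⟨min _ _, lt_min hs' (by positivity), min_le_left _ _, min_le_right _ _⟩
  obtain ⟨ρ, ρ0, ρ1, ρ2⟩ : ∃ ρ : ℝ, 0 < ρ ∧ ρ ≤ 1 / 2 ∧ ρ ≤ st * c0 / 8 / 12 :=
    ⟨min _ _, lt_min (by norm_num) (by positivity), min_le_left _ _, min_le_right _ _⟩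
  obtain ⟨δM, m0, hM⟩ := hM (Metric.closedBall 0 1 ∩ ({l | l.im ≤ 0} ∩ {l | -2 * l.im ≤ l.re} ∩
      {l | ‖l‖ ^ 2 ≤ l.re} ∩ {l | l.re + l.im ≤ 1 - ρ}))
    ((isCompact_closedBall _ _).inter_right (by
      refine ((IsClosed.inter ?_ ?_).inter ?_).inter ?_ <;>
        exact isClosed_le (by fun_prop) (by fun_prop)))
    fun l hl => ⟨hl.2.1.1.1, hl.2.1.1.2, hl.2.1.2, fun e => by
      have := hl.2.2
      simp [e] at this
      linarith⟩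
  obtain ⟨δP, p0, hP⟩ := hP (Metric.closedBall 0 (1 / δM) ∩ ({l | 0 ≤ l.re} ∩ {l | 0 ≤ l.im} ∩
      ({l | l.re ≤ 1} ∩ {l | l.re - l.im ≤ 1 - ρ} ∪ {l | l.re ≤ 2 * l.im})))
    ((isCompact_closedBall _ _).inter_right (by
      refine (IsClosed.inter ?_ ?_).inter ((IsClosed.inter ?_ ?_).union ?_) <;>
        exact isClosed_le (by fun_prop) (by fun_prop)))
    fun l hl => ⟨hl.2.1, hl.2.2.imp_left fun h => h.1, fun e => by
      have := hl.2.2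
      simp [e] at this
      rcases this with h | h <;> linarith⟩
  refine ⟨11, min (min δD (γ / 8 / 9)) (min δM δP), by norm_num, by positivity, fun Mb hMb => ?_⟩
  obtain ⟨β, β0, hD⟩ := hD Mb hMb
  obtain ⟨μ, μ0, hC⟩ := core γ0 hc t0 t1 β0
  refine ⟨μ, μ0, fun M hMM S q w w2 w3 q' w' w2' w3' F F' => ?_⟩
  set δ := min (min δD (γ / 8 / 9)) (min δM δP)
  have d1 : δ ≤ δD := (min_le_left _ _).trans (min_le_left _ _)
  have d2 : δ ≤ γ / 8 / 9 := (min_le_left _ _).trans (min_le_right _ _)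
  have d3 : δ ≤ δM := (min_le_right _ _).trans (min_le_left _ _)
  have d4 : δ ≤ δP := (min_le_right _ _).trans (min_le_right _ _)
  obtain ⟨c, p, hd, he⟩ := hD M ⟨by linarith [hMM.1], hMM.2⟩
  have γ1 : γ / 8 ≤ 1 := by
    have := (abs_le.1 (abs_re_le_norm (c 0 ^ 2))).1
    rw [norm_pow, (hd.unit 0).1] at this
    linarith [hd.bot 0]
  obtain ⟨⟨o1, o2, o3, o4⟩, -, -, -, -, ch1, ch2⟩ := h3
  have am : pH ≤ Real.pi := by linarith
  have hJ : ∀ φ ∈ Icc pH pB, 1 ≤ (fx M He φ).1 ∧ 1 ≤ gR φ := fun φ hφ =>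
    ⟨((he φ).2.2.2.2 hφ).1, by
      rcases le_total φ pK with h | h
      · linarith [(ch1 φ ⟨hφ.1, h⟩).2.2]
      · linarith [(ch2 φ ⟨h, hφ.2⟩).2.2.2.2.1]⟩
  have C1 := cf_of h1 h2 (Or.inl rfl) F γ1 d2 t2 hJ
  simp only [(he _).1, (he _).2.1] at C1
  replace C1 := hC μ S _ _ c p _ _ _ _ le_rfl am o4.le hd C1
  have C2 := hC μ S _ _ c p _ _ _ _ le_rfl am o4.le hd ((cf_of h1 h2 (Or.inr rfl) F' γ1 d2 t2
    (J := {φ | -φ ∈ Icc pH pB}) fun φ hφ => by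
      have := hJ _ hφ
      rwa [(h2.2.2 φ).2.1, show (fx M He (-φ)).1 = (fx M He φ).1 by simp [fx]] at this).mir
    fun φ hφ => ⟨by simpa using hφ, (he φ).2.2.1, by rw [neg_neg]; exact (he φ).2.2.2.1⟩)
  replace hP := hP w2 w3 F.ca.1 F.ca.2 (near_of h1 (Or.inl rfl) F d4)
  replace hM := hM w2' w3' F'.ca.1 F'.ca.2 (near_of h1 (Or.inr rfl) F' d3)
  have sub : Icc 0 st ⊆ Icc (0 : ℝ) 11 := Icc_subset_Icc_right (by linarith)
  have key : ∀ x : ℂ × ℂ, 0 ≤ (x.2 / x.1).im → Hits 11 S q w w2 w3 x ∨ Hits 11 S q' w' w2' w3' x := by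
    rintro ⟨x, y⟩ hx
    have z0 : (0 : ℂ) ∈ Metric.closedBall (0 : ℂ) 1 ∩ ({l : ℂ | l.im ≤ 0} ∩ {l | -2 * l.im ≤ l.re} ∩
        {l | ‖l‖ ^ 2 ≤ l.re} ∩ {l | l.re + l.im ≤ 1 - ρ}) := by
      simp
      linarith
    by_cases x0 : x = 0
    · obtain ⟨φ, s, hs, e⟩ := hM 0 fun t _ => ⟨0, z0, by simpa using m0.le⟩
      exact Or.inr ⟨φ, Or.inr ⟨s, hs, by simp [e, x0]⟩⟩
    obtain ⟨ζ, e, a1, a2⟩ := exists_root hx
    obtain rfl : y = ζ ^ 2 * x := (div_eq_iff x0).1 e.symm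
    have a3 : 0 ≤ (ζ ^ 2 - 1).im := by rw [e]; simpa using hx
    by_cases hn : ‖ζ ^ 2 - 1‖ ≤ st * c0 / 8
    · rcases le_total (ζ ^ 2 - 1).re 0 with b | b
      · obtain ⟨φ, h⟩ := C1 _ b a3 hn
        exact Or.inl ⟨φ, h.imp (fun ⟨s, hs, e⟩ => ⟨s, hs, by linear_combination -x * e⟩)
          fun ⟨s, hs, e⟩ => ⟨s, sub hs, by linear_combination -x * e⟩⟩
      · obtain ⟨φ, h⟩ := C2 (-conj (ζ ^ 2 - 1)) (by rw [neg_re, conj_re]; linarith)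
          (by rwa [neg_im, conj_im, neg_neg]) (by rwa [norm_neg, norm_conj])
        refine Or.inr ⟨-φ, h.imp (fun ⟨s, hs, e⟩ => ⟨s, hs, ?_⟩) fun ⟨s, hs, e⟩ => ⟨s, sub hs, ?_⟩⟩
        · rw [mul_pow, I_sq, neg_one_mul, neg_mul, neg_inj, ← map_pow, ← map_mul] at e
          linear_combination -x * (starRingEnd ℂ).injective e
        · rw [neg_mul, neg_inj, ← map_mul] at e
          linear_combination -x * (starRingEnd ℂ).injective e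
    have inv : ζ ≠ 0 → (∀ t ∈ Icc (0 : ℝ) 1, ∃ l' ∈ Metric.closedBall (0 : ℂ) 1 ∩
        ({l : ℂ | l.im ≤ 0} ∩ {l | -2 * l.im ≤ l.re} ∩ {l | ‖l‖ ^ 2 ≤ l.re} ∩
          {l | l.re + l.im ≤ 1 - ρ}), ‖t * ζ⁻¹ - l'‖ ≤ δM) →
        Hits 11 S q' w' w2' w3' (x, ζ ^ 2 * x) := fun n h => by
      obtain ⟨φ, s, hs, e⟩ := hM _ h
      exact ⟨φ, Or.inr ⟨s, hs, by simp only [e]; field_simp⟩⟩
    by_cases hR : 1 / δM < ‖ζ‖
    · have n : 0 < ‖ζ‖ := lt_trans (by positivity) hR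
      refine Or.inr (inv (norm_pos_iff.1 n) fun t ht => ⟨0, z0, ?_⟩)
      rw [sub_zero, norm_mul, norm_real, Real.norm_eq_abs, abs_of_nonneg ht.1, norm_inv]
      refine (mul_le_of_le_one_left (by positivity) ht.2).trans ?_
      rw [inv_le_comm₀ n m0, ← one_div]
      exact hR.le
    by_cases hb : ζ.re ≤ 1 ∨ ζ.re ≤ 2 * ζ.im
    · obtain ⟨φ, s, hs, e⟩ := hP ζ fun t ht => by
        simp only [mem_inter_iff, mem_closedBall_zero_iff, mem_ofPred_eq, mem_union, re_ofReal_mul,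
          im_ofReal_mul, norm_mul, norm_real, Real.norm_eq_abs, abs_of_nonneg ht.1]
        refine ⟨(mul_le_of_le_one_left (norm_nonneg _) ht.2).trans (not_lt.1 hR),
          ⟨mul_nonneg ht.1 a1, mul_nonneg ht.1 a2⟩, hb.imp (fun h => ⟨by nlinarith [ht.1, ht.2], ?_⟩)
          fun h => by nlinarith [ht.1]⟩
        have : ζ.re - ζ.im ≤ 1 - ρ := by
          by_contra k
          exact hn ((near_one h (by rw [abs_of_nonneg a2]; exact not_le.1 k) ρ1).1.trans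
            (by linarith))
        nlinarith [ht.1, ht.2]
      exact Or.inl ⟨φ, Or.inr ⟨s, hs, by simp only [e]; ring⟩⟩
    push Not at hb
    have n : ζ ≠ 0 := fun e => by norm_num [e] at hb
    have N := normSq_pos.2 n
    have l1 : ζ⁻¹.im ≤ 0 := by
      rw [inv_im]
      exact div_nonpos_of_nonpos_of_nonneg (by linarith) N.le
    have l2 : -2 * ζ⁻¹.im ≤ ζ⁻¹.re := by
      rw [inv_im, inv_re, ← mul_div_assoc]
      gcongr
      linarith [hb.2]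
    have l3 : ‖ζ⁻¹‖ ^ 2 ≤ ζ⁻¹.re := by
      rw [Complex.sq_norm, normSq_inv, inv_re, ← one_div]
      gcongr
      exact hb.1.le
    have l4 : ‖ζ⁻¹‖ ≤ 1 := by nlinarith [re_le_norm ζ⁻¹, norm_nonneg ζ⁻¹]
    have l5 : ζ⁻¹.re + ζ⁻¹.im ≤ 1 - ρ := by
      by_contra k
      obtain ⟨k1, k2⟩ := near_one ((re_le_norm _).trans l4)
        (by rw [abs_of_nonpos l1]; linarith [not_le.1 k]) ρ1
      refine hn ?_
      have k3 : ‖ζ‖ ≤ 2 := by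
        rwa [norm_inv, one_div, inv_le_inv₀ two_pos (norm_pos_iff.2 n)] at k2
      rw [show ζ ^ 2 - 1 = -(ζ ^ 2 * (ζ⁻¹ ^ 2 - 1)) by field_simp; ring, norm_neg, norm_mul, norm_pow]
      refine (mul_le_mul (pow_le_pow_left₀ (norm_nonneg _) k3 2) k1 (norm_nonneg _)
        (by norm_num)).trans (by linarith)
    refine Or.inr (inv n fun t ht => ⟨t * ζ⁻¹, ?_, by simpa using m0.le⟩)
    simp only [mem_inter_iff, mem_closedBall_zero_iff, mem_ofPred_eq, re_ofReal_mul,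
      im_ofReal_mul, norm_mul, norm_real, Real.norm_eq_abs, abs_of_nonneg ht.1]
    have t2 := mul_nonneg ht.1 (sub_nonneg.2 ht.2)
    refine ⟨mul_le_one₀ ht.2 (norm_nonneg _) l4, ⟨⟨by nlinarith [ht.1], by nlinarith [ht.1]⟩, ?_⟩,
      by nlinarith [ht.1, ht.2]⟩
    nlinarith [mul_le_mul_of_nonneg_left l3 ht.1, mul_nonneg t2 (sq_nonneg ‖ζ⁻¹‖)]
  intro x _
  rcases le_total 0 (x.2 / x.1).im with h | h
  · exact (key x h).imp_right fun h => Or.inr (Or.inl h)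
  · refine Or.inr ((key (cj x) ?_).imp_right Or.inr)
    rw [show (cj x).2 / (cj x).1 = conj (x.2 / x.1) by simp [cj], conj_im]
    linarith

end Pool.Agent.MP_1ba41f_an.S2.CV
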