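import Pool.Agent.MP_1ba41f_an.S2.Finz

/-! Countably many collisions along a real analytic curve of data. -/

set_option autoImplicit false

noncomputable section
open Filter Topology Set Metric

namespace Pool.Agent.MP_1ba41f_an.S2

/-- a real analytic germ extends to a holomorphic germ -/
theorem exists_hol_ext {E : Type} [NormedAddCommGroup E] [NormedSpace ℂ E] [NormedSpace ℝ E]
    [IsScalarTower ℝ ℂ E] [CompleteSpace E] {g : ℝ → E} {x : ℝ} (h : AnalyticAt ℝ g x) :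
    ∃ G : ℂ → E, AnalyticAt ℂ G x ∧ ∀ᶠ t : ℝ in 𝓝 x, G t = g t := by
  obtain ⟨p, r, hp⟩ := h
  let q : FormalMultilinearSeries ℂ ℂ E := fun n =>
    ContinuousMultilinearMap.mkPiRing ℂ (Fin n) (p.coeff n)
  have hq : q.radius = p.radius := by
    simp only [FormalMultilinearSeries.radius, q, ContinuousMultilinearMap.norm_mkPiRing,
      FormalMultilinearSeries.norm_apply_eq_norm_coef]
  have h0 : 0 < q.radius := hq ▸ hp.r_pos.trans_le hp.r_le
  have h1 := q.hasFPowerSeriesOnBall h0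
  refine ⟨fun z => q.sum (z - x), ?_, ?_⟩
  · exact AnalyticAt.comp (g := q.sum) (f := fun z : ℂ => z - x)
      (by simpa using h1.analyticAt) (by fun_prop)
  · have h2 := hasFPowerSeriesAt_iff'.1 hp.hasFPowerSeriesAt
    filter_upwards [h2] with t ht
    refine HasSum.tsum_eq ?_
    convert ht using 2 with n
    simp only [q, ContinuousMultilinearMap.mkPiRing_apply, Finset.prod_const, Finset.card_univ,
      Fintype.card_fin]
    rw [← Complex.ofReal_sub, ← Complex.ofReal_pow]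
    exact algebraMap_smul ℂ ((t - x) ^ n) (p.coeff n)

/-- accumulating simple real zeros lie on a real branch -/
theorem finz_loc {U : Set (ℂ × ℂ)} (hU : IsOpen U) {f : ℂ × ℂ → ℂ} (hf : DifferentiableOn ℂ f U)
    {x : ℝ × ℝ} (hR : ((x.1 : ℂ), (x.2 : ℂ)) ∈ U) (h0 : f (x.1, x.2) = 0)
    (hs : deriv (fun s : ℂ => f (x.1, s)) x.2 ≠ 0)
    (hfr : ∃ᶠ y : ℝ × ℝ in 𝓝 x, f (y.1, y.2) = 0 ∧ y.1 ≠ x.1) :
    ∃ ψ : ℝ → ℝ, Tendsto ψ (𝓝 x.1) (𝓝 x.2) ∧ ∀ᶠ θ : ℝ in 𝓝 x.1, f (θ, ψ θ) = 0 := by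
  have hc : ContDiffAt ℂ 1 f (x.1, x.2) := (contDiffOn_one hU hf).contDiffAt (hU.mem_nhds hR)
  have hι : Tendsto (fun y : ℝ × ℝ => ((y.1 : ℂ), (y.2 : ℂ))) (𝓝 x) (𝓝 (x.1, x.2)) :=
    Continuous.tendsto (by fun_prop) x
  have hd : HasDerivAt (fun s : ℂ => f (x.1, s)) (fderiv ℂ f (x.1, x.2) (0, 1)) x.2 :=
    (hc.differentiableAt one_ne_zero).hasFDerivAt.comp_hasDerivAt (x.2 : ℂ)
      ((hasDerivAt_const _ _).prodMk (hasDerivAt_id _))
  have hne : fderiv ℂ f (x.1, x.2) (0, 1) ≠ 0 := hd.deriv ▸ hs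
  have hi : (fderiv ℂ f ((x.1 : ℂ), (x.2 : ℂ)) ∘L .inr ℂ ℂ ℂ).IsInvertible := by
    refine ⟨ContinuousLinearEquiv.unitsEquivAut ℂ (Units.mk0 _ hne), ?_⟩
    ext
    simp
  set ψ := hc.implicitFunction one_ne_zero hi with hψ
  have p1 : ψ x.1 = x.2 := hc.implicitFunction_apply_self one_ne_zero hi
  have p2 := hc.eventually_apply_implicitFunction one_ne_zero hi
  have p3 := hc.eventually_apply_eq_iff_implicitFunction one_ne_zero hi
  have p4 : ContDiffAt ℂ 1 ψ x.1 := hc.contDiffAt_implicitFunction one_ne_zero hi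
  have p5 : AnalyticAt ℂ ψ x.1 := Complex.analyticAt_iff_eventually_differentiableAt.2
    ((p4.eventually (by simp)).mono fun _ h => h.differentiableAt one_ne_zero)
  have p6 : AnalyticAt ℝ (fun θ : ℝ => ψ θ) x.1 :=
    p5.restrictScalars.comp (f := fun θ : ℝ => (θ : ℂ)) (Complex.ofRealCLM.analyticAt _)
  have p7 : AnalyticAt ℝ (fun θ : ℝ => (ψ θ).im) x.1 := (Complex.imCLM.analyticAt _).comp p6
  have p8 : ∀ᶠ θ : ℝ in 𝓝 x.1, (ψ θ).im = 0 := by
    refine p7.frequently_zero_iff_eventually_zero.1 ?_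
    rw [frequently_nhdsWithin_iff]
    refine (continuous_fst.tendsto x).frequently ((hfr.and_eventually (hι.eventually p3)).mono
      fun y hy => ⟨?_, hy.1.2⟩)
    have := hy.2.1 (hy.1.1.trans h0.symm)
    rw [show ψ y.1 = y.2 from this, Complex.ofReal_im]
  refine ⟨fun θ => (ψ θ).re, ?_, ?_⟩
  · simpa [p1, Function.comp_def] using
      (Complex.continuous_re.continuousAt.comp p6.continuousAt).tendsto
  · filter_upwards [p8, (Complex.continuous_ofReal.tendsto x.1).eventually p2] with θ a c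
    have : (((ψ θ).re : ℝ) : ℂ) = ψ θ := Complex.ext (by simp) (by simp [a])
    rw [this, ← h0]
    exact c

/-- FINZ: along a real analytic curve of data, simple real zeros that avoid the ends of the arcs
and miss one arc meet only countably many arcs. -/
theorem finz2 {X : Type} [NormedAddCommGroup X] [NormedSpace ℂ X] [NormedSpace ℝ X]
    [IsScalarTower ℝ ℂ X] [CompleteSpace X] {V : Set (X × ℂ)} (hV : IsOpen V) {F : X × ℂ → ℂ}
    (hF : DifferentiableOn ℂ F V) {ξ : ℝ → X} (hξ : AnalyticOnNhd ℝ ξ univ) {T : ℝ → ℝ}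
    (hT : Continuous T) (T0 : ∀ θ, 0 < T θ)
    (hR : ∀ θ, ∀ s ∈ Icc (0 : ℝ) (T θ), (ξ θ, (s : ℂ)) ∈ V)
    (he : ∀ θ, F (ξ θ, 0) ≠ 0 ∧ F (ξ θ, T θ) ≠ 0)
    (hs : ∀ θ, ∀ s ∈ Icc (0 : ℝ) (T θ), F (ξ θ, s) = 0 → deriv (fun τ : ℂ => F (ξ θ, τ)) s ≠ 0)
    {θ₁ : ℝ} (h1 : ∀ s ∈ Icc (0 : ℝ) (T θ₁), F (ξ θ₁, s) ≠ 0) :
    {θ : ℝ | ∃ s ∈ Icc (0 : ℝ) (T θ), F (ξ θ, s) = 0}.Countable := by
  have hm : ∀ θ, ∀ u ∈ Icc (0 : ℝ) 1, u * T θ ∈ Icc (0 : ℝ) (T θ) := fun θ u hu =>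
    ⟨mul_nonneg hu.1 (T0 θ).le, mul_le_of_le_one_left (T0 θ).le hu.2⟩
  refine (finz_core (Z := fun x => F (ξ x.1, (x.2 * T x.1 : ℝ)) = 0) (fun x hx hfr => ?_)
    (θ₁ := θ₁) fun u hu => h1 _ (hm _ u hu)).mono ?_
  · obtain ⟨G, g1, g2⟩ := exists_hol_ext (hξ x.1 (mem_univ _))
    have g0 : G x.1 = ξ x.1 := g2.self_of_nhds
    obtain ⟨W, w1, w2, w3⟩ := _root_.eventually_nhds_iff.1 g1.eventually_analyticAt
    have gd : DifferentiableOn ℂ (fun z : ℂ × ℂ => (G z.1, z.2)) (W ×ˢ univ) := fun z hz =>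
      (((w1 _ hz.1).differentiableAt.comp z differentiableAt_fst).prodMk
        differentiableAt_snd).differentiableWithinAt
    have hU := gd.continuousOn.isOpen_inter_preimage (w2.prod isOpen_univ) hV
    have hι : Tendsto (fun y : ℝ × ℝ => (y.1, y.2 * T y.1)) (𝓝 x) (𝓝 (x.1, x.2 * T x.1)) :=
      Continuous.tendsto (by fun_prop) x
    have h0 : F (ξ x.1, (x.2 * T x.1 : ℝ)) = 0 := by
      by_contra h
      have hc : ContinuousAt (fun y : ℝ × ℝ => F (ξ y.1, (y.2 * T y.1 : ℝ))) x :=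
        ContinuousAt.comp (g := F) (hF.continuousOn.continuousAt (hV.mem_nhds (hR _ _ (hm _ _ hx))))
          (Continuous.continuousAt (by have := hξ.continuous; fun_prop))
      obtain ⟨y, h2, h3⟩ := (hfr.and_eventually (hc.eventually_ne h)).exists
      exact h3 h2.2.1
    have hx' : x.2 ∈ Ioo (0 : ℝ) 1 := by
      refine ⟨hx.1.lt_of_ne fun h => (he x.1).1 ?_, hx.2.lt_of_ne fun h => (he x.1).2 ?_⟩
      · simpa [← h] using h0
      · simpa [h] using h0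
    obtain ⟨ψ, q1, q2⟩ := finz_loc hU (f := fun z => F (G z.1, z.2))
      (hF.comp (gd.mono inter_subset_left) fun z hz => hz.2) (x := (x.1, x.2 * T x.1))
      ⟨⟨w3, mem_univ _⟩, by simpa only [mem_preimage, g0] using hR _ _ (hm _ _ hx)⟩
      (by simpa only [g0] using h0) (by simpa only [g0] using hs _ _ (hm _ _ hx) h0)
      (hι.frequently ((hfr.and_eventually ((continuous_fst.tendsto x).eventually g2)).mono
        fun y hy => ⟨by simpa only [hy.2] using hy.1.2.1, hy.1.2.2⟩))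
    have q3 : Tendsto (fun θ => ψ θ / T θ) (𝓝 x.1) (𝓝 x.2) := by
      simpa [(T0 x.1).ne', Pi.div_def] using q1.div (hT.tendsto x.1) (T0 x.1).ne'
    filter_upwards [q2, g2, q3.eventually (isOpen_Ioo.mem_nhds hx')] with θ a b c
    refine ⟨_, Ioo_subset_Icc_self c, ?_⟩
    simpa only [b, div_mul_cancel₀ _ (T0 θ).ne'] using a
  · rintro θ ⟨s, hs, e⟩
    refine ⟨s / T θ, ⟨div_nonneg hs.1 (T0 θ).le, (div_le_one (T0 θ)).2 hs.2⟩, ?_⟩
    simpa only [div_mul_cancel₀ _ (T0 θ).ne'] using e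

end Pool.Agent.MP_1ba41f_an.S2
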