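import Pool.Agent.MP_1ba41f_an.S2.Defs
import Pool.Agent.MP_1ba41f_an.S2.CV.End
import Pool.Agent.MP_1ba41f_an.S2.CV.Finz2

/-! Half arcs as segments of solutions. -/

set_option autoImplicit false

noncomputable section
open Set Filter Topology

namespace Pool.Agent.MP_1ba41f_an.S2

/-- a holomorphic curve with a time component is a segment -/
theorem seg_hol {a b S : ℝ} (hS : 0 ≤ S) {F : ℂ → Fin 9 → ℂ} {φ : (Fin 9 → ℂ) → St}
    (hF : ∀ s ∈ Icc (0 : ℝ) S, AnalyticAt ℂ F s)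
    (h : ∀ s ∈ Icc (0 : ℝ) S, Free (φ (F s)).1 ∧ ∃ g : ℝ, 0 < g ∧
      HasDerivAt (fun s : ℝ => F s 8) g s ∧
      HasDerivAt (fun s : ℝ => φ (F s)) (g • NF a b (φ (F s))) s) :
    Seg a b (φ (F (0 : ℝ))) (φ (F S)) ((F S 8).re - (F (0 : ℝ) 8).re)
      ((fun s : ℝ => (φ (F s)).1) '' Icc 0 S) := by
  have h8 : ∀ s ∈ Icc (0 : ℝ) S, AnalyticAt ℂ (fun τ => F τ 8) s := fun s hs =>
    analyticAt_pi_iff.1 (hF s hs) 8
  let g : ℝ → ℝ := fun s => (deriv (fun τ => F τ 8) s).re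
  have gc : ContinuousOn g (Icc 0 S) := fun s hs =>
    (Complex.continuous_re.continuousAt.comp ((h8 s hs).deriv.continuousAt.comp
      Complex.continuous_ofReal.continuousAt)).continuousWithinAt
  have gd : ∀ s ∈ Icc (0 : ℝ) S, HasDerivAt (fun s : ℝ => (F s 8).re) (g s) s := fun s hs =>
    (h8 s hs).differentiableAt.hasDerivAt.real_of_complex
  have ge : ∀ s ∈ Icc (0 : ℝ) S, ∀ c : ℝ, HasDerivAt (fun s : ℝ => F s 8) c s → g s = c :=
    fun s hs c hc => (gd s hs).unique (Complex.reCLM.hasFDerivAt.comp_hasDerivAt s hc)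
  have := seg_of_reparam (a := a) (b := b) hS (y := fun s => φ (F s)) gc
    (fun s hs => by
      obtain ⟨-, c, c0, c1, -⟩ := h s hs
      rwa [ge s hs c c1])
    fun s hs => by
      obtain ⟨f, c, -, c1, c2⟩ := h s hs
      exact ⟨f, by rw [ge s hs c c1]; exact c2.hasDerivWithinAt⟩
  rwa [intervalIntegral.integral_eq_sub_of_hasDerivAt (f := fun s : ℝ => (F s 8).re)
    (fun s hs => gd s (by rwa [uIcc_of_le hS] at hs))
    (gc.intervalIntegrable_of_Icc hS)] at this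

theorem ana_slice {X E : Type} [NormedAddCommGroup X] [NormedSpace ℂ X] [NormedAddCommGroup E]
    [NormedSpace ℂ E] [CompleteSpace E] {U : Set (X × ℂ)} (hU : IsOpen U) {f : X × ℂ → E}
    (hf : DifferentiableOn ℂ f U) {x : X} {s : ℂ} (h : (x, s) ∈ U) :
    AnalyticAt ℂ (fun τ => f (x, τ)) s := by
  have c : Continuous fun τ : ℂ => (x, τ) := by fun_prop
  exact DifferentiableOn.analyticAt (s := (fun τ : ℂ => (x, τ)) ⁻¹' U)
    (hf.comp (by fun_prop) fun _ h => h) ((hU.preimage c).mem_nhds h)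

variable {a e η S : ℝ} {K : Set (Xi × ℂ)} {enc : Xi × ℂ → En} {arc : Xi × ℂ → Az}

theorem sinh_le {p q : ℂ} (hp : ‖p‖ = 1) (hq : ‖q‖ = 1) (s : ℝ) :
    2 * Real.sinh s ≤ ‖p * Real.exp s - q * Real.exp (-s)‖ := by
  have := norm_sub_norm_le (p * Real.exp s) (q * Real.exp (-s))
  rw [norm_mul, norm_mul, hp, hq, Complex.norm_real, Complex.norm_real, Real.norm_eq_abs,
    Real.norm_eq_abs, abs_of_pos (Real.exp_pos _), abs_of_pos (Real.exp_pos _)] at this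
  rw [Real.sinh_eq]
  linarith

/-- no collision of the small bodies after the centre -/
theorem Half.enc_ne (h : Half a e η K S enc arc) (hη : η ≤ 1) {k : Xi × ℂ} (hk : k ∈ K)
    (hr : RealXi k.1) {s : ℝ} (hs : s ∈ Icc (0 : ℝ) S) (h0 : 0 < s ∨ k.1 4 ≠ k.1 5) :
    enc (k.1, s) 2 ≠ 0 := fun h1 => by
  obtain ⟨A, hA, hE⟩ := h.encR k hk hr
  have h2 := (hE s hs).2.2.2.1
  rw [h1, zero_sub, norm_neg, norm_mul, Complex.norm_real, Real.norm_eq_abs, abs_of_pos hA] at h2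
  have h3 := sinh_le hr.2.2.2.2.1 hr.2.2.2.2.2 s
  rcases hs.1.eq_or_lt with rfl | h4
  · rw [Real.sinh_zero, mul_zero] at h2
    have := norm_le_zero_iff.1 (le_of_mul_le_mul_left (h2.trans_eq (mul_zero A).symm) hA)
    rcases h0 with h0 | h0
    · exact lt_irrefl _ h0
    · exact h0 (by simpa [sub_eq_zero] using this)
  · have := Real.sinh_pos_iff.2 h4
    nlinarith [mul_pos hA this, mul_le_mul_of_nonneg_left h3 hA.le,
      mul_le_mul_of_nonneg_right hη (mul_pos hA this).le]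

/-- no collision with the heavy body during the encounter -/
theorem Half.enc_far (h : Half a e η K S enc arc) {k : Xi × ℂ} (hk : k ∈ K)
    (hr : RealXi k.1) (h2 : η + η ^ 2 < (k.1 2).re) {s : ℝ} (hs : s ∈ Icc (0 : ℝ) S) :
    (physE a (enc (k.1, s))).1.1 ≠ 0 ∧ (physE a (enc (k.1, s))).1.2 ≠ 0 := by
  obtain ⟨A, hA, hE⟩ := h.encR k hk hr
  obtain ⟨-, h3, h4, -⟩ := hE s hs
  have h5 := norm_sub_norm_le (k.1 2) (enc (k.1, s) 0)
  rw [norm_sub_rev] at h5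
  have h0 := norm_nonneg (enc (k.1, s) 2)
  have h7 := Complex.re_le_norm (k.1 2)
  refine ⟨fun h6 : enc (k.1, s) 0 = 0 => ?_, fun h6 : enc (k.1, s) 0 + enc (k.1, s) 2 ^ 2 = 0 => ?_⟩
  · rw [h6, zero_sub, norm_neg] at h3
    nlinarith
  · have := congrArg norm (eq_neg_of_add_eq_zero_left h6)
    rw [norm_neg, norm_pow] at this
    nlinarith

theorem Half.arcV (h : Half a e η K S enc arc) : ∃ U V : Set (Xi × ℂ), IsOpen U ∧ IsOpen V ∧
    DifferentiableOn ℂ enc U ∧ DifferentiableOn ℂ arc V ∧ ∀ k ∈ K,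
      (∀ s ∈ Icc (0 : ℝ) S, (k.1, (s : ℂ)) ∈ U) ∧
      ∀ T : ℝ, k.2 = T → ∀ s ∈ Icc (0 : ℝ) T, (k.1, (s : ℂ)) ∈ V := by
  obtain ⟨U, V, hU, hV, dU, dV, hK⟩ := h.hol
  refine ⟨U, V, hU, hV, dU, dV, fun k hk => ⟨(hK k hk).1, fun T hT s hs => ?_⟩⟩
  rcases (hs.1.trans hs.2).eq_or_lt with rfl | h0
  · simpa [le_antisymm hs.2 hs.1] using (hK k hk).2 0 (by simp)
  · have := (hK k hk).2 (s / T) ⟨div_nonneg hs.1 h0.le, (div_le_one h0).2 hs.2⟩
    rwa [hT, ← Complex.ofReal_mul, div_mul_cancel₀ _ h0.ne'] at this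

/-- positions along the encounter and along the arc, `u ∈ [0, 1]` -/
def qE (a S : ℝ) (enc : Xi × ℂ → En) (x : Xi) (u : ℝ) : ℂ × ℂ := (physE a (enc (x, (u * S : ℝ)))).1
def qA (arc : Xi × ℂ → Az) (x : Xi) (T u : ℝ) : ℂ × ℂ := (physA (arc (x, (u * T : ℝ)))).1

theorem img_scale {E : Type} (f : ℝ → E) {T : ℝ} (hT : 0 ≤ T) :
    (fun u => f (u * T)) '' Icc 0 1 = f '' Icc 0 T := by
  rw [show (fun u => f (u * T)) = f ∘ fun u => u * T from rfl, image_comp,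
    image_mul_right_Icc zero_le_one hT]
  simp

/-- a half arc without collisions is a segment -/
theorem Half.seg (h : Half a e η K S enc arc) (hη : η ≤ 1) {x : Xi} {T : ℝ} (hk : (x, (T : ℂ)) ∈ K)
    (hr : RealXi x) (h2 : η + η ^ 2 < (x 2).re) (hT : 0 ≤ T) (h0 : x 4 ≠ x 5)
    (hc : ∀ s ∈ Icc (0 : ℝ) T, arc (x, s) 0 ≠ 0 ∧ arc (x, s) 4 ≠ 0) (m : Fin 3 → ℝ)
    (hm : m = ![1, e * a, e * (1 - a)]) (h1 : 1 ≤ (arc (x, T) 8 - arc (x, 0) 8).re) :
    SegR (e * a) (e * (1 - a)) 1 (physE a (enc (x, 0))) (physA (arc (x, T)))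
      ((fun u => sh m (qE a S enc x u)) '' Icc 0 1 ∪ (fun u => sh m (qA arc x T u)) '' Icc 0 1) := by
  obtain ⟨U, V, hU, hV, dU, dV, hK⟩ := h.arcV
  obtain ⟨A, hA, hE⟩ := h.encR _ hk hr
  have s1 := seg_hol (a := e * a) (b := e * (1 - a)) h.spos.le (F := fun τ => enc (x, τ))
    (φ := physE a) (fun s hs => ana_slice hU dU ((hK _ hk).1 s hs)) fun s hs => by
      have n := h.enc_ne hη hk hr hs (Or.inr h0)
      obtain ⟨f1, f2⟩ := h.enc_far hk hr h2 hs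
      exact ⟨⟨f1, f2, by simpa [physE] using n⟩, (hE s hs).2.2.2.2 n⟩
  have s2 := seg_hol (a := e * a) (b := e * (1 - a)) hT (F := fun τ => arc (x, τ))
    (φ := physA) (fun s hs => ana_slice hV dV ((hK _ hk).2 T rfl s hs)) fun s hs => by
      obtain ⟨-, -, r1, -, -, r2⟩ := h.arcR _ hk hr T rfl s hs
      obtain ⟨c1, c2⟩ := hc s hs
      exact ⟨⟨pow_ne_zero 2 c1, pow_ne_zero 2 c2, sub_ne_zero.1 r1⟩, (r2 c1 c2).2.2⟩
  have j : physE a (enc (x, S)) = physA (arc (x, (0 : ℝ))) := h.join _ hk hr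
  simp only [j] at s1
  refine ⟨_, _, _, Rot.refl _, le_add_of_nonneg_of_le s1.1 h1, s1.trans s2, ?_⟩
  rw [image_union, image_image, image_image, hm]
  exact congrArg₂ _ (img_scale (fun s : ℝ => sh _ (physE a (enc (x, s))).1) h.spos.le).symm
    (img_scale (fun s : ℝ => sh _ (physA (arc (x, s))).1) hT).symm

end Pool.Agent.MP_1ba41f_an.S2
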