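import Pool.Agent.MP_1ba41f_an.S2.SpecT
import Pool.Agent.MP_1ba41f_an.S2.CV.HSeg
import Pool.Agent.MP_1ba41f_an.S2.RK.Dio

/-! Matched families of half arcs give a solution. -/

set_option autoImplicit false

noncomputable section
open Set Filter Topology
open scoped ComplexConjugate

namespace Pool.Agent.MP_1ba41f_an.S2

theorem cj_cj (q : ℂ × ℂ) : cj (cj q) = q := by simp [cj]

theorem zero_cnt {f : ℝ → ℂ} (hf : AnalyticOnNhd ℝ f univ) (h : ∃ θ, f θ ≠ 0) :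
    {θ | f θ = 0}.Countable := by
  obtain ⟨θ₁, h1⟩ := h
  refine (finz_core (Z := fun x => f x.1 = 0) (fun x hx hfr => ?_) (θ₁ := θ₁)
    fun _ _ => h1).mono fun θ hθ => Exists.intro 0 ⟨by simp, hθ⟩
  refine ((hf x.1 (mem_univ _)).frequently_zero_iff_eventually_zero.1 ?_).mono
    fun θ hθ => ⟨0, by simp, hθ⟩
  rw [frequently_nhdsWithin_iff]
  exact (continuous_fst.tendsto x).frequently (hfr.mono fun y hy => hy.2)

variable {a e η S : ℝ} {K : Set (Xi × ℂ)} {enc : Xi × ℂ → En} {arc : Xi × ℂ → Az}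
  {ξ : Fin 3 → ℝ → Xi} {T : Fin 3 → ℝ → ℝ}

theorem mem_scale {u T : ℝ} (hu : u ∈ Icc (0 : ℝ) 1) (hT : 0 ≤ T) : u * T ∈ Icc (0 : ℝ) T :=
  ⟨mul_nonneg hu.1 hT, mul_le_of_le_one_left hT hu.2⟩

theorem pcs_ne (h : Half a e η K S enc arc) (hF : Fam3 η K arc ξ T) (j : Fin 3 × Bool) (θ : ℝ)
    {u : ℝ} (hu : u ∈ Icc (0 : ℝ) 1) : pcs a S enc arc ξ T j (θ, u) ≠ 0 := by
  obtain ⟨j, _ | _⟩ := j <;> obtain ⟨k1, k2, k3, k4⟩ := hF.mem j θ
  · intro e0
    have := (h.arcR _ k1 k2 _ rfl _ (mem_scale hu k3.le)).2.2.1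
    have e1 : arc (ξ j θ, ((u * T j θ : ℝ) : ℂ)) 0 ^ 2 = 0 := congrArg Prod.fst e0
    have e2 : arc (ξ j θ, ((u * T j θ : ℝ) : ℂ)) 4 ^ 2 = 0 := congrArg Prod.snd e0
    exact this (by rw [dd, e1, e2, sub_zero])
  · exact fun e0 => (h.enc_far k1 k2 k4 (mem_scale hu h.spos.le)).1 (congrArg Prod.fst e0)

theorem pcs_cont (h : Half a e η K S enc arc) (hF : Fam3 η K arc ξ T) (j : Fin 3 × Bool) :
    ContinuousOn (pcs a S enc arc ξ T j) (univ ×ˢ Icc 0 1) := by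
  obtain ⟨U, V, hU, hV, dU, dV, hK⟩ := h.arcV
  have c1 : ∀ j, Continuous (ξ j) := fun j => continuousOn_univ.1 (hF.ana j).1.continuousOn
  have c2 : ∀ j, Continuous (T j) := fun j => continuousOn_univ.1 (hF.ana j).2.continuousOn
  obtain ⟨j, _ | _⟩ := j
  · have : ContinuousOn (fun x : ℝ × ℝ => arc (ξ j x.1, ((x.2 * T j x.1 : ℝ) : ℂ)))
        (univ ×ˢ Icc 0 1) := dV.continuousOn.comp (Continuous.continuousOn (by fun_prop))
      fun x hx => (hK _ (hF.mem j x.1).1).2 _ rfl _ (mem_scale hx.2 (hF.mem j x.1).2.2.1.le)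
    have c := continuousOn_pi.1 this
    exact ((c 0).pow 2).prodMk ((c 4).pow 2)
  · have : ContinuousOn (fun x : ℝ × ℝ => enc (ξ j x.1, ((x.2 * S : ℝ) : ℂ)))
        (univ ×ˢ Icc 0 1) := dU.continuousOn.comp (Continuous.continuousOn (by fun_prop))
      fun x hx => (hK _ (hF.mem j x.1).1).1 _ (mem_scale hx.2 h.spos.le)
    have c := continuousOn_pi.1 this
    exact (c 0).prodMk ((c 0).add ((c 2).pow 2))

theorem arc_cnt (h : Half a e η K S enc arc) (hF : Fam3 η K arc ξ T) (j : Fin 3) :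
    {θ | ¬ ∀ s ∈ Icc (0 : ℝ) (T j θ), arc (ξ j θ, s) 0 ≠ 0 ∧ arc (ξ j θ, s) 4 ≠ 0}.Countable := by
  obtain ⟨U, V, hU, hV, dU, dV, hK⟩ := h.arcV
  have c2 : Continuous (T j) := continuousOn_univ.1 (hF.ana j).2.continuousOn
  have st : ∀ θ, arc (ξ j θ, 0) 0 ≠ 0 ∧ arc (ξ j θ, 0) 4 ≠ 0 := fun θ => by
    obtain ⟨k1, k2, -, k4⟩ := hF.mem j θ
    have := h.enc_far k1 k2 k4 (right_mem_Icc.2 h.spos.le)
    rw [h.join _ k1 k2] at this
    exact ⟨fun e => this.1 (by simp [physA, e]), fun e => this.2 (by simp [physA, e])⟩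
  have hR := fun θ => h.arcR _ (hF.mem j θ).1 (hF.mem j θ).2.1 _ rfl
  have a0 := finz2 hV (differentiableOn_pi.1 dV 0) (hF.ana j).1 c2 (fun θ => (hF.mem j θ).2.2.1)
    (fun θ => (hK _ (hF.mem j θ).1).2 _ rfl) (fun θ => ⟨(st θ).1, (hF.fin j θ).1⟩)
    (fun θ s hs => (hR θ s hs).2.2.2.1) fun s hs => (hF.free j s hs).1
  have a4 := finz2 hV (differentiableOn_pi.1 dV 4) (hF.ana j).1 c2 (fun θ => (hF.mem j θ).2.2.1)
    (fun θ => (hK _ (hF.mem j θ).1).2 _ rfl) (fun θ => ⟨(st θ).2, (hF.fin j θ).2.1⟩)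
    (fun θ s hs => (hR θ s hs).2.2.2.2.1) fun s hs => (hF.free j s hs).2
  refine (a0.union a4).mono fun θ hθ => ?_
  by_contra hn
  simp only [mem_union, mem_ofPred_eq, not_or, not_exists, not_and] at hn
  exact hθ fun s hs => ⟨hn.1 s hs, hn.2 s hs⟩

theorem Img_flip {ι : Type} (m : Fin 3 → ℝ) (f : ι → ℝ × ℝ → ℂ × ℂ) (p : ι → Prop)
    [DecidablePred p] : Img m (fun j x => if p j then cj (f j x) else f j x) = Img m f := by
  simp only [Img, ← iUnion_union_distrib]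
  refine iUnion_congr fun j => ?_
  by_cases h : p j <;> simp only [h, if_true, if_false, cj_cj]
  exact union_comm _ _

theorem glueS : GlueStmt := by
  intro a e η w g S K enc arc ξ T a0 a1 e0 η0 η1 hw h hF hM n0 n2
  have ha : 0 < e * a := mul_pos e0 a0
  have hb : 0 < e * (1 - a) := mul_pos e0 (sub_pos.2 a1)
  have hm := mass_pos ha hb
  have zc : ∀ j, (∃ θ, ξ j θ 4 ≠ ξ j θ 5) → {θ | ξ j θ 4 - ξ j θ 5 = 0}.Countable :=
    fun j ⟨θ, hθ⟩ => zero_cnt (fun x hx => (analyticAt_pi_iff.1 ((hF.ana j).1 x hx) 4).sub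
      (analyticAt_pi_iff.1 ((hF.ana j).1 x hx) 5)) ⟨θ, sub_ne_zero.2 hθ⟩
  have mx : ∀ (s : ℂ) (x : Xi), s = 1 ∨ s = -1 → (mirXi s x 4 = mirXi s x 5 ↔ x 4 = x 5) := by
    rintro s x (rfl | rfl) <;> simp [mirXi, eq_comm, (starRingEnd ℂ).injective.eq_iff]
  classical
  rw [← Img_flip _ _ fun j => j.1 = 1]
  refine att_of_word ha hb (c := 1 + 1 + 1) (by norm_num) (fun j => ?_) (fun j θ τ hτ => ?_)
    (fun j θ τ hτ => ⟨1, one_ne_zero, ?_⟩) (RK.dio.2 w g hw)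
    (X := fun θ => if ξ 0 θ 4 = ξ 0 θ 5 then 0 else physE a (enc (ξ 0 θ, 0)))
    (Y := fun θ => physA (arc (ξ 2 (θ - w / 2), T 2 (θ - w / 2)))) (fun θ => ?_) (fun θ => ?_)
    (((zc 0 n0).union (zc 2 n2)).union (countable_iUnion (arc_cnt h hF))) fun θ hθ => ?_
  · by_cases hj : j.1 = 1 <;> simp only [hj, if_true, if_false]
    · exact cj_diff.continuous.comp_continuousOn (pcs_cont h hF j)
    · exact pcs_cont h hF j
  · split_ifs
    · exact cj_ne (pcs_ne h hF j θ hτ)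
    · exact pcs_ne h hF j θ hτ
  · simp only [pcs, (hF.per j.1 θ).1, (hF.per j.1 θ).2, one_smul]
  · by_cases h0 : ξ 0 θ 4 = ξ 0 θ 5
    · rw [if_pos h0, if_pos (by rw [hM.m1, mx _ _ (Or.inl rfl)]; exact h0)]
      convert Rot.refl _
      simp [mir, cj, Prod.ext_iff]
    · rw [if_neg h0, if_neg (by rw [hM.m1, mx _ _ (Or.inl rfl)]; exact h0),
        h.symm _ (hF.mem 0 θ).1 _ (hF.mem 0 (-θ)).1 (hF.mem 0 θ).2.1 h0 1 (Or.inl rfl) (hM.m1 θ)]
      exact Rot.refl _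
  · have := hM.m4 (-θ - w / 2)
    rwa [show -(-θ - w / 2) - w = θ - w / 2 by ring] at this
  · simp only [mem_union, mem_iUnion, mem_ofPred_eq, not_or, not_exists, not_not,
      sub_eq_zero] at hθ
    obtain ⟨⟨z0, z2⟩, hc⟩ := hθ
    have z1 : ξ 1 θ 4 ≠ ξ 1 θ 5 := by rw [hM.m2, Ne, mx _ _ (Or.inr rfl)]; exact z2
    have sg := fun j (z : ξ j θ 4 ≠ ξ j θ 5) => h.seg η1.le (hF.mem j θ).1 (hF.mem j θ).2.1
      (hF.mem j θ).2.2.2 (hF.mem j θ).2.2.1.le z (hc j) _ rfl (hF.fin j θ).2.2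
    have sy := h.symm _ (hF.mem 2 θ).1 _ (hF.mem 1 θ).1 (hF.mem 2 θ).2.1 z2 (-1) (Or.inr rfl)
      (hM.m2 θ)
    have mm : ∀ x : St, mir (mir x) = x := fun x => by simp [mir, cj]
    have := ((sg 0 z0).trans ha hb (((sg 1 z1).mir ha hb).congr ha hb (hM.m3 θ).symm
      (y' := physE a (enc (ξ 2 θ, 0))) (by rw [sy, mm]; exact Rot.refl _))).trans ha hb (sg 2 z2)
    rw [if_neg z0, add_sub_cancel_right]
    convert this using 1
    have u3 : ∀ A : Fin 3 × Bool → Set E3, ⋃ j, A j = A (0, true) ∪ A (0, false) ∪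
        (A (1, true) ∪ A (1, false)) ∪ (A (2, true) ∪ A (2, false)) := fun A => by
      ext v
      simp only [mem_iUnion, Prod.exists, Fin.exists_fin_succ, Bool.exists_bool, mem_union]
      simp
      tauto
    rw [u3, image_union, image_image, image_image]
    simp only [← sh_cj hm]
    rfl

end Pool.Agent.MP_1ba41f_an.S2
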