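import Pool.Agent.MP_1ba41f_an.S2.CV.CSpec

/-! The covering: a zero from a comparison function, and its stability. -/

set_option autoImplicit false

noncomputable section
open Set Complex Filter Topology

namespace Pool.Agent.MP_1ba41f_an.S2.CV

namespace Rou

theorem rou {E : Type} [NormedAddCommGroup E] [NormedSpace ℝ E] {R A B : Set E} (hR : Convex ℝ R)
    {k l : E → ℂ} {ζ : ℂ} (hk : ContinuousOn k R) (hl : ContinuousOn l R) (hA : IsPreconnected A)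
    (hB : IsPreconnected B) (hAR : A ⊆ R) (hBR : B ⊆ R) (sA : ∀ x ∈ A, k x ∈ slitPlane)
    (sB : ∀ x ∈ B, -k x ∈ slitPlane)
    (hne : ∀ x ∈ A ∪ B, ∀ t ∈ Icc (0 : ℝ) 1, k x ≠ t * ζ * l x) {x y : E} (xA : x ∈ A) (xB : x ∈ B)
    (yA : y ∈ A) (yB : y ∈ B) (hx : (k x).im < 0) (hy : 0 < (k y).im) :
    ∃ z ∈ R, k z = ζ * l z := by
  by_contra h0
  push Not at h0
  have hc : ContinuousOn (fun z => k z - ζ * l z) R := hk.sub (continuousOn_const.mul hl)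
  obtain ⟨L, hL, e⟩ := exists_log hR hc fun z hz => sub_ne_zero.2 (h0 z hz)
  have hU : A ∪ B ⊆ R := union_subset hAR hBR
  have k0 : ∀ z ∈ A ∪ B, k z ≠ 0 := fun z hz => by simpa using hne z hz 0 (by simp)
  have sl : ∀ z ∈ A ∪ B, (k z - ζ * l z) / k z ∈ slitPlane := fun z hz => by
    by_contra hn
    rw [mem_slitPlane_iff, not_or, not_lt, not_not] at hn
    set q := (k z - ζ * l z) / k z with hq
    have h1 : 0 < 1 - q.re := by linarith [hn.1]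
    have h2 : q = (q.re : ℂ) := Complex.ext rfl hn.2
    have h3 : ((1 - q.re : ℝ) : ℂ) ≠ 0 := ofReal_ne_zero.2 h1.ne'
    refine hne z hz (1 - q.re)⁻¹ ⟨by positivity, inv_le_one_of_one_le₀ (by linarith [hn.1])⟩ ?_
    rw [ofReal_inv, mul_assoc, eq_inv_mul_iff_mul_eq₀ h3]
    push_cast
    rw [← h2, hq]
    field_simp [k0 z hz]
    ring
  have hM : ContinuousOn (fun z => L z - log ((k z - ζ * l z) / k z)) (A ∪ B) :=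
    (hL.mono hU).sub (((hc.mono hU).div (hk.mono hU) k0).clog sl)
  have eM : ∀ z ∈ A ∪ B, exp (L z - log ((k z - ζ * l z) / k z)) = k z := fun z hz => by
    have := sub_ne_zero.2 (h0 z (hU hz))
    have := k0 z hz
    rw [exp_sub, e z (hU hz), exp_log (slitPlane_ne_zero (sl z hz))]
    field_simp
  have e1 := log_sub_const hA (hM.mono subset_union_left) ((hk.mono hAR).clog sA)
    (fun z hz => by rw [eM z (Or.inl hz), exp_log (k0 z (Or.inl hz))]) xA yA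
  have e2 := log_sub_const hB (M := fun z => log (-k z) + Real.pi * I)
    (hM.mono subset_union_right) (((hk.mono hBR).neg.clog sB).add continuousOn_const)
    (fun z hz => by
      rw [eM z (Or.inr hz), exp_add, exp_log (neg_ne_zero.2 (k0 z (Or.inr hz))), exp_pi_mul_I]
      ring) xB yB
  have i1 := congrArg im e1
  have i2 := congrArg im e2
  simp only [sub_im, add_im, log_im] at i1 i2
  have a1 := arg_neg_iff.2 hx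
  have a2 := arg_nonneg_iff.2 hy.le
  have a3 : (-k y).arg < 0 := arg_neg_iff.2 (by simpa using hy)
  have a4 : 0 ≤ (-k x).arg := arg_nonneg_iff.2 (by simpa using hx.le)
  linarith

/-- closeness to a model -/
def Nr (F : ℝ × ℝ × ℝ → ℝ) (K L : ℝ × ℝ × ℝ → ℂ) (δ : ℝ) (k l : ℝ × ℝ → ℂ) : Prop :=
  ∀ φ, ∀ s ∈ Icc (0 : ℝ) 11, ∃ τ2 τ3 : ℝ, 0 ≤ τ2 ∧ 0 ≤ τ3 ∧ τ2 + τ3 = s ∧ |F (φ, τ2, τ3)| ≤ δ ∧
    ‖k (φ, s) - K (φ, τ2, τ3)‖ ≤ δ ∧ ‖l (φ, s) - L (φ, τ2, τ3)‖ ≤ δ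

variable {F : ℝ × ℝ × ℝ → ℝ} {K L : ℝ × ℝ × ℝ → ℂ}

theorem soft (hF : Continuous F) (hK : Continuous K) (hL : Continuous L) {C : Set (ℝ × ℝ)}
    (hC : IsCompact C) (hs : ∀ x ∈ C, x.2 ∈ Icc (0 : ℝ) 11) {P : Set ℂ} (hP : IsCompact P)
    {O : Set (ℂ × ℂ × ℂ)} (hO : IsOpen O)
    (h : ∀ φ τ2 τ3, (φ, τ2 + τ3) ∈ C → 0 ≤ τ2 → 0 ≤ τ3 → F (φ, τ2, τ3) = 0 → ∀ ζ ∈ P,
      (K (φ, τ2, τ3), L (φ, τ2, τ3), ζ) ∈ O) :
    ∀ᶠ δ in 𝓝[>] (0 : ℝ), ∀ k l, Nr F K L δ k l → ∀ x ∈ C, ∀ ζ' ∈ P, ∀ ζ, ‖ζ - ζ'‖ ≤ δ →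
      (k x, l x, ζ) ∈ O := by
  have hX : IsCompact ((((Prod.fst '' C) ×ˢ Icc (0 : ℝ) 11 ×ˢ Icc (0 : ℝ) 11) ∩
      (fun q : ℝ × ℝ × ℝ => (q.1, q.2.1 + q.2.2)) ⁻¹' C) ×ˢ P) :=
    (((hC.image continuous_fst).prod (isCompact_Icc.prod isCompact_Icc)).inter_right
      (hC.isClosed.preimage (by fun_prop))).prod hP
  have := hX.eventually_forall_of_forall_eventually (x₀ := (0 : ℝ × ℂ × ℂ × ℂ))
    (P := fun v q => F q.1 ≠ v.1 ∨ (K q.1, L q.1, q.2) + v.2 ∈ O) fun q hq => by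
      have o1 : IsOpen {z : (ℝ × ℂ × ℂ × ℂ) × (ℝ × ℝ × ℝ) × ℂ | F z.2.1 ≠ z.1.1} :=
        isOpen_ne_fun (by fun_prop) (by fun_prop)
      have o2 := hO.preimage (f := fun z : (ℝ × ℂ × ℂ × ℂ) × (ℝ × ℝ × ℝ) × ℂ =>
        (K z.2.1, L z.2.1, z.2.2) + z.1.2) (by fun_prop)
      refine (o1.union o2).mem_nhds (or_iff_not_imp_left.2 fun h0 => ?_)
      simpa using h q.1.1 q.1.2.1 q.1.2.2 hq.1.2 hq.1.1.2.1.1 hq.1.1.2.2.1 (by simpa using h0) _ hq.2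
  obtain ⟨ε, ε0, hε⟩ := Metric.eventually_nhds_iff.1 this
  filter_upwards [Ioo_mem_nhdsGT ε0] with δ hδ k l hN x hx ζ' h' ζ hζ
  obtain ⟨τ2, τ3, h2, h3, e, n1, n2, n3⟩ := hN x.1 x.2 (hs x hx)
  have h11 := (hs x hx).2
  have := hε (y := (F (x.1, τ2, τ3), k x - K (x.1, τ2, τ3), l x - L (x.1, τ2, τ3), ζ - ζ'))
    (by
      rw [dist_zero_right]
      exact (max_le n1 (max_le n2 (max_le n3 hζ))).trans_lt hδ.2) ((x.1, τ2, τ3), ζ')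
    ⟨⟨⟨⟨x, hx, rfl⟩, ⟨h2, by linarith⟩, h3, by linarith⟩, by simpa [e] using hx⟩, h'⟩
  simpa using this

theorem gen {c : ℝ → ℝ} (hc : Continuous c) (c0 : ∀ φ, 0 < c φ) (hF : Continuous F)
    (hK : Continuous K) (hL : Continuous L) {a b : ℝ} {A B : Set (ℝ × ℝ)}
    (cA : IsCompact A) (cB : IsCompact B) (pA : IsPreconnected A) (pB : IsPreconnected B)
    (hA : A ⊆ Icc a b ×ˢ Icc 0 11) (hB : B ⊆ Icc a b ×ˢ Icc 0 11) {x y : ℝ × ℝ} (xA : x ∈ A)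
    (xB : x ∈ B) (yA : y ∈ A) (yB : y ∈ B) {P : Set ℂ} (hP : IsCompact P)
    (gA : ∀ φ τ2 τ3, (φ, τ2 + τ3) ∈ A → 0 ≤ τ2 → 0 ≤ τ3 → F (φ, τ2, τ3) = 0 → ∀ ζ ∈ P,
      K (φ, τ2, τ3) ∈ slitPlane ∧ K (φ, τ2, τ3) ≠ ζ * L (φ, τ2, τ3))
    (gB : ∀ φ τ2 τ3, (φ, τ2 + τ3) ∈ B → 0 ≤ τ2 → 0 ≤ τ3 → F (φ, τ2, τ3) = 0 → ∀ ζ ∈ P,
      -K (φ, τ2, τ3) ∈ slitPlane ∧ K (φ, τ2, τ3) ≠ ζ * L (φ, τ2, τ3))
    (gx : ∀ τ2 τ3, τ2 + τ3 = x.2 → 0 ≤ τ2 → 0 ≤ τ3 → F (x.1, τ2, τ3) = 0 →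
      (K (x.1, τ2, τ3)).im < 0)
    (gy : ∀ τ2 τ3, τ2 + τ3 = y.2 → 0 ≤ τ2 → 0 ≤ τ3 → F (y.1, τ2, τ3) = 0 →
      0 < (K (y.1, τ2, τ3)).im) :
    ∃ δ : ℝ, 0 < δ ∧ ∀ k l : ℝ × ℝ → ℂ, ContinuousOn k (univ ×ˢ Icc 0 11) →
      ContinuousOn l (univ ×ˢ Icc 0 11) →
      Nr F (fun q => c q.1 * K q) (fun q => c q.1 * L q) δ k l →
      ∀ ζ : ℂ, (∀ t ∈ Icc (0 : ℝ) 1, ∃ ζ' ∈ P, ‖t * ζ - ζ'‖ ≤ δ) →
        ∃ φ, ∃ s ∈ Icc (0 : ℝ) 11, k (φ, s) = ζ * l (φ, s) := by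
  have hK' : Continuous fun q : ℝ × ℝ × ℝ => (c q.1 : ℂ) * K q := by fun_prop
  have hL' : Continuous fun q : ℝ × ℝ × ℝ => (c q.1 : ℂ) * L q := by fun_prop
  have sl : ∀ φ {z : ℂ}, z ∈ slitPlane → (c φ : ℂ) * z ∈ slitPlane := fun φ z hz => by
    simpa [mem_slitPlane_iff, c0 φ, (c0 φ).ne'] using hz
  have ne : ∀ φ {z u ζ : ℂ}, z ≠ ζ * u → (c φ : ℂ) * z ≠ ζ * (c φ * u) := fun φ z u ζ h e =>
    h (mul_left_cancel₀ (ofReal_ne_zero.2 (c0 φ).ne') (by rw [e]; ring))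
  have on : IsOpen {w : ℂ × ℂ × ℂ | w.1 ≠ w.2.2 * w.2.1} := isOpen_ne_fun (by fun_prop) (by fun_prop)
  have s1 := soft hF hK' hL' cA (fun x hx => (hA hx).2) hP
    ((isOpen_slitPlane.preimage continuous_fst).inter on) fun φ τ2 τ3 h h2 h3 h0 ζ hζ =>
      ⟨sl φ (gA φ τ2 τ3 h h2 h3 h0 ζ hζ).1, ne φ (gA φ τ2 τ3 h h2 h3 h0 ζ hζ).2⟩
  have s2 := soft hF hK' hL' cB (fun x hx => (hB hx).2) hP
    ((isOpen_slitPlane.preimage continuous_fst.neg).inter on) fun φ τ2 τ3 h h2 h3 h0 ζ hζ =>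
      ⟨by simpa using sl φ (gB φ τ2 τ3 h h2 h3 h0 ζ hζ).1, ne φ (gB φ τ2 τ3 h h2 h3 h0 ζ hζ).2⟩
  have s3 := soft hF hK' hL' (isCompact_singleton (x := x)) (fun _ hx => hx ▸ (hA xA).2) hP
    (O := {w | w.1.im < 0}) (isOpen_lt (by fun_prop) continuous_const)
    fun φ τ2 τ3 h h2 h3 h0 ζ _ => by
      obtain rfl : (φ, τ2 + τ3) = x := h
      simpa using mul_neg_of_pos_of_neg (c0 φ) (gx τ2 τ3 rfl h2 h3 h0)
  have s4 := soft hF hK' hL' (isCompact_singleton (x := y)) (fun _ hx => hx ▸ (hA yA).2) hP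
    (O := {w | 0 < w.1.im}) (isOpen_lt continuous_const (by fun_prop))
    fun φ τ2 τ3 h h2 h3 h0 ζ _ => by
      obtain rfl : (φ, τ2 + τ3) = y := h
      simpa using mul_pos (c0 φ) (gy τ2 τ3 rfl h2 h3 h0)
  obtain ⟨δ, ⟨⟨t1, t2⟩, t3, t4⟩, δ0⟩ := (((s1.and s2).and (s3.and s4)).and self_mem_nhdsWithin).exists
  refine ⟨δ, δ0, fun k l ck cl hN ζ hζ => ?_⟩
  obtain ⟨z0, m0, n0⟩ := hζ 0 (by simp)
  have sub : Icc a b ×ˢ Icc (0 : ℝ) 11 ⊆ univ ×ˢ Icc 0 11 := prod_mono (subset_univ _) le_rfl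
  obtain ⟨z, hz, e⟩ := rou ((convex_Icc a b).prod (convex_Icc 0 11)) (ζ := ζ) (ck.mono sub)
    (cl.mono sub) pA pB hA hB (fun z hz => (t1 k l hN z hz z0 m0 _ n0).1)
    (fun z hz => (t2 k l hN z hz z0 m0 _ n0).1) (fun z hz t ht => by
      obtain ⟨z1, m1, n1⟩ := hζ t ht
      exact hz.elim (fun h => (t1 k l hN z h z1 m1 _ n1).2) fun h => (t2 k l hN z h z1 m1 _ n1).2)
    xA xB yA yB (t3 k l hN x rfl z0 m0 _ n0) (t4 k l hN y rfl z0 m0 _ n0)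
  exact ⟨z.1, z.2, hz.2, e⟩

/-- continuity of the model -/
theorem cont (h : G2Stmt) {σ : ℝ} (hσ : σ = 1 ∨ σ = -1) :
    (Continuous fun φ => √(gR φ)) ∧ (∀ φ, 0 < √(gR φ)) ∧
    (Continuous fun q : ℝ × ℝ × ℝ =>
      T2 (gR q.1) (gS2 σ q.1) q.2.1 - T3 (gR q.1) (gS σ q.1) q.2.2) ∧
    (Continuous fun q : ℝ × ℝ × ℝ => U2 (gR q.1) (gS2 σ q.1) (gG2 σ q.1) q.2.1) ∧
    Continuous fun q : ℝ × ℝ × ℝ => U3 (gR q.1) (gS σ q.1) (gG σ q.1) q.2.2 := by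
  obtain ⟨d, c1, c2, c3, c4⟩ := h.1 σ hσ
  have c0 := h.2.1
  have ci : Continuous fun φ => (gR φ)⁻¹ := c0.inv₀ fun φ => (d φ).r0.ne'
  refine ⟨c0.sqrt, fun φ => Real.sqrt_pos.2 (d φ).r0, by unfold T2 T3; fun_prop, ?_, ?_⟩
  · simp only [U2, mk_eq_add_mul_I, div_eq_mul_inv _ (gR _)]
    have : Continuous fun q : ℝ × ℝ × ℝ => (gR q.1)⁻¹ := ci.comp continuous_fst
    fun_prop
  · simp only [U3, mk_eq_add_mul_I, div_eq_mul_inv _ (gR _)]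
    have : Continuous fun q : ℝ × ℝ × ℝ => (gR q.1)⁻¹ := ci.comp continuous_fst
    fun_prop

theorem top_mem {r S G S2 G2 η : ℝ} (d : Dat r S G S2 G2 η) : 83 / 10 - S ∈ Icc (0 : ℝ) 11 := by
  have := d.r1
  have := d.e3
  constructor <;> nlinarith [sq_nonneg G, sq_nonneg (S - 2), sq_nonneg (S + 2)]

theorem U2_zero (r S G : ℝ) : U2 r S G 0 = 1 := Complex.ext (by simp [U2]) (by simp [U2])
theorem U3_zero (r S G : ℝ) : U3 r S G 0 = 1 := Complex.ext (by simp [U3]) (by simp [U3])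

theorem sin_half_pos {τ : ℝ} (h0 : 0 < τ) (h : τ < 2 * Real.pi) : 0 < Real.sin (τ / 2) :=
  Real.sin_pos_of_pos_of_lt_pi (by linarith) (by linarith)

end Rou

end Pool.Agent.MP_1ba41f_an.S2.CV
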