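import Mathlib.Analysis.Calculus.Deriv.Shift
import Mathlib.Analysis.Calculus.Deriv.Inverse
import Mathlib.Analysis.Calculus.Deriv.MeanValue
import Mathlib.MeasureTheory.Integral.IntervalIntegral.FundThmCalculus
import Pool.Agent.MP_1ba41f_an.S2.CV.Defs
import Pool.Agent.MP_1ba41f_an.S2.Hopf

/-! Segments: concatenation, symmetries, change of time, gluing, Newton equations. -/

set_option autoImplicit false

noncomputable section
open Set Filter Topology

namespace Pool.Agent.MP_1ba41f_an.S2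

variable {a b : ℝ} {x y z : St} {T T' : ℝ} {Z Z' : Set (ℂ × ℂ)}

theorem Seg.shift {γ : ℝ → St} {c t : ℝ} {v : St} (h : HasDerivWithinAt γ v (Icc 0 T) (t - c)) :
    HasDerivWithinAt (fun s => γ (s - c)) v (Icc c (c + T)) t := by
  have := HasDerivWithinAt.scomp t (h := fun s => s - c) (s := Icc c (c + T)) h
    ((hasDerivAt_id t).sub_const c).hasDerivWithinAt
    fun s hs => ⟨sub_nonneg.2 hs.1, sub_le_iff_le_add'.2 hs.2⟩
  rwa [one_smul] at this

theorem Seg.trans (h : Seg a b x y T Z) (h' : Seg a b y z T' Z') :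
    Seg a b x z (T + T') (Z ∪ Z') := by
  obtain ⟨hT, γ, rfl, e1, hγ, rfl⟩ := h
  obtain ⟨hT', δ, e2, rfl, hδ, rfl⟩ := h'
  let η : ℝ → St := fun t => if t ≤ T then γ t else δ (t - T)
  have l : ∀ t ∈ Icc 0 T, η t = γ t := fun t ht => if_pos ht.2
  have r : ∀ t ∈ Icc T (T + T'), η t = δ (t - T) := fun t ht => by
    rcases ht.1.eq_or_lt with h | h
    · rw [← h, sub_self, e2, ← e1]; exact if_pos le_rfl
    · exact if_neg h.not_ge
  have m : ∀ t ∈ Icc T (T + T'), t - T ∈ Icc 0 T' := fun t ht =>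
    ⟨sub_nonneg.2 ht.1, sub_le_iff_le_add'.2 ht.2⟩
  have dl : ∀ t ∈ Icc 0 T, HasDerivWithinAt η (NF a b (η t)) (Icc 0 T) t := fun t ht => by
    rw [l t ht]; exact (hγ t ht).2.congr l (l t ht)
  have dr : ∀ t ∈ Icc T (T + T'), HasDerivWithinAt η (NF a b (η t)) (Icc T (T + T')) t :=
    fun t ht => by rw [r t ht]; exact (Seg.shift (hδ _ (m t ht)).2).congr r (r t ht)
  have u := Icc_union_Icc_eq_Icc hT (le_add_of_nonneg_right hT' : T ≤ T + T')
  refine ⟨add_nonneg hT hT', η, l 0 ⟨le_rfl, hT⟩, ?_, fun t ht => ⟨?_, ?_⟩, ?_⟩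
  · rw [r _ ⟨le_add_of_nonneg_right hT', le_rfl⟩, add_sub_cancel_left]
  · rcases le_total t T with h | h
    · rw [l t ⟨ht.1, h⟩]; exact (hγ t ⟨ht.1, h⟩).1
    · rw [r t ⟨h, ht.2⟩]; exact (hδ _ (m t ⟨h, ht.2⟩)).1
  · rw [← u]
    refine HasDerivWithinAt.union ?_ ?_
    · by_cases h : t ≤ T
      · exact dl t ⟨ht.1, h⟩
      · exact HasFDerivWithinAt.of_notMem_closure (by rw [closure_Icc]; exact fun h' => h h'.2)
    · by_cases h : T ≤ t
      · exact dr t ⟨h, ht.2⟩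
      · exact HasFDerivWithinAt.of_notMem_closure (by rw [closure_Icc]; exact fun h' => h h'.1)
  · rw [← u, image_union]
    congr 1
    · exact image_congr fun t ht => by rw [l t ht]
    · ext q
      constructor
      · rintro ⟨t, ht, rfl⟩
        have h : T + t ∈ Icc T (T + T') := ⟨by linarith [ht.1], by linarith [ht.2]⟩
        exact ⟨T + t, h, by simp only [r _ h, add_sub_cancel_left]⟩
      · rintro ⟨t, ht, rfl⟩
        exact ⟨t - T, m t ht, by simp only [r t ht]⟩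

theorem Free.smul {u : ℂ} (hu : u ≠ 0) {q : ℂ × ℂ} (h : Free q) : Free (u • q) :=
  ⟨mul_ne_zero hu h.1, mul_ne_zero hu h.2.1, fun e => h.2.2 (mul_left_cancel₀ hu e)⟩

theorem NF_smul {u : ℂ} (hu : ‖u‖ = 1) (x : St) : NF a b (u • x) = u • NF a b x := by
  simp only [NF, Prod.smul_fst, Prod.smul_snd, smul_eq_mul, Prod.smul_mk, ← mul_sub, norm_mul, hu,
    one_mul, Prod.mk.injEq]
  refine ⟨⟨?_, ?_⟩, ?_, ?_⟩ <;> ring

theorem Seg.rot (h : Seg a b x y T Z) {u : ℂ} (hu : ‖u‖ = 1) :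
    Seg a b (u • x) (u • y) T ((fun q => u • q) '' Z) := by
  obtain ⟨hT, γ, rfl, rfl, hγ, rfl⟩ := h
  refine ⟨hT, fun t => u • γ t, rfl, rfl, fun t ht => ⟨(hγ t ht).1.smul fun e => ?_, ?_⟩, ?_⟩
  · simp [e] at hu
  · rw [NF_smul hu]; exact (hγ t ht).2.const_smul u
  · rw [image_image]; rfl

/-- conjugation as a linear map -/
def cjL : (ℂ × ℂ) →L[ℝ] ℂ × ℂ :=
  (Complex.conjCLE : ℂ →L[ℝ] ℂ).prodMap (Complex.conjCLE : ℂ →L[ℝ] ℂ)

theorem cjL_apply (q : ℂ × ℂ) : cjL q = cj q := rfl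

theorem cj_diff : Differentiable ℝ cj := cjL.differentiable

theorem cj_ne {q : ℂ × ℂ} (h : q ≠ 0) : cj q ≠ 0 := fun e => h (by
  simpa [cj, Prod.ext_iff] using e)

theorem cj_smul (u : ℂ) (q : ℂ × ℂ) : cj (u • q) = starRingEnd ℂ u • cj q := by simp [cj]

theorem mir_smul (u : ℂ) (x : St) : mir (u • x) = starRingEnd ℂ u • mir x := by
  simp [mir, cj_smul]

theorem Free.cj {q : ℂ × ℂ} (h : Free q) : Free (cj q) :=
  ⟨by simpa [S2.cj] using h.1, by simpa [S2.cj] using h.2.1, fun e => h.2.2 ((starRingEnd ℂ).injective e)⟩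

theorem NF_mir (x : St) : NF a b (mir x) = -mir (NF a b x) := by
  simp only [NF, mir, cj, Prod.neg_mk, ← map_sub, RCLike.norm_conj,
    Prod.mk.injEq]
  simp only [map_add, map_sub, map_mul, map_div₀, map_neg, map_pow, Complex.conj_ofReal]
  refine ⟨⟨?_, ?_⟩, ?_, ?_⟩ <;> ring

theorem Seg.mir (h : Seg a b x y T Z) : Seg a b (mir y) (mir x) T (cj '' Z) := by
  obtain ⟨hT, γ, rfl, rfl, hγ, rfl⟩ := h
  have m : ∀ t ∈ Icc 0 T, T - t ∈ Icc 0 T := fun t ht => ⟨by linarith [ht.2], by linarith [ht.1]⟩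
  refine ⟨hT, fun t => S2.mir (γ (T - t)), by simp, by simp,
    fun t ht => ⟨(hγ _ (m t ht)).1.cj, ?_⟩, ?_⟩
  · have h1 := (hγ _ (m t ht)).2.scomp t ((hasDerivAt_id t).const_sub T).hasDerivWithinAt m
    have h2 := (cjL.prodMap (-cjL)).hasFDerivAt.comp_hasDerivWithinAt t h1
    rw [map_smul, neg_one_smul] at h2
    rw [NF_mir]
    exact h2
  · rw [image_image]
    ext q
    constructor
    · rintro ⟨t, ht, rfl⟩
      exact ⟨T - t, m t ht, by simp [S2.mir]⟩
    · rintro ⟨t, ht, rfl⟩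
      exact ⟨T - t, m t ht, rfl⟩

/-- change of time -/
theorem seg_of_reparam {S : ℝ} (hS : 0 ≤ S) {y : ℝ → St} {g : ℝ → ℝ}
    (hg : ContinuousOn g (Icc 0 S)) (h0 : ∀ s ∈ Icc 0 S, 0 < g s)
    (hy : ∀ s ∈ Icc 0 S, Free (y s).1 ∧ HasDerivWithinAt y (g s • NF a b (y s)) (Icc 0 S) s) :
    Seg a b (y 0) (y S) (∫ s in (0 : ℝ)..S, g s) ((fun s => (y s).1) '' Icc 0 S) := by
  let G : ℝ → ℝ := fun s => g (projIcc 0 S hS s)
  have Gc : Continuous G := hg.comp_continuous (by fun_prop) fun s => (projIcc 0 S hS s).2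
  have G0 : ∀ s, 0 < G s := fun s => h0 _ (projIcc 0 S hS s).2
  have Ge : ∀ s ∈ Icc 0 S, G s = g s := fun s hs => by simp only [G, projIcc_of_mem hS hs]
  let t : ℝ → ℝ := fun s => ∫ r in (0 : ℝ)..s, G r
  have td : ∀ s, HasStrictDerivAt t (G s) s := fun s => Gc.integral_hasStrictDerivAt 0 s
  have tm : StrictMono t := strictMono_of_deriv_pos fun s => by
    rw [(td s).hasDerivAt.deriv]; exact G0 s
  have t0 : t 0 = 0 := intervalIntegral.integral_same
  have tS : ∫ s in (0 : ℝ)..S, g s = t S := intervalIntegral.integral_congr fun s hs =>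
    (Ge s (uIcc_of_le hS ▸ hs)).symm
  let σ := Function.invFun t
  have li : ∀ s, σ (t s) = s := Function.leftInverse_invFun tm.injective
  have im : ∀ r ∈ Icc 0 (t S), ∃ s ∈ Icc 0 S, t s = r := fun r hr =>
    intermediate_value_Icc hS (fun s _ => (td s).hasDerivAt.continuousAt.continuousWithinAt)
      (by rwa [t0])
  have mp : MapsTo σ (Icc 0 (t S)) (Icc 0 S) := fun r hr => by
    obtain ⟨s, hs, rfl⟩ := im r hr
    rwa [li]
  rw [tS]
  refine ⟨t0 ▸ tm.monotone hS, fun r => y (σ r), ?_, congrArg y (li S), fun r hr => ?_, ?_⟩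
  · exact congrArg y ((congrArg σ t0.symm).trans (li 0))
  · obtain ⟨s, hs, rfl⟩ := im r hr
    have h1 := ((td s).to_local_left_inverse (G0 s).ne' (Eventually.of_forall li)).hasDerivAt
    have h2 := HasDerivWithinAt.scomp (t s) (g₁ := y) (h := σ) (g₁' := g s • NF a b (y s))
      (by rw [li]; exact (hy s hs).2) h1.hasDerivWithinAt mp
    rw [smul_smul, Ge s hs, inv_mul_cancel₀ (h0 s hs).ne', one_smul] at h2
    simp only [li]
    exact ⟨(hy s hs).1, h2⟩
  · ext q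
    constructor
    · rintro ⟨s, hs, rfl⟩
      exact ⟨t s, ⟨t0 ▸ tm.monotone hs.1, tm.monotone hs.2⟩, by simp only [li]⟩
    · rintro ⟨r, hr, rfl⟩
      exact ⟨σ r, mp hr, rfl⟩

theorem exists_sum (φ : ℤ → ℝ) : ∃ Φ : ℤ → ℝ, ∀ k, Φ (k + 1) = Φ k + φ k := by
  refine ⟨fun k => ∑ i ∈ Finset.range k.toNat, φ i -
    ∑ i ∈ Finset.range (-k).toNat, φ (-((i : ℤ) + 1)), fun k => ?_⟩
  rcases le_or_gt 0 k with h | h
  · obtain ⟨n, rfl⟩ := Int.eq_ofNat_of_zero_le h
    have e1 : ((n : ℤ) + 1).toNat = n + 1 := by omega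
    have e2 : (-((n : ℤ) + 1)).toNat = 0 := by omega
    have e3 : (-(n : ℤ)).toNat = 0 := by omega
    simp only [e1, e2, e3, Int.toNat_natCast, Finset.sum_range_succ, Finset.sum_range_zero]
    ring
  · obtain ⟨n, rfl⟩ : ∃ n : ℕ, k = -((n : ℤ) + 1) := ⟨(-k - 1).toNat, by omega⟩
    have e1 : (-((n : ℤ) + 1) + 1).toNat = 0 := by omega
    have e2 : (-(-((n : ℤ) + 1) + 1)).toNat = n := by omega
    have e3 : (-((n : ℤ) + 1)).toNat = 0 := by omega
    have e4 : (- -((n : ℤ) + 1)).toNat = n + 1 := by omega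
    simp only [e1, e2, e3, e4, Finset.sum_range_succ, Finset.sum_range_zero]
    ring

/-- a chain of segments is a global solution -/
theorem glue {x : ℤ → St} {T : ℤ → ℝ} {Z : ℤ → Set (ℂ × ℂ)} {c : ℝ} (hc : 0 < c)
    (hT : ∀ k, c ≤ T k) (h : ∀ k, Seg a b (x k) (x (k + 1)) (T k) (Z k)) :
    ∃ γ : ℝ → St, (∀ t, Free (γ t).1 ∧ HasDerivAt γ (NF a b (γ t)) t) ∧
      range (fun t => (γ t).1) = ⋃ k, Z k := by
  choose γ e0 e1 hγ hZ using fun k => (h k).2
  obtain ⟨τ, hτ⟩ := exists_sum T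
  have mono : StrictMono τ := strictMono_int_of_lt_succ fun k => by rw [hτ]; linarith [hT k]
  have up : ∀ (k : ℤ) (n : ℕ), τ k + n * c ≤ τ (k + n) := fun k n => by
    induction n with
    | zero => simp
    | succ n ih => rw [Nat.cast_succ, Nat.cast_succ, ← add_assoc, hτ]; linarith [hT (k + n)]
  have ex : ∀ t, ∃ k, τ k ≤ t ∧ t < τ (k + 1) := fun t => by
    obtain ⟨n, hn⟩ := exists_nat_ge (|t - τ 0| / c)
    rw [div_le_iff₀ hc, abs_le] at hn
    obtain ⟨k, hk, hm⟩ := Int.exists_greatest_of_bdd (P := fun k => τ k ≤ t)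
      ⟨n, fun k hk => mono.le_iff_le.1 (by
        have := up 0 n
        rw [zero_add] at this
        linarith [hn.2])⟩ ⟨-n, by
        have := up (-n) n
        rw [neg_add_cancel] at this
        linarith [hn.1]⟩
    exact ⟨k, hk, not_le.1 fun h => by have := hm _ h; omega⟩
  choose κ k1 k2 using ex
  have uq : ∀ t k, τ k ≤ t → t < τ (k + 1) → κ t = k := fun t k h1 h2 => by
    have a1 := mono.lt_iff_lt.1 (h1.trans_lt (k2 t))
    have a2 := mono.lt_iff_lt.1 ((k1 t).trans_lt h2)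
    omega
  let η : ℝ → St := fun t => γ (κ t) (t - τ (κ t))
  have e : ∀ k, ∀ t ∈ Icc (τ k) (τ k + T k), η t = γ k (t - τ k) := fun k t ht => by
    rcases ht.2.eq_or_lt with h1 | h1
    · have := uq t (k + 1) (by rw [hτ, h1]) (by rw [h1, ← hτ]; exact mono (lt_add_one _))
      simp only [η, this]
      rw [h1, hτ, sub_self, add_sub_cancel_left, e0, e1]
    · simp only [η, uq t k ht.1 (by rwa [hτ])]
  have m : ∀ k, ∀ t ∈ Icc (τ k) (τ k + T k), t - τ k ∈ Icc 0 (T k) := fun k t ht =>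
    ⟨sub_nonneg.2 ht.1, sub_le_iff_le_add'.2 ht.2⟩
  have d : ∀ k, ∀ t ∈ Icc (τ k) (τ k + T k),
      HasDerivWithinAt η (NF a b (η t)) (Icc (τ k) (τ k + T k)) t := fun k t ht => by
    rw [e k t ht]; exact (Seg.shift (hγ k _ (m k t ht)).2).congr (e k) (e k t ht)
  have mk : ∀ t, t ∈ Icc (τ (κ t)) (τ (κ t) + T (κ t)) := fun t => ⟨k1 t, hτ _ ▸ (k2 t).le⟩
  refine ⟨η, fun t => ⟨(hγ _ _ (m _ t (mk t))).1, ?_⟩, ?_⟩
  · have h2 : t < τ (κ t) + T (κ t) := hτ _ ▸ k2 t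
    rcases (k1 t).eq_or_lt with h1 | h1
    · have h3 : τ (κ t - 1) + T (κ t - 1) = t := by rw [← hτ, sub_add_cancel, h1]
      have h4 : τ (κ t - 1) < t := by linarith [hT (κ t - 1)]
      refine ((d (κ t - 1) t ⟨h4.le, h3.ge⟩).union (d _ t (mk t))).hasDerivAt ?_
      rw [h3, h1, Icc_union_Icc_eq_Icc h4.le (by linarith)]
      exact Icc_mem_nhds h4 (by linarith)
    · exact (d _ t (mk t)).hasDerivAt (Icc_mem_nhds h1 h2)
  · ext q
    simp only [mem_range, mem_iUnion, hZ]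
    constructor
    · rintro ⟨t, rfl⟩
      exact ⟨κ t, _, m _ t (mk t), rfl⟩
    · rintro ⟨k, s, hs, rfl⟩
      refine ⟨τ k + s, ?_⟩
      rw [e k _ ⟨by linarith [hs.1], by linarith [hs.2]⟩, add_sub_cancel_left]

/-- from heliocentric coordinates to the Newton equations -/
theorem newt (ha : 0 < a) (hb : 0 < b) {γ : ℝ → St}
    (h : ∀ t, Free (γ t).1 ∧ HasDerivAt γ (NF a b (γ t)) t) :
    ∃ q, IsSol ![1, a, b] q ∧ ∀ t, (q t 1 - q t 0, q t 2 - q t 0) = (γ t).1 := by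
  have hM : (1 + a + b : ℂ) ≠ 0 := by exact_mod_cast (by positivity : (1 + a + b : ℝ) ≠ 0)
  let c : ℝ → ℂ := fun t => -(a * (γ t).1.1 + b * (γ t).1.2) / (1 + a + b)
  have p1 : ∀ t, HasDerivAt (fun s => (γ s).1) (NF a b (γ t)).1 t := fun t =>
    (ContinuousLinearMap.fst ℝ (ℂ × ℂ) (ℂ × ℂ)).hasFDerivAt.comp_hasDerivAt t (h t).2
  have p2 : ∀ t, HasDerivAt (fun s => (γ s).2) (NF a b (γ t)).2 t := fun t =>
    (ContinuousLinearMap.snd ℝ (ℂ × ℂ) (ℂ × ℂ)).hasFDerivAt.comp_hasDerivAt t (h t).2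
  have d1 : ∀ t, HasDerivAt (fun s => (γ s).1.1) (NF a b (γ t)).1.1 t := fun t =>
    (ContinuousLinearMap.fst ℝ ℂ ℂ).hasFDerivAt.comp_hasDerivAt t (p1 t)
  have d2 : ∀ t, HasDerivAt (fun s => (γ s).1.2) (NF a b (γ t)).1.2 t := fun t =>
    (ContinuousLinearMap.snd ℝ ℂ ℂ).hasFDerivAt.comp_hasDerivAt t (p1 t)
  have d3 : ∀ t, HasDerivAt (fun s => (γ s).2.1) (NF a b (γ t)).2.1 t := fun t =>
    (ContinuousLinearMap.fst ℝ ℂ ℂ).hasFDerivAt.comp_hasDerivAt t (p2 t)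
  have d4 : ∀ t, HasDerivAt (fun s => (γ s).2.2) (NF a b (γ t)).2.2 t := fun t =>
    (ContinuousLinearMap.snd ℝ ℂ ℂ).hasFDerivAt.comp_hasDerivAt t (p2 t)
  have dc : ∀ t, HasDerivAt c (-(a * (γ t).2.1 + b * (γ t).2.2)) t := fun t => by
    refine (((((d1 t).const_mul (a : ℂ)).fun_add ((d2 t).const_mul (b : ℂ))).fun_neg).div_const
      (1 + a + b : ℂ)).congr_deriv ?_
    simp only [NF]
    field_simp
    ring
  refine ⟨fun t => ![c t, (γ t).1.1 + c t, (γ t).1.2 + c t], ⟨fun t i j hij => ?_, fun t => ?_,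
    fun t => ![-(a * (γ t).2.1 + b * (γ t).2.2), (γ t).2.1, (γ t).2.2],
    fun t => ![-(a * (NF a b (γ t)).2.1 + b * (NF a b (γ t)).2.2), (NF a b (γ t)).2.1,
      (NF a b (γ t)).2.2], fun t i => ?_⟩, fun t => by simp⟩
  · obtain ⟨f1, f2, f3⟩ := (h t).1
    fin_cases i <;> fin_cases j <;> simp_all [eq_comm]
  · simp only [Fin.sum_univ_three, c]
    simp
    field_simp
    ring
  · have n1 : ‖(γ t).1.1 - (γ t).1.2‖ = ‖(γ t).1.2 - (γ t).1.1‖ := norm_sub_rev _ _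
    rw [Finset.sum_erase_eq_sub (Finset.mem_univ i), Fin.sum_univ_three]
    fin_cases i
    · refine ⟨dc t, (((d3 t).const_mul (a : ℂ)).fun_add ((d4 t).const_mul (b : ℂ))).fun_neg, ?_⟩
      simp [NF]
      ring
    · refine ⟨?_, d3 t, ?_⟩
      · exact ((d1 t).fun_add (dc t)).congr_deriv (by simp [NF]; ring)
      · simp [NF]
        ring
    · refine ⟨?_, d4 t, ?_⟩
      · exact ((d2 t).fun_add (dc t)).congr_deriv (by simp [NF]; ring)
      · simp [NF, n1]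
        ring

/-- all masses may be multiplied by a common factor -/
theorem Att.scale {m : Fin 3 → ℝ} {A l : ℝ} (hm : ∀ i, 0 < m i) (hl : 0 < l) (h : Att m A) :
    Att (fun i => l * m i) A := by
  obtain ⟨q, ⟨h1, h2, v, w, h3⟩, rfl⟩ := h
  have hs : 0 < √l := Real.sqrt_pos.2 hl
  have hs' : (√l : ℂ) * √l = l := by exact_mod_cast Real.mul_self_sqrt hl.le
  have d : ∀ t, HasDerivAt (fun s : ℝ => √l * s) (√l) t := fun t => by
    simpa using (hasDerivAt_id t).const_mul √l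
  refine ⟨fun t => q (√l * t), ⟨fun t => h1 _, fun t => ?_, fun t i => √l * v (√l * t) i,
    fun t i => l * w (√l * t) i, fun t i => ⟨?_, ?_, ?_⟩⟩, ?_⟩
  · simp only [Complex.ofReal_mul, mul_assoc, ← Finset.mul_sum, h2, mul_zero]
  · exact (h3 _ i).1.scomp t (d t)
  · refine (((h3 _ i).2.1.scomp t (d t)).const_mul (√l : ℂ)).congr_deriv ?_
    rw [Complex.real_smul, ← mul_assoc, hs']
  · have := congrArg (fun z => (l : ℂ) * l * z) (h3 (√l * t) i).2.2
    simp only [Finset.mul_sum] at this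
    push_cast
    convert this using 1
    · ring
    · exact Finset.sum_congr rfl fun j _ => by ring
  · have e : ∀ c, shape (fun i => l * m i) c = shape m c := fun c => by
      have hc : (√l : ℂ) ≠ 0 := by exact_mod_cast hs.ne'
      have := hm 0; have := hm 1; have := hm 2
      rw [Hopf.shape_eq fun i => mul_pos hl (hm i), Hopf.shape_eq hm,
        ← Hopf.hp_mul hc (Hopf.k1 m * (c 1 - c 0)),
        show Hopf.k1 (fun i => l * m i) = √l * Hopf.k1 m by
          rw [Hopf.k1, Hopf.k1, ← Real.sqrt_mul hl.le]; congr 1; field_simp,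
        show Hopf.k2 (fun i => l * m i) = √l * Hopf.k2 m by
          rw [Hopf.k2, Hopf.k2, ← Real.sqrt_mul hl.le]; congr 1; field_simp,
        show Hopf.k3 (fun i => l * m i) = Hopf.k3 m by rw [Hopf.k3, Hopf.k3]; field_simp]
      push_cast
      simp only [mul_assoc]
    simp only [e]
    congr 2
    exact (mul_left_surjective₀ hs.ne').range_comp fun t => shape m (q t)

end Pool.Agent.MP_1ba41f_an.S2
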